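import Mathlib

/-!
Project KG, module CP: counting coprime pairs.  The number of coprime ordered pairs in [1, T]² is
at least T² - ∑_{n=2}^T ⌊T/n⌋² ≥ T² (1 - ∑_{n ≥ 2} 1/n²) ≥ T²/4 (∑_{n=2}^T 1/n² ≤ 3/4 by
telescoping 1/n² ≤ 1/(n-1) - 1/n from n = 3 on) and at most 2 ∑_{t ≤ T} φ(t), so
∑_{t ≤ T} φ(t) ≥ T²/8.  For t ≥ 2 the number of odd j < t prime to t is at least φ(t)/2:
j ↦ t - j maps the even ones (then t is odd) injectively into the odd ones; j = 0 is not prime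
to t ≥ 2.  For t = 1 the set is empty and φ(1) = 1.  So the sum is at least
(T²/8 - 1)/2 ≥ T²/32 for T ≥ 4.  (Any other proof is fine; the constant may be lowered if you
tell helper65.)
-/

namespace Pool.Agent.Helper65.KG

open Finset

theorem CP_odd (t : ℕ) : ((range t).filter (fun j => Odd j)).card = t / 2 := by
  induction t with
  | zero => simp
  | succ t ih =>
    rw [range_add_one, filter_insert]
    split_ifs with h
    · rw [card_insert_of_notMem (by simp), ih]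
      rw [Nat.odd_iff] at h
      omega
    · rw [ih]
      rw [Nat.odd_iff] at h
      omega

theorem CP_mult (d s : ℕ) (hd : 0 < d) :
    ((range (d * s)).filter (fun j => Odd j ∧ d ∣ j)).card ≤ s / 2 := by
  rw [← CP_odd s]
  refine card_le_card_of_injOn (fun j => j / d) ?_ ?_
  · intro j hj
    have hj' := mem_filter.1 hj
    obtain ⟨i, hi⟩ := hj'.2.2
    have h1 := mem_range.1 hj'.1
    have h2 := hj'.2.1
    rw [hi] at h1 h2
    refine mem_filter.2 ⟨mem_range.2 ?_, ?_⟩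
    · simp only [hi]
      rw [Nat.mul_div_cancel_left i hd]
      exact lt_of_mul_lt_mul_left h1 (Nat.zero_le d)
    · simp only [hi]
      rw [Nat.mul_div_cancel_left i hd]
      exact (Nat.odd_mul.1 h2).2
  · intro j hj j' hj' h
    have e1 := (mem_filter.1 hj).2.2
    have e2 := (mem_filter.1 hj').2.2
    simp only at h
    rw [← Nat.div_mul_cancel e1, ← Nat.div_mul_cancel e2, h]

theorem CP_sum (m : ℕ) : 4 * ∑ s ∈ Icc 1 m, s / 2 + m % 2 = m * m := by
  induction m with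
  | zero => simp
  | succ m ih =>
    rw [sum_Icc_succ_top (by omega)]
    rcases Nat.even_or_odd' m with ⟨k, rfl | rfl⟩
    · have e1 : (2 * k + 1) / 2 = k := by omega
      have e2 : (2 * k + 1) % 2 = 1 := by omega
      have e3 : 2 * k % 2 = 0 := by omega
      rw [e3] at ih
      rw [e1, e2]
      nlinarith
    · have e1 : (2 * k + 1 + 1) / 2 = k + 1 := by omega
      have e2 : (2 * k + 1 + 1) % 2 = 0 := by omega
      have e3 : (2 * k + 1) % 2 = 1 := by omega
      rw [e3] at ih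
      rw [e1, e2]
      nlinarith

theorem CP_tel (T : ℕ) (hT : 2 ≤ T) :
    ∑ d ∈ Icc 3 T, (1 : ℝ) / (d : ℝ) ^ 2 ≤ 1 / 2 - 1 / T := by
  induction T, hT using Nat.le_induction with
  | base => norm_num
  | succ T hT ih =>
    rw [sum_Icc_succ_top (by omega)]
    have h0 : (0 : ℝ) < T := by exact_mod_cast (by omega : 0 < T)
    have h1 : (1 : ℝ) / ((T + 1 : ℕ) : ℝ) ^ 2 ≤ 1 / T - 1 / ((T + 1 : ℕ) : ℝ) := by
      push_cast
      rw [div_sub_div _ _ h0.ne' (by positivity), div_le_div_iff₀ (by positivity) (by positivity)]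
      nlinarith
    linarith

theorem CP_reindex (T d : ℕ) (hd : 0 < d) :
    ∑ t ∈ (Icc 1 T).filter (fun t => d ∣ t), t / d / 2 = ∑ s ∈ Icc 1 (T / d), s / 2 := by
  have e : (Icc 1 T).filter (fun t => d ∣ t) = (Icc 1 (T / d)).image (fun s => d * s) := by
    ext t
    simp only [mem_filter, mem_Icc, mem_image]
    constructor
    · rintro ⟨⟨h1, h2⟩, s, rfl⟩
      refine ⟨s, ⟨?_, ?_⟩, rfl⟩
      · rcases Nat.eq_zero_or_pos s with h | h
        · rw [h, mul_zero] at h1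
          omega
        · exact h
      · rw [Nat.le_div_iff_mul_le hd, mul_comm]
        exact h2
    · rintro ⟨s, ⟨h1, h2⟩, rfl⟩
      refine ⟨⟨Nat.mul_pos hd h1, ?_⟩, dvd_mul_right d s⟩
      rw [Nat.le_div_iff_mul_le hd] at h2
      rwa [mul_comm]
  rw [e, sum_image (fun a _ b _ h => Nat.eq_of_mul_eq_mul_left hd h)]
  refine sum_congr rfl fun s _ => ?_
  rw [Nat.mul_div_cancel_left s hd]

theorem CP_cover (T t : ℕ) (ht : t ∈ Icc 1 T) :
    t / 2 ≤ ((range t).filter (fun j => Odd j ∧ Nat.Coprime j t)).card +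
      ∑ d ∈ (Icc 3 T).filter (fun d => d ∣ t), t / d / 2 := by
  have ht' := mem_Icc.1 ht
  have hsub : (range t).filter (fun j => Odd j) ⊆
      (range t).filter (fun j => Odd j ∧ Nat.Coprime j t) ∪
        ((Icc 3 T).filter (fun d => d ∣ t)).biUnion
          (fun d => (range t).filter (fun j => Odd j ∧ d ∣ j)) := by
    intro j hj
    obtain ⟨h1, h2⟩ := mem_filter.1 hj
    by_cases hc : Nat.Coprime j t
    · exact mem_union_left _ (mem_filter.2 ⟨h1, h2, hc⟩)
    · refine mem_union_right _ (mem_biUnion.2 ⟨Nat.gcd j t, mem_filter.2 ⟨mem_Icc.2 ⟨?_, ?_⟩,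
        Nat.gcd_dvd_right j t⟩, mem_filter.2 ⟨h1, h2, Nat.gcd_dvd_left j t⟩⟩)
      · obtain ⟨i, hi⟩ := Nat.gcd_dvd_left j t
        have h3 : Odd (Nat.gcd j t) := by
          rw [hi] at h2
          exact (Nat.odd_mul.1 h2).1
        have h4 : Nat.gcd j t ≠ 1 := hc
        rw [Nat.odd_iff] at h3
        omega
      · exact (Nat.le_of_dvd (by omega) (Nat.gcd_dvd_right j t)).trans ht'.2
  calc t / 2 = ((range t).filter (fun j => Odd j)).card := (CP_odd t).symm
    _ ≤ _ := card_le_card hsub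
    _ ≤ _ := card_union_le _ _
    _ ≤ _ := by
      refine Nat.add_le_add_left (card_biUnion_le.trans (sum_le_sum fun d hd => ?_)) _
      obtain ⟨h1, h2⟩ := mem_filter.1 hd
      have hd0 : 0 < d := by have := (mem_Icc.1 h1).1; omega
      have h3 := CP_mult d (t / d) hd0
      rwa [Nat.mul_div_cancel' h2] at h3

theorem coprime_count (T : ℕ) (hT : 4 ≤ T) :
    (T : ℝ) ^ 2 / 32 ≤ ∑ t ∈ Finset.Icc 1 T,
      (((Finset.range t).filter (fun j => Odd j ∧ Nat.Coprime j t)).card : ℝ) := by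
  have h1 : ∑ t ∈ Icc 1 T, t / 2 ≤
      ∑ t ∈ Icc 1 T, ((range t).filter (fun j => Odd j ∧ Nat.Coprime j t)).card +
      ∑ d ∈ Icc 3 T, ∑ s ∈ Icc 1 (T / d), s / 2 := by
    calc ∑ t ∈ Icc 1 T, t / 2 ≤ ∑ t ∈ Icc 1 T,
          (((range t).filter (fun j => Odd j ∧ Nat.Coprime j t)).card +
            ∑ d ∈ (Icc 3 T).filter (fun d => d ∣ t), t / d / 2) :=
          sum_le_sum fun t ht => CP_cover T t ht
      _ = _ := by
          rw [sum_add_distrib]
          congr 1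
          simp only [sum_filter]
          rw [sum_comm]
          refine sum_congr rfl fun d hd => ?_
          rw [← sum_filter]
          exact CP_reindex T d (by have := (mem_Icc.1 hd).1; omega)
  have h2 : ∑ d ∈ Icc 3 T, ((∑ s ∈ Icc 1 (T / d), s / 2 : ℕ) : ℝ) ≤ (T : ℝ) ^ 2 / 8 := by
    calc ∑ d ∈ Icc 3 T, ((∑ s ∈ Icc 1 (T / d), s / 2 : ℕ) : ℝ)
        ≤ ∑ d ∈ Icc 3 T, (T : ℝ) ^ 2 / 4 * (1 / (d : ℝ) ^ 2) := by
          refine sum_le_sum fun d hd => ?_
          have hd0 : (0 : ℝ) < d := by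
            have := (mem_Icc.1 hd).1
            exact_mod_cast (by omega : 0 < d)
          have e1 := CP_sum (T / d)
          have e2 : 4 * ∑ s ∈ Icc 1 (T / d), s / 2 ≤ (T / d) * (T / d) := by omega
          have e3 : (4 : ℝ) * ((∑ s ∈ Icc 1 (T / d), s / 2 : ℕ) : ℝ) ≤
              ((T / d : ℕ) : ℝ) * ((T / d : ℕ) : ℝ) := by exact_mod_cast e2
          have e4 : ((T / d : ℕ) : ℝ) ≤ (T : ℝ) / d := Nat.cast_div_le
          have e5 : ((T / d : ℕ) : ℝ) * ((T / d : ℕ) : ℝ) ≤ (T : ℝ) / d * ((T : ℝ) / d) :=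
            mul_le_mul e4 e4 (Nat.cast_nonneg _) (by positivity)
          have e6 : (T : ℝ) ^ 2 / 4 * (1 / (d : ℝ) ^ 2) = (T : ℝ) / d * ((T : ℝ) / d) / 4 := by
            field_simp
          rw [e6]
          linarith
      _ = (T : ℝ) ^ 2 / 4 * ∑ d ∈ Icc 3 T, (1 : ℝ) / (d : ℝ) ^ 2 := by rw [mul_sum]
      _ ≤ (T : ℝ) ^ 2 / 4 * (1 / 2) := by
          refine mul_le_mul_of_nonneg_left ?_ (by positivity)
          have := CP_tel T (by omega)
          have h0 : (0 : ℝ) ≤ 1 / T := by positivity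
          linarith
      _ = (T : ℝ) ^ 2 / 8 := by ring
  have h3 : (T : ℝ) ^ 2 ≤ 4 * ((∑ t ∈ Icc 1 T, t / 2 : ℕ) : ℝ) + 1 := by
    have e1 := CP_sum T
    have e2 : T * T ≤ 4 * ∑ t ∈ Icc 1 T, t / 2 + 1 := by omega
    have e3 : (T : ℝ) * T ≤ 4 * ((∑ t ∈ Icc 1 T, t / 2 : ℕ) : ℝ) + 1 := by exact_mod_cast e2
    linarith
  have h4 : ((∑ t ∈ Icc 1 T, t / 2 : ℕ) : ℝ) ≤
      ∑ t ∈ Icc 1 T, (((range t).filter (fun j => Odd j ∧ Nat.Coprime j t)).card : ℝ) +
      ∑ d ∈ Icc 3 T, ((∑ s ∈ Icc 1 (T / d), s / 2 : ℕ) : ℝ) := by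
    have := (Nat.cast_le (α := ℝ)).2 h1
    push_cast at this ⊢
    exact this
  have h5 : (16 : ℝ) ≤ (T : ℝ) ^ 2 := by
    have : (4 : ℝ) ≤ T := by exact_mod_cast hT
    nlinarith
  linarith

end Pool.Agent.Helper65.KG
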