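import Mathlib

/-!
Project KG, module Fs: the set counted in the problem is finite.

UNIQUENESS.  Let g y = (fract y)⁻¹.  If ⌊g^[k] x⌋ = ⌊g^[k] y⌋ = a k ≥ 1 for all k then x = y:
put x_k = g^[k] x, y_k = g^[k] y.  x_(k+1) = 1 / (x_k - a k) (in particular x_k is not an integer,
because ⌊x_(k+1)⌋ ≥ 1 and 0⁻¹ = 0), so x_k = a k + 1 / x_(k+1), x_k ≥ 1, and
x_k x_(k+1) = a k x_(k+1) + 1 ≥ 2.  Hence |x_k - y_k| = |x_(k+1) - y_(k+1)| / (x_(k+1) y_(k+1)), and
two steps give |x_k - y_k| ≤ |x_(k+2) - y_(k+2)| / 4; all differences are < 1 (same floor), so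
|x - y| ≤ 4⁻ᵏ for all k.
FINITENESS.  A periodic sequence a with period n ≤ l and values ≤ A is determined by n and its
values at 0, ..., n - 1; the set of such sequences is finite: it is contained in the union over
n ≤ l of the images of the finite type Fin n → Fin (A + 1) under f ↦ (k ↦ f (k mod n)) (n ≥ 1).
The map from the counted set to its sequence is injective.
-/

namespace Pool.Agent.Helper65.KG

private theorem Fs_step {x : ℝ} {a : ℕ → ℕ} (ha : ∀ k, 1 ≤ a k)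
    (hx : ∀ k : ℕ, ⌊(fun y : ℝ => (Int.fract y)⁻¹)^[k] x⌋ = (a k : ℤ)) (k : ℕ) :
    1 ≤ (fun y : ℝ => (Int.fract y)⁻¹)^[k] x ∧
    ((fun y : ℝ => (Int.fract y)⁻¹)^[k] x - a k) *
      (fun y : ℝ => (Int.fract y)⁻¹)^[k + 1] x = 1 := by
  set g : ℝ → ℝ := fun y : ℝ => (Int.fract y)⁻¹ with hg
  have h1 : ∀ k, (1 : ℝ) ≤ g^[k] x := by
    intro k
    have h2 : ((⌊g^[k] x⌋ : ℤ) : ℝ) ≤ g^[k] x := Int.floor_le _
    rw [hx k] at h2
    have h3 : (1 : ℝ) ≤ (a k : ℝ) := by exact_mod_cast ha k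
    push_cast at h2
    linarith
  refine ⟨h1 k, ?_⟩
  have h4 : g^[k + 1] x = (Int.fract (g^[k] x))⁻¹ := by
    rw [Function.iterate_succ_apply']
  have h5 : Int.fract (g^[k] x) = g^[k] x - a k := by
    have := Int.self_sub_floor (g^[k] x)
    rw [hx k] at this
    push_cast at this
    exact this.symm
  have h6 := h1 (k + 1)
  rw [h4, h5] at h6
  rw [h4, h5]
  refine mul_inv_cancel₀ ?_
  intro h
  rw [h, inv_zero] at h6
  linarith

theorem Fs_unique {x y : ℝ} {a : ℕ → ℕ} (ha : ∀ k, 1 ≤ a k)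
    (hx : ∀ k : ℕ, ⌊(fun y : ℝ => (Int.fract y)⁻¹)^[k] x⌋ = (a k : ℤ))
    (hy : ∀ k : ℕ, ⌊(fun y : ℝ => (Int.fract y)⁻¹)^[k] y⌋ = (a k : ℤ)) : x = y := by
  have hX := Fs_step ha hx
  have hY := Fs_step ha hy
  have hb : ∀ k, |(fun y : ℝ => (Int.fract y)⁻¹)^[k] x -
      (fun y : ℝ => (Int.fract y)⁻¹)^[k] y| < 1 := fun k =>
    Int.abs_sub_lt_one_of_floor_eq_floor ((hx k).trans (hy k).symm)
  revert hX hY hb
  generalize hu : (fun k => (fun y : ℝ => (Int.fract y)⁻¹)^[k] x) = u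
  generalize hv : (fun k => (fun y : ℝ => (Int.fract y)⁻¹)^[k] y) = v
  have hu' : ∀ k, (fun y : ℝ => (Int.fract y)⁻¹)^[k] x = u k := fun k => congrFun hu k
  have hv' : ∀ k, (fun y : ℝ => (Int.fract y)⁻¹)^[k] y = v k := fun k => congrFun hv k
  simp only [hu', hv']
  intro hX hY hb
  have hstep : ∀ k, |u k - v k| ≤ |u (k + 2) - v (k + 2)| / 4 := by
    intro k
    obtain ⟨x0, x0'⟩ := hX k
    obtain ⟨x1, x1'⟩ := hX (k + 1)
    obtain ⟨x2, -⟩ := hX (k + 2)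
    obtain ⟨y0, y0'⟩ := hY k
    obtain ⟨y1, y1'⟩ := hY (k + 1)
    obtain ⟨y2, -⟩ := hY (k + 2)
    have ha1 : (1 : ℝ) ≤ (a (k + 1) : ℝ) := by exact_mod_cast ha (k + 1)
    have e0 : (u k - v k) * (u (k + 1) * v (k + 1)) = v (k + 1) - u (k + 1) := by
      linear_combination v (k + 1) * x0' - u (k + 1) * y0'
    have e1 : (u (k + 1) - v (k + 1)) * (u (k + 1 + 1) * v (k + 1 + 1)) =
        v (k + 1 + 1) - u (k + 1 + 1) := by
      linear_combination v (k + 1 + 1) * x1' - u (k + 1 + 1) * y1'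
    have e2 : (u k - v k) * ((u (k + 1) * u (k + 1 + 1)) * (v (k + 1) * v (k + 1 + 1))) =
        u (k + 1 + 1) - v (k + 1 + 1) := by
      linear_combination (u (k + 1 + 1) * v (k + 1 + 1)) * e0 - e1
    have p1 : 2 ≤ u (k + 1) * u (k + 1 + 1) := by
      have : u (k + 1) * u (k + 1 + 1) = a (k + 1) * u (k + 1 + 1) + 1 := by
        linear_combination x1'
      rw [this]
      nlinarith
    have p2 : 2 ≤ v (k + 1) * v (k + 1 + 1) := by
      have : v (k + 1) * v (k + 1 + 1) = a (k + 1) * v (k + 1 + 1) + 1 := by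
        linear_combination y1'
      rw [this]
      nlinarith
    have p3 : 4 ≤ (u (k + 1) * u (k + 1 + 1)) * (v (k + 1) * v (k + 1 + 1)) := by
      nlinarith
    have e3 : |u (k + 2) - v (k + 2)| =
        |u k - v k| * ((u (k + 1) * u (k + 1 + 1)) * (v (k + 1) * v (k + 1 + 1))) := by
      rw [show k + 2 = k + 1 + 1 from rfl, ← e2, abs_mul,
        abs_of_nonneg (a := (u (k + 1) * u (k + 1 + 1)) * (v (k + 1) * v (k + 1 + 1)))
          (by linarith)]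
    rw [e3]
    have := abs_nonneg (u k - v k)
    rw [le_div_iff₀ (by norm_num)]
    exact mul_le_mul_of_nonneg_left p3 this
  have hall : ∀ m k, |u k - v k| ≤ (1 / 4 : ℝ) ^ m := by
    intro m
    induction m with
    | zero => intro k; rw [pow_zero]; exact (hb k).le
    | succ m ih =>
      intro k
      refine (hstep k).trans ?_
      rw [pow_succ]
      have := ih (k + 2)
      linarith
  have h0 : |u 0 - v 0| ≤ 0 :=
    ge_of_tendsto' (tendsto_pow_atTop_nhds_zero_of_lt_one (r := (1 / 4 : ℝ)) (by norm_num)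
      (by norm_num)) fun m => hall m 0
  have h1 : u 0 - v 0 = 0 := abs_eq_zero.1 (le_antisymm h0 (abs_nonneg _))
  have h2 : u 0 = x := (hu' 0).symm
  have h3 : v 0 = y := (hv' 0).symm
  rw [← h2, ← h3]
  linarith

theorem set_finite (d A l : ℕ) :
    ({x : ℝ | (∃ p q : ℚ, x = (p : ℝ) + (q : ℝ) * Real.sqrt (d : ℝ)) ∧
      ∃ n : ℕ, 1 ≤ n ∧ n ≤ l ∧ ∃ a : ℕ → ℕ, Function.Periodic a n ∧
        (∀ k, 1 ≤ a k ∧ a k ≤ A) ∧
        ∀ k : ℕ, ⌊(fun y : ℝ => (Int.fract y)⁻¹)^[k] x⌋ = (a k : ℤ)}).Finite := by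
  classical
  let al : ℕ → (Fin (l + 1) → Fin (A + 1)) → ℕ → ℕ := fun n f k =>
    (f (Fin.ofNat (l + 1) (k % n)) : ℕ)
  refine Set.Finite.subset (s := ⋃ n ∈ (Finset.range (l + 1) : Set ℕ),
    ⋃ f : Fin (l + 1) → Fin (A + 1), {x : ℝ | (∀ k, 1 ≤ al n f k) ∧
      ∀ k : ℕ, ⌊(fun y : ℝ => (Int.fract y)⁻¹)^[k] x⌋ = (al n f k : ℤ)}) ?_ ?_
  · refine Set.Finite.biUnion (Finset.finite_toSet _) fun n _ => ?_
    refine Set.finite_iUnion fun f => ?_
    refine Set.Subsingleton.finite ?_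
    rintro x ⟨h1, h2⟩ y ⟨-, h3⟩
    exact Fs_unique h1 h2 h3
  · rintro x ⟨-, n, hn, hnl, a, ha, hA, hx⟩
    have key : ∀ k, al n (fun j => ⟨a j, Nat.lt_succ_of_le (hA j).2⟩) k = a k := by
      intro k
      have h1 : k % n < n := Nat.mod_lt _ hn
      have h2 : k % n % (l + 1) = k % n := Nat.mod_eq_of_lt (by omega)
      show a ((Fin.ofNat (l + 1) (k % n) : Fin (l + 1)) : ℕ) = a k
      rw [Fin.val_ofNat, h2, ha.map_mod_nat]
    rw [Set.mem_iUnion₂]
    refine ⟨n, by simp only [Finset.coe_range, Set.mem_Iio]; omega, ?_⟩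
    rw [Set.mem_iUnion]
    refine ⟨fun j => ⟨a j, Nat.lt_succ_of_le (hA j).2⟩, ?_, ?_⟩
    · intro k
      rw [key k]
      exact (hA k).1
    · intro k
      rw [key k]
      exact hx k

end Pool.Agent.Helper65.KG
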