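import Pool.Agent.Helper65.KG.Defs

/-!
Project KG, module Cg: congruences.  With e ^ n = X n + Y n √D:
modulo Y j we have e ^ j ≡ X j, hence e ^ (r + k j) ≡ X j ^ k e ^ r (induction on k,
X_add, Y_add).  Modulo X j we have e ^ (2 j) ≡ -1 (X_two_mul, Y_two_mul), hence for
k = 2 m the pair (X, Y)(r + k j) is ± (X r, Y r) and for k = 2 m + 1 it is
± (D Y_j Y_r, Y_j X_r) (apply the even case to r + j, then X_add, Y_add).
Y_coprime_X: j odd, prime to t.  gcd (j, 2 t) = 1, so u j = v (2 t) + 1 for naturals u, v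
(if t ≥ 1; for t = 0 we have j = 1, Y 1 = 1).  A prime p (or: an element; work with ideals or
Int.isCoprime_iff_gcd_eq_one and a prime divisor) dividing Y j and X t divides Y (u j)
(Y j ∣ Y (u j) is mod_Y with r = 0) and Y (2 t), Y (v (2 t)), and
Y (v (2 t) + 1) = X (v (2 t)) * 1 + Y (v (2 t)) * a, so p divides X (v (2 t)) and
Y (v (2 t)): contradiction to pell.
-/

namespace Pool.Agent.Helper65.KG

open Pool.Agent.Helper20 Pool.Agent.Helper20.MC

theorem mod_Y (a j r k : ℕ) :
    Y a j ∣ X a (r + k * j) - X a j ^ k * X a r ∧ Y a j ∣ Y a (r + k * j) - X a j ^ k * Y a r := by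
  induction k with
  | zero => simp
  | succ k ih =>
    obtain ⟨h1, h2⟩ := ih
    have e : r + (k + 1) * j = (r + k * j) + j := by ring
    rw [e, X_add a (r + k * j) j, Y_add a (r + k * j) j]
    constructor
    · have e1 : X a (r + k * j) * X a j + DD a * (Y a (r + k * j) * Y a j) - X a j ^ (k + 1) * X a r
          = X a j * (X a (r + k * j) - X a j ^ k * X a r) + Y a j * (DD a * Y a (r + k * j)) := by
        ring
      rw [e1]
      exact dvd_add (dvd_mul_of_dvd_right h1 _) (dvd_mul_right _ _)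
    · have e1 : X a (r + k * j) * Y a j + Y a (r + k * j) * X a j - X a j ^ (k + 1) * Y a r
          = X a j * (Y a (r + k * j) - X a j ^ k * Y a r) + Y a j * X a (r + k * j) := by
        ring
      rw [e1]
      exact dvd_add (dvd_mul_of_dvd_right h2 _) (dvd_mul_right _ _)

theorem mod_X_even (a j r m : ℕ) : ∃ s : ℤ, (s = 1 ∨ s = -1) ∧
    X a j ∣ X a (r + 2 * m * j) - s * X a r ∧ X a j ∣ Y a (r + 2 * m * j) - s * Y a r := by
  induction m with
  | zero => exact ⟨1, Or.inl rfl, by simp, by simp⟩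
  | succ m ih =>
    obtain ⟨s, hs, h1, h2⟩ := ih
    refine ⟨-s, by rcases hs with h | h <;> simp [h], ?_, ?_⟩
    · have e : r + 2 * (m + 1) * j = (r + 2 * m * j) + 2 * j := by ring
      rw [e, X_add a (r + 2 * m * j) (2 * j), X_two_mul, Y_two_mul]
      have e1 : X a (r + 2 * m * j) * (2 * X a j ^ 2 - 1)
            + DD a * (Y a (r + 2 * m * j) * (2 * (X a j * Y a j))) - -s * X a r
          = -(X a (r + 2 * m * j) - s * X a r)
            + X a j * (2 * X a j * X a (r + 2 * m * j)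
              + DD a * (Y a (r + 2 * m * j) * (2 * Y a j))) := by ring
      rw [e1]
      exact dvd_add ((dvd_neg).2 h1) (dvd_mul_right _ _)
    · have e : r + 2 * (m + 1) * j = (r + 2 * m * j) + 2 * j := by ring
      rw [e, Y_add a (r + 2 * m * j) (2 * j), X_two_mul, Y_two_mul]
      have e1 : X a (r + 2 * m * j) * (2 * (X a j * Y a j))
            + Y a (r + 2 * m * j) * (2 * X a j ^ 2 - 1) - -s * Y a r
          = -(Y a (r + 2 * m * j) - s * Y a r)
            + X a j * (2 * Y a j * X a (r + 2 * m * j)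
              + 2 * X a j * Y a (r + 2 * m * j)) := by ring
      rw [e1]
      exact dvd_add ((dvd_neg).2 h2) (dvd_mul_right _ _)

theorem mod_X_odd (a j r m : ℕ) : ∃ s : ℤ, (s = 1 ∨ s = -1) ∧
    X a j ∣ X a (r + (2 * m + 1) * j) - s * (DD a * (Y a j * Y a r)) ∧
    X a j ∣ Y a (r + (2 * m + 1) * j) - s * (Y a j * X a r) := by
  obtain ⟨s, hs, h1, h2⟩ := mod_X_even a j (r + j) m
  have e : r + (2 * m + 1) * j = (r + j) + 2 * m * j := by ring
  refine ⟨s, hs, ?_, ?_⟩
  · rw [e]
    have e1 : X a (r + j + 2 * m * j) - s * (DD a * (Y a j * Y a r))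
        = (X a (r + j + 2 * m * j) - s * X a (r + j)) + X a j * (s * X a r) := by
      rw [X_add a r j]
      ring
    rw [e1]
    exact dvd_add h1 (dvd_mul_right _ _)
  · rw [e]
    have e1 : Y a (r + j + 2 * m * j) - s * (Y a j * X a r)
        = (Y a (r + j + 2 * m * j) - s * Y a (r + j)) + X a j * (s * Y a r) := by
      rw [Y_add a r j]
      ring
    rw [e1]
    exact dvd_add h2 (dvd_mul_right _ _)

theorem Y_coprime_X {a j t : ℕ} (ha : 2 ≤ a) (hj : Odd j) (hc : Nat.Coprime j t) :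
    IsCoprime (Y a j) (X a t) := by
  rcases Nat.eq_zero_or_pos t with ht | ht
  · subst ht
    have hj1 : j = 1 := by simpa using hc
    rw [hj1, Y_one]
    exact isCoprime_one_left
  have hc2 : Nat.Coprime j (2 * t) :=
    Nat.Coprime.mul_right ((Nat.coprime_two_right).2 hj) hc
  obtain ⟨m, hm⟩ : ∃ m, j * m % (2 * t) = 1 := by
    obtain ⟨m, hm⟩ := Nat.exists_mul_mod_eq_one_of_coprime hc2 (by omega)
    exact ⟨m, hm.2⟩
  have hmd : j * m = (j * m / (2 * t)) * (2 * t) + 1 := by
    have := Nat.div_add_mod (j * m) (2 * t)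
    rw [hm] at this
    linarith
  set v := j * m / (2 * t) with hv
  rw [Int.isCoprime_iff_gcd_eq_one]
  set d := Int.gcd (Y a j) (X a t) with hd
  have hdY : (d : ℤ) ∣ Y a j := Int.gcd_dvd_left ..
  have hdX : (d : ℤ) ∣ X a t := Int.gcd_dvd_right ..
  have h1 : (d : ℤ) ∣ Y a (j * m) := by
    have h2 := (mod_Y a j 0 m).2
    rw [Y_zero, mul_zero, sub_zero, zero_add, mul_comm] at h2
    exact hdY.trans h2
  have h2 : (d : ℤ) ∣ Y a (v * (2 * t)) := by
    have h3 := (mod_Y a (2 * t) 0 v).2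
    rw [Y_zero, mul_zero, sub_zero, zero_add] at h3
    refine Dvd.dvd.trans ?_ h3
    rw [Y_two_mul]
    exact dvd_mul_of_dvd_right (dvd_mul_of_dvd_left hdX _) _
  have h3 : (d : ℤ) ∣ X a (v * (2 * t)) := by
    rw [hmd, Y_add, X_one, Y_one, mul_one] at h1
    exact (dvd_add_left (dvd_mul_of_dvd_left h2 _)).1 h1
  have h4 : (d : ℤ) ∣ 1 := by
    rw [← pell a (v * (2 * t))]
    exact dvd_sub (dvd_pow h3 (by norm_num)) (dvd_mul_of_dvd_right (dvd_pow h2 (by norm_num)) _)
  have h5 : d ∣ 1 := by exact_mod_cast h4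
  exact Nat.dvd_one.1 h5

end Pool.Agent.Helper65.KG
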