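import Pool.Agent.Helper65.KG.Defs
import Pool.Agent.Helper65.KG.Cg

/-!
Project KG, module JE: the class determines j (see the header of the stub: Pell.eq_pell).
-/

namespace Pool.Agent.Helper65.KG

open Pool.Agent.Helper20 Pool.Agent.Helper20.MC

private theorem JE_comb {a t j : ℕ} {x y : ℤ√(DD a)} (hx : LB a t j x) (hy : LB a t j y)
    (m n : ℤ) : LB a t j ((m : ℤ√(DD a)) * x + (n : ℤ√(DD a)) * y) := by
  obtain ⟨h1, h2⟩ := hx
  obtain ⟨h3, h4⟩ := hy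
  rw [B_eq] at h2 h4
  refine ⟨?_, ?_⟩
  · have e : ((m : ℤ√(DD a)) * x + (n : ℤ√(DD a)) * y).im = m * x.im + n * y.im := by
      simp
    rw [e]
    exact dvd_add (dvd_mul_of_dvd_right h1 _) (dvd_mul_of_dvd_right h3 _)
  · rw [B_eq]
    have e : X a j * ((m : ℤ√(DD a)) * x + (n : ℤ√(DD a)) * y).im -
        Y a j * ((m : ℤ√(DD a)) * x + (n : ℤ√(DD a)) * y).re =
        m * (X a j * x.im - Y a j * x.re) + n * (X a j * y.im - Y a j * y.re) := by
      simp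
      ring
    rw [e]
    exact dvd_add (dvd_mul_of_dvd_right h2 _) (dvd_mul_of_dvd_right h4 _)

private theorem JE_xn {a : ℕ} (a1 : 1 < a) (n : ℕ) :
    ((Pell.xn a1 n : ℕ) : ℤ) = X a n ∧ ((Pell.yn a1 n : ℕ) : ℤ) = Y a n := by
  have hd : ((a * a - 1 : ℕ) : ℤ) = DD a := by
    rw [Nat.cast_sub (by nlinarith)]
    simp [DD]
    ring
  induction n with
  | zero => simp [X_zero, Y_zero]
  | succ n ih =>
    have e1 : Pell.xn a1 (n + 1) = Pell.xn a1 n * a + (a * a - 1) * Pell.yn a1 n :=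
      Pell.xn_succ a1 n
    rw [e1, Pell.yn_succ, X_succ, Y_succ]
    push_cast [hd]
    rw [ih.1, ih.2]
    constructor <;> ring

private theorem JE_norm {a : ℕ} (ha : 2 ≤ a) {μ ν : ℤ√(DD a)} (hu : μ * ν = 1) :
    μ.re ^ 2 - DD a * μ.im ^ 2 = 1 := by
  have h1 : μ.norm * ν.norm = 1 := by rw [← Zsqrtd.norm_mul, hu, Zsqrtd.norm_one]
  have h2 : μ.norm = 1 ∨ μ.norm = -1 := Int.isUnit_iff.1 (IsUnit.of_mul_eq_one _ h1)
  have h3 : μ.norm = μ.re ^ 2 - DD a * μ.im ^ 2 := by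
    rw [Zsqrtd.norm_def]
    ring
  rcases h2 with h | h
  · rw [← h3, h]
  · exfalso
    rw [h3] at h
    have h4 : (μ.re ^ 2 - ((a : ℤ) ^ 2 - 1) * μ.im ^ 2) % 4 = (-1) % 4 := by
      have : μ.re ^ 2 - ((a : ℤ) ^ 2 - 1) * μ.im ^ 2 = -1 := h
      rw [this]
    obtain ⟨x, hx⟩ : ∃ x : ℤ, x = μ.re := ⟨_, rfl⟩
    obtain ⟨y, hy⟩ : ∃ y : ℤ, y = μ.im := ⟨_, rfl⟩
    obtain ⟨b, hb⟩ : ∃ b : ℤ, b = (a : ℤ) := ⟨_, rfl⟩
    rw [← hx, ← hy, ← hb] at h4
    have key : ∀ x y b : ZMod 4, x ^ 2 - (b ^ 2 - 1) * y ^ 2 ≠ -1 := by decide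
    apply key (x : ZMod 4) (y : ZMod 4) (b : ZMod 4)
    have h5 : ((x ^ 2 - (b ^ 2 - 1) * y ^ 2 : ℤ) : ZMod 4) = ((-1 : ℤ) : ZMod 4) := by
      rw [ZMod.intCast_eq_intCast_iff_dvd_sub]
      have := Int.emod_emod_of_dvd (x ^ 2 - (b ^ 2 - 1) * y ^ 2) (dvd_refl (4 : ℤ))
      omega
    push_cast at h5
    exact h5

theorem j_eq {a t j j' : ℕ} (ha : 2 ≤ a) (hj : j < t) (hj' : j' < t) {p p' : ℤ × ℤ} {σ σ' : ℤ}
    {y1 y2 z1 z2 : ℤ√(DD a)} (h : Rel a t j p σ y1 y2) (h' : Rel a t j' p' σ' z1 z2)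
    {μ ν : ℤ√(DD a)} (hu : μ * ν = 1) (h1 : z1 = μ * y1) (h2 : z2 = μ * y2) : j = j' := by
  have ht : 1 ≤ t := by omega
  obtain ⟨-, -, -, -, -, hspan⟩ := h
  obtain ⟨-, -, -, hz1, hz2, -⟩ := h'
  have key : ∀ x : ℤ√(DD a), LB a t j x → LB a t j' (μ * x) := by
    intro x hx
    obtain ⟨m, n, rfl⟩ := hspan x hx
    have e : μ * ((m : ℤ√(DD a)) * y1 + (n : ℤ√(DD a)) * y2) =
        (m : ℤ√(DD a)) * z1 + (n : ℤ√(DD a)) * z2 := by
      rw [h1, h2]
      ring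
    rw [e]
    exact JE_comb hz1 hz2 m n
  have hXY := XY_coprime a t
  have hnorm := JE_norm ha hu
  -- first condition
  have c1 : Y a t ∣ μ.im := by
    have h3 := (key ⟨X a t, 0⟩ ⟨by simp, by rw [B_eq]; simp⟩).1
    have e : (μ * (⟨X a t, 0⟩ : ℤ√(DD a))).im = X a t * μ.im := by
      rw [Zsqrtd.im_mul]
      ring
    rw [e] at h3
    exact hXY.symm.dvd_of_dvd_mul_left h3
  -- second condition
  have c2 : X a t ∣ μ.re * (X a j' * Y a j - Y a j' * X a j) +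
      μ.im * (X a j' * X a j - DD a * (Y a j' * Y a j)) := by
    have h3 := (key ⟨Y a t * X a j, Y a t * Y a j⟩ ⟨Dvd.intro _ rfl, by
      rw [B_eq]
      exact ⟨0, by ring⟩⟩).2
    rw [B_eq] at h3
    have e : X a j' * (μ * (⟨Y a t * X a j, Y a t * Y a j⟩ : ℤ√(DD a))).im -
        Y a j' * (μ * (⟨Y a t * X a j, Y a t * Y a j⟩ : ℤ√(DD a))).re =
        Y a t * (μ.re * (X a j' * Y a j - Y a j' * X a j) +
          μ.im * (X a j' * X a j - DD a * (Y a j' * Y a j))) := by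
      rw [Zsqrtd.im_mul, Zsqrtd.re_mul]
      ring
    rw [e] at h3
    exact hXY.dvd_of_dvd_mul_left h3
  -- the unit is a power of `e`
  have a1 : 1 < a := by omega
  obtain ⟨i, hi1, hi2⟩ : ∃ i, μ.re.natAbs = Pell.xn a1 i ∧ μ.im.natAbs = Pell.yn a1 i := by
    have hd : ((a * a - 1 : ℕ) : ℤ) = DD a := by
      rw [Nat.cast_sub (by nlinarith)]
      simp [DD]
      ring
    have h3 : ((μ.re.natAbs : ℕ) : ℤ) * μ.re.natAbs = μ.re ^ 2 := by
      rw [← Int.natAbs_sq μ.re]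
      ring
    have h4 : ((μ.im.natAbs : ℕ) : ℤ) * μ.im.natAbs = μ.im ^ 2 := by
      rw [← Int.natAbs_sq μ.im]
      ring
    have h5 : μ.re.natAbs * μ.re.natAbs = (a * a - 1) * μ.im.natAbs * μ.im.natAbs + 1 := by
      zify
      rw [hd]
      have : (DD a) * |μ.im| * |μ.im| = DD a * μ.im ^ 2 := by
        rw [mul_assoc, abs_mul_abs_self]
        ring
      rw [this, abs_mul_abs_self]
      linarith
    have h6 : μ.re.natAbs * μ.re.natAbs - (a * a - 1) * μ.im.natAbs * μ.im.natAbs = 1 := by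
      omega
    exact Pell.eq_pell a1 h6
  obtain ⟨hxi, hyi⟩ := JE_xn a1 i
  rw [← hi1] at hxi
  rw [← hi2] at hyi
  -- `t` divides `i`
  have hti : t ∣ i := by
    rw [← Pell.y_dvd_iff a1]
    have h3 : ((Pell.yn a1 t : ℕ) : ℤ) ∣ ((Pell.yn a1 i : ℕ) : ℤ) := by
      rw [(JE_xn a1 t).2, (JE_xn a1 i).2, ← hyi]
      exact Int.dvd_natAbs.2 c1
    exact_mod_cast h3
  obtain ⟨q, rfl⟩ := hti
  have sre : μ.re = X a (t * q) ∨ μ.re = - X a (t * q) := by
    rcases Int.natAbs_eq μ.re with h3 | h3 <;> [left; right] <;> rw [h3, hxi]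
  have sim : μ.im = Y a (t * q) ∨ μ.im = - Y a (t * q) := by
    rcases Int.natAbs_eq μ.im with h3 | h3 <;> [left; right] <;> rw [h3, hyi]
  set S := X a j' * Y a j - Y a j' * X a j with hS
  set C := X a j' * X a j - DD a * (Y a j' * Y a j) with hC
  -- sizes of `C` and `S`
  have hXmono := X_strictMono ha
  have hCS : (∃ δ : ℕ, δ < t ∧ C = X a δ ∧ (S = Y a δ ∨ S = - Y a δ) ∧ (δ = 0 → j = j')) := by
    rcases le_total j' j with h3 | h3
    · refine ⟨j - j', by omega, ?_, Or.inl ?_, by omega⟩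
      · rw [X_sub h3, hC]; ring
      · rw [Y_sub h3, hS]; ring
    · refine ⟨j' - j, by omega, ?_, Or.inr ?_, by omega⟩
      · rw [X_sub h3, hC]
      · rw [Y_sub h3, hS]; ring
  obtain ⟨δ, hδ, hCδ, hSδ, hδ0⟩ := hCS
  have hnC : ¬ X a t ∣ C := by
    intro hd
    have h3 := Int.le_of_dvd (by rw [hCδ]; exact X_pos ha δ) hd
    rw [hCδ] at h3
    exact absurd (hXmono hδ) (not_lt.2 h3)
  have hSd : X a t ∣ S → j = j' := by
    intro hd
    apply hδ0
    by_contra hne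
    have h3 : X a t ∣ Y a δ := by
      rcases hSδ with h4 | h4
      · rwa [h4] at hd
      · rw [h4] at hd
        exact (dvd_neg.1 hd)
    have h5 := Int.le_of_dvd (Y_pos ha (by omega)) h3
    have h6 := Y_lt_X ha δ
    have h7 := hXmono hδ
    linarith
  -- reduction modulo `X t`
  rcases Nat.even_or_odd' q with ⟨m, rfl | rfl⟩
  · apply hSd
    obtain ⟨s, hs, hs1, hs2⟩ := mod_X_even a t 0 m
    rw [X_zero, mul_one, show 0 + 2 * m * t = t * (2 * m) by ring] at hs1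
    rw [Y_zero, mul_zero, sub_zero, show 0 + 2 * m * t = t * (2 * m) by ring] at hs2
    have h3 : X a t ∣ μ.im := by
      rcases sim with h4 | h4 <;> rw [h4]
      · exact hs2
      · exact (dvd_neg.2 hs2)
    have h4 : X a t ∣ μ.re * S := by
      have := dvd_sub c2 (dvd_mul_of_dvd_left h3 C)
      rwa [add_sub_cancel_right] at this
    have h5 : IsCoprime (X a t) μ.re := by
      have h6 : X a t ∣ μ.re ^ 2 - 1 := by
        have : μ.re ^ 2 - 1 = DD a * μ.im * μ.im := by linarith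
        rw [this]
        exact dvd_mul_of_dvd_right h3 _
      obtain ⟨w, hw⟩ := h6
      exact ⟨-w, μ.re, by linarith⟩
    exact h5.dvd_of_dvd_mul_left h4
  · exfalso
    obtain ⟨s, hs, hs1, hs2⟩ := mod_X_odd a t 0 m
    rw [Y_zero, mul_zero, mul_zero, mul_zero, sub_zero,
      show 0 + (2 * m + 1) * t = t * (2 * m + 1) by ring] at hs1
    have h3 : X a t ∣ μ.re := by
      rcases sre with h4 | h4 <;> rw [h4]
      · exact hs1
      · exact (dvd_neg.2 hs1)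
    have h4 : X a t ∣ μ.im * C := by
      have := dvd_sub c2 (dvd_mul_of_dvd_left h3 S)
      rwa [add_sub_cancel_left] at this
    have h5 : IsCoprime (X a t) μ.im := by
      obtain ⟨w, hw⟩ := h3
      exact ⟨w * μ.re, -(DD a * μ.im), by rw [hw] at hnorm ⊢; linarith⟩
    exact hnC (h5.dvd_of_dvd_mul_left h4)

end Pool.Agent.Helper65.KG
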