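import Pool.Agent.Helper65.KG.Un

/-!
Project KG, module PL: lower bound for the period.  Rel.iter for n and eq_unit (with
p' = nx^[n] p = p) give z = μ y, μ a unit of norm ± 1, |ph μ| < 1,
1 ≤ M^n |ph μ|, so |ps μ| = 1/|ph μ| ≤ M^n.  μ.im ≠ 0: otherwise μ.re² = 1, |ph μ| = 1.
Y_t ∣ μ.im: X_t = m y1 + n y2 (X_t ∈ LB), μ X_t = m z1 + n z2 ∈ LB, so
Y_t ∣ X_t μ.im, XY_coprime.  Hence 2 √D Y_t ≤ 2 √D |μ.im| = |ph μ - ps μ| ≤ 1 + M^n ≤ 2 M^n.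
-/

namespace Pool.Agent.Helper65.KG

open Pool.Agent.Helper20 Pool.Agent.Helper20.MC

private theorem PL_dvd {a t j : ℕ} {p : ℤ × ℤ} {σ σ' : ℤ} {y1 y2 z1 z2 μ : ℤ√(DD a)}
    (h : Rel a t j p σ y1 y2) (h' : Rel a t j p σ' z1 z2) (h1 : z1 = μ * y1)
    (h2 : z2 = μ * y2) : Y a t ∣ μ.im := by
  obtain ⟨_, _, _, _, _, hsp⟩ := h
  obtain ⟨_, _, _, ⟨hz1, _⟩, ⟨hz2, _⟩, _⟩ := h'
  have hX : LB a t j ((X a t : ℤ) : ℤ√(DD a)) := by
    refine ⟨by simp, ?_⟩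
    rw [B_eq]
    simp
  obtain ⟨m, n, hmn⟩ := hsp _ hX
  have h3 : μ * ((X a t : ℤ) : ℤ√(DD a)) = (m : ℤ√(DD a)) * z1 + (n : ℤ√(DD a)) * z2 := by
    rw [hmn, h1, h2]
    ring
  have h4 := congrArg Zsqrtd.im h3
  rw [Zsqrtd.im_add, Zsqrtd.im_mul, Zsqrtd.im_mul, Zsqrtd.im_mul] at h4
  simp only [Zsqrtd.re_intCast, Zsqrtd.im_intCast, mul_zero, zero_mul, add_zero, zero_add] at h4
  have h5 : Y a t ∣ μ.im * X a t := by
    rw [h4]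
    exact dvd_add (Dvd.dvd.mul_left hz1 m) (Dvd.dvd.mul_left hz2 n)
  exact (XY_coprime a t).symm.dvd_of_dvd_mul_right h5

theorem period_lb {a t j : ℕ} (ha : 2 ≤ a) (ht : 1 ≤ t) {p : ℤ × ℤ} (hp : p ∈ Red a (G a t))
    {σ : ℤ} {y1 y2 : ℤ√(DD a)} (h : Rel a t j p σ y1 y2) {M : ℝ} (hM : 1 ≤ M)
    (hb : ∀ i : ℕ, xv a (G a t) ((nx a (G a t))^[i] p) ≤ M) {n : ℕ} (hn : 1 ≤ n)
    (he : (nx a (G a t))^[n] p = p) : (Y a t : ℝ) ≤ M ^ n := by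
  obtain ⟨-, σ', z1, z2, hR, hlt, hle⟩ := Rel.iter ha ht hp h n
  rw [he] at hR
  obtain ⟨-, μ, ν, hμν, hz1, hz2⟩ := eq_unit ha ht ht hp hp h hR rfl
  have hlt' := hlt hn
  have hle' := hle M hM hb
  obtain ⟨hy0, -⟩ := Rel.ph_eq ha ht hp h
  have hy : 0 < |ph a y1| := abs_pos.2 (ph_ne ha hy0)
  have hz : |ph a z1| = |ph a μ| * |ph a y1| := by
    rw [hz1, ph_mul ha, abs_mul]
  have h1 : |ph a μ| < 1 := by
    rw [hz] at hlt'
    by_contra hc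
    push Not at hc
    nlinarith
  have h2 : 1 ≤ M ^ n * |ph a μ| := by
    rw [hz] at hle'
    by_contra hc
    push Not at hc
    have h3 := mul_lt_mul_of_pos_right hc hy
    linarith
  have hnorm : μ.norm = 1 ∨ μ.norm = -1 := by
    have h1 : μ.norm * ν.norm = 1 := by
      rw [← Zsqrtd.norm_mul, hμν, Zsqrtd.norm_one]
    exact Int.eq_one_or_neg_one_of_mul_eq_one h1
  have hprod : |ph a μ| * |ps a μ| = 1 := by
    rw [← abs_mul, ph_mul_ps ha]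
    rcases hnorm with h | h <;> rw [h] <;> norm_num
  have hMn : (0 : ℝ) < M ^ n := pow_pos (by linarith) n
  have hM1 : (1 : ℝ) ≤ M ^ n := one_le_pow₀ hM
  have hps : |ps a μ| ≤ M ^ n := by
    have h3 : |ps a μ| * 1 ≤ |ps a μ| * (M ^ n * |ph a μ|) :=
      mul_le_mul_of_nonneg_left h2 (abs_nonneg _)
    have h4 : |ps a μ| * (M ^ n * |ph a μ|) = M ^ n * (|ph a μ| * |ps a μ|) := by ring
    rw [h4, hprod] at h3
    linarith
  have him : μ.im ≠ 0 := by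
    intro h0
    have h3 : |ph a μ| = |ps a μ| := by
      unfold ph ps
      rw [h0]
      simp
    rw [← h3] at hprod
    nlinarith [abs_nonneg (ph a μ)]
  have hdvd := PL_dvd h hR hz1 hz2
  have hY : Y a t ≤ |μ.im| := Int.le_of_dvd (abs_pos.2 him) ((dvd_abs _ _).2 hdvd)
  have hYr : (Y a t : ℝ) ≤ |(μ.im : ℝ)| := by exact_mod_cast hY
  have hs : 1 ≤ MC.sq a := by
    have h3 := sq_mul_self ha
    have h4 : (3 : ℝ) ≤ (DD a : ℝ) := by exact_mod_cast DD_pos ha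
    have h5 := sq_pos ha
    nlinarith
  have hdiff : 2 * MC.sq a * |(μ.im : ℝ)| ≤ 1 + M ^ n := by
    have h3 : ph a μ - ps a μ = 2 * MC.sq a * (μ.im : ℝ) := by
      unfold ph ps
      ring
    have h4 : |ph a μ - ps a μ| = 2 * MC.sq a * |(μ.im : ℝ)| := by
      rw [h3, abs_mul, abs_of_pos (by linarith : (0 : ℝ) < 2 * MC.sq a)]
    rw [← h4]
    calc |ph a μ - ps a μ| ≤ |ph a μ| + |ps a μ| := abs_sub _ _
      _ ≤ 1 + M ^ n := by linarith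
  have h0 : (0 : ℝ) ≤ |(μ.im : ℝ)| := abs_nonneg _
  nlinarith

end Pool.Agent.Helper65.KG
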