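import Pool.Agent.Helper65.KG.Cg
import Pool.Agent.Helper20.MC.CF1

/-!
Project KG, module St: the starting point.  j odd, j < t, prime to t.  By Y_coprime_X there
is κ with X_t ∣ κ Y_j - X_j Y_t and 0 ≤ κ < X_t (take a residue); κ ≠ 0, otherwise
X_t ∣ X_j Y_t, X_t ∣ X_j (XY_coprime), but 0 < X_j < X_t.
y1 = ⟨X_t, 0⟩, y2 = ⟨κ, Y_t⟩, σ = 1, p = (2 κ X_t, 2 X_t²):
2 y2 star y1 = ⟨2 κ X_t, 2 X_t Y_t⟩, Y (2t) = 2 X_t Y_t.  p ∈ Red a (G a t):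
Q ∣ D g² - P² = 4 X_t² (D Y_t² - κ²) — note Q = 2 X_t², fine; with s = Y_t √D:
s² = X_t² - 1, so X_t - 1 < s < X_t (X_t ≥ 2), bb = 2 X_t s; P < bb iff κ < s,
bb - P < Q iff s - κ < X_t, Q < bb + P iff X_t < s + κ: all true as 1 ≤ κ ≤ X_t - 1.
Spanning: x.im = Y_t u, X_t ∣ X_j Y_t u - Y_j x.re, so X_t ∣ Y_j (κ u - x.re), so
x.re = κ u + m X_t and x = m y1 + u y2.  LB y1: B_j y1 = -Y_j X_t.
-/

namespace Pool.Agent.Helper65.KG

open Pool.Agent.Helper20 Pool.Agent.Helper20.MC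

theorem start {a t j : ℕ} (ha : 2 ≤ a) (hj : Odd j) (hjt : j < t) (hc : Nat.Coprime j t) :
    ∃ (p : ℤ × ℤ) (y1 y2 : ℤ√(DD a)), p ∈ Red a (G a t) ∧ Rel a t j p 1 y1 y2 := by
  have ht : 1 ≤ t := by omega
  have hXt := X_pos ha t
  have hXj := X_pos ha j
  have hYt := Y_pos ha ht
  have hlt : X a j < X a t := X_strictMono ha hjt
  have hX1 : 2 ≤ X a t := by linarith
  have hcop : IsCoprime (Y a j) (X a t) := Y_coprime_X ha hj hc
  obtain ⟨u, v, huv⟩ := hcop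
  obtain ⟨κ, hκ⟩ : ∃ κ : ℤ, κ = (u * (X a j * Y a t)) % X a t := ⟨_, rfl⟩
  have hκ0 : 0 ≤ κ := hκ ▸ Int.emod_nonneg _ hXt.ne'
  have hκ1 : κ < X a t := hκ ▸ Int.emod_lt_of_pos _ hXt
  have hκd : X a t ∣ κ * Y a j - X a j * Y a t := by
    obtain ⟨q, hq⟩ : ∃ q : ℤ, q = (u * (X a j * Y a t)) / X a t := ⟨_, rfl⟩
    have h1 : X a t * q + κ = u * (X a j * Y a t) := by
      rw [hκ, hq]
      exact Int.mul_ediv_add_emod _ _
    refine ⟨-(q * Y a j) - v * (X a j * Y a t), ?_⟩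
    linear_combination (Y a j) * h1 + (X a j * Y a t) * huv
  have hκne : κ ≠ 0 := by
    rintro rfl
    rw [zero_mul, zero_sub, dvd_neg] at hκd
    have h1 : X a t ∣ X a j := (XY_coprime a t).dvd_of_dvd_mul_right hκd
    have h2 := Int.le_of_dvd hXj h1
    linarith
  have hκ2 : 1 ≤ κ := by omega
  -- the real numbers
  have hs0 := sq_pos ha
  have hs1 := sq_mul_self ha
  have hYr : (0 : ℝ) < (Y a t : ℝ) := by exact_mod_cast hYt
  have hXr : (2 : ℝ) ≤ (X a t : ℝ) := by exact_mod_cast hX1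
  have hκr : (1 : ℝ) ≤ (κ : ℝ) := by exact_mod_cast hκ2
  have hκr2 : (κ : ℝ) + 1 ≤ (X a t : ℝ) := by exact_mod_cast hκ1
  have hpr : (X a t : ℝ) ^ 2 - (DD a : ℝ) * (Y a t : ℝ) ^ 2 = 1 := by exact_mod_cast pell a t
  obtain ⟨s, hs⟩ : ∃ s : ℝ, s = (Y a t : ℝ) * MC.sq a := ⟨_, rfl⟩
  have hsp : 0 < s := hs ▸ mul_pos hYr hs0
  have hss : s * s = (X a t : ℝ) ^ 2 - 1 := by
    rw [hs]
    linear_combination ((Y a t : ℝ) ^ 2) * hs1 - hpr
  have hsX : s < (X a t : ℝ) := by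
    by_contra hcon
    push Not at hcon
    nlinarith
  have hXs : (X a t : ℝ) - 1 < s := by
    by_contra hcon
    push Not at hcon
    nlinarith
  have hG : ((G a t : ℕ) : ℝ) = 2 * ((X a t : ℝ) * (Y a t : ℝ)) := by
    have h1 : ((G a t : ℕ) : ℤ) = 2 * (X a t * Y a t) := by rw [G_cast ha, Y_two_mul]
    exact_mod_cast h1
  have hbb : bb a (G a t) = 2 * (X a t : ℝ) * s := by
    unfold bb
    rw [hG, hs]
    ring
  refine ⟨(2 * κ * X a t, 2 * X a t ^ 2), ⟨X a t, 0⟩, ⟨κ, Y a t⟩, ⟨?_, ?_, ?_, ?_, ?_⟩,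
    Or.inl rfl, ?_, ?_, ⟨?_, ?_⟩, ⟨?_, ?_⟩, ?_⟩
  · show 0 < 2 * X a t ^ 2
    positivity
  · show 2 * X a t ^ 2 ∣ DD a * (G a t : ℤ) ^ 2 - (2 * κ * X a t) ^ 2
    rw [G_cast ha, Y_two_mul]
    exact ⟨2 * (DD a * Y a t ^ 2 - κ ^ 2), by ring⟩
  · show ((2 * κ * X a t : ℤ) : ℝ) < bb a (G a t)
    rw [hbb]
    push_cast
    nlinarith
  · show bb a (G a t) - ((2 * κ * X a t : ℤ) : ℝ) < ((2 * X a t ^ 2 : ℤ) : ℝ)
    rw [hbb]
    push_cast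
    nlinarith
  · show ((2 * X a t ^ 2 : ℤ) : ℝ) < bb a (G a t) + ((2 * κ * X a t : ℤ) : ℝ)
    rw [hbb]
    push_cast
    nlinarith
  · show 2 * X a t ^ 2 = 2 * 1 * (⟨X a t, 0⟩ : ℤ√(DD a)).norm
    rw [Zsqrtd.norm_def]
    ring
  · apply Zsqrtd.ext
    · simp
      ring
    · simp [Y_two_mul]
      ring
  · exact dvd_zero _
  · rw [B_eq]
    exact ⟨-Y a j, by ring⟩
  · exact dvd_refl _
  · rw [B_eq]
    obtain ⟨w, hw⟩ := hκd
    exact ⟨-w, by linear_combination -hw⟩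
  · rintro x ⟨⟨w, hw⟩, hx⟩
    rw [B_eq, hw] at hx
    have h1 : X a t ∣ Y a j * (κ * w - x.re) := by
      have h2 := (hκd.mul_right w).add hx
      have h3 : (κ * Y a j - X a j * Y a t) * w + (X a j * (Y a t * w) - Y a j * x.re) =
          Y a j * (κ * w - x.re) := by ring
      rwa [h3] at h2
    have h4 : X a t ∣ κ * w - x.re :=
      (Y_coprime_X ha hj hc).symm.dvd_of_dvd_mul_left h1
    obtain ⟨m, hm⟩ := h4
    refine ⟨-m, w, ?_⟩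
    apply Zsqrtd.ext
    · simp
      linear_combination -hm
    · simp
      linear_combination hw

end Pool.Agent.Helper65.KG
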