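import Pool.Agent.Helper65.KG.MN
import Pool.Agent.Helper65.KG.PL
import Pool.Agent.Helper65.KG.St
import Pool.Agent.Helper65.KG.JE
import Pool.Agent.Helper65.KG.CP
import Pool.Agent.Helper20.MC.CF2

/-!
Project KG: assembly.
-/

namespace Pool.Agent.Helper65.KG

open Pool.Agent.Helper20 Pool.Agent.Helper20.MC

theorem Asm_pell {d : ℕ} (hd : ¬ IsSquare d) :
    ∃ a m : ℕ, 2 ≤ a ∧ 1 ≤ m ∧ (a : ℝ) ^ 2 - 1 = d * (m : ℝ) ^ 2 := by
  have hd0 : 0 < d := Nat.pos_of_ne_zero (fun h => hd (h ▸ ⟨0, rfl⟩))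
  have hd' : ¬ IsSquare (d : ℤ) := by
    intro h
    exact hd (Int.isSquare_natCast_iff.mp h)
  obtain ⟨x, y, h1, h2⟩ := Pell.exists_of_not_isSquare (by exact_mod_cast hd0) hd'
  refine ⟨x.natAbs, y.natAbs, ?_, Int.natAbs_pos.mpr h2, ?_⟩
  · by_contra hc
    have h3 : x.natAbs ≤ 1 := by omega
    have h4 : x ^ 2 ≤ 1 := by
      have h5 := Int.natAbs_sq x
      have h6 : x.natAbs ^ 2 ≤ 1 := by simpa using Nat.pow_le_pow_left h3 2
      rw [← Int.natAbs_sq x]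
      exact_mod_cast h6
    have h5 : 0 < (d : ℤ) * y ^ 2 := by positivity
    linarith
  · have h3 : ((x.natAbs : ℕ) : ℝ) ^ 2 = (x : ℝ) ^ 2 := by
      rw [← Int.cast_natCast (R := ℝ), Int.natCast_natAbs, Int.cast_abs, sq_abs]
    have h4 : ((y.natAbs : ℕ) : ℝ) ^ 2 = (y : ℝ) ^ 2 := by
      rw [← Int.cast_natCast (R := ℝ), Int.natCast_natAbs, Int.cast_abs, sq_abs]
    rw [h3, h4]
    have h5 : ((x ^ 2 - d * y ^ 2 : ℤ) : ℝ) = 1 := by exact_mod_cast h1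
    push_cast at h5
    linarith

theorem Asm_iter {a g : ℕ} (ha : 2 ≤ a) (hg : 1 ≤ g) {p : ℤ × ℤ} (hp : p ∈ Red a g) (k : ℕ) :
    (nx a g)^[k] p ∈ Red a g ∧ gm^[k] (xv a g p) = xv a g ((nx a g)^[k] p) := by
  induction k with
  | zero => exact ⟨hp, rfl⟩
  | succ k ih =>
    rw [Function.iterate_succ_apply', Function.iterate_succ_apply', ih.2]
    exact ⟨nx_mem ha hg ih.1, xv_nx ha hg ih.1⟩

theorem Asm_X_le {a : ℕ} (ha : 2 ≤ a) (n : ℕ) : X a n ≤ (2 * (a : ℤ)) ^ n := by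
  have h0 : (2 : ℤ) ≤ a := by exact_mod_cast ha
  induction n with
  | zero => simp [X_zero]
  | succ n ih =>
    have h1 := X_pos ha n
    have h2 := Y_nonneg ha n
    have h3 := pell a n
    have hD := DD_pos ha
    have hD2 : DD a ≤ (a : ℤ) ^ 2 := by simp [DD]
    have h4 : DD a * Y a n ≤ a * X a n := by
      have h5 : 0 ≤ DD a * Y a n := mul_nonneg (by linarith) h2
      have h6 : 0 ≤ (a : ℤ) * X a n := mul_nonneg (by linarith) h1.le
      apply abs_le_of_sq_le_sq' _ h6 |>.2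
      have h7 : DD a * Y a n ^ 2 ≤ X a n ^ 2 := by linarith
      calc (DD a * Y a n) ^ 2 = DD a * (DD a * Y a n ^ 2) := by ring
        _ ≤ DD a * X a n ^ 2 := mul_le_mul_of_nonneg_left h7 (by linarith)
        _ ≤ (a : ℤ) ^ 2 * X a n ^ 2 := mul_le_mul_of_nonneg_right hD2 (by positivity)
        _ = ((a : ℤ) * X a n) ^ 2 := by ring
    rw [X_succ, pow_succ]
    nlinarith

theorem Asm_fib (n : ℕ) : 2 ^ (n / 2) ≤ Nat.fib (n + 1) := by
  have key : ∀ k : ℕ, 2 ^ k ≤ Nat.fib (2 * k + 1) ∧ 2 ^ k ≤ Nat.fib (2 * k + 2) := by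
    intro k
    induction k with
    | zero => simp
    | succ k ih =>
      obtain ⟨h1, h2⟩ := ih
      have e1 : Nat.fib (2 * (k + 1) + 1) = Nat.fib (2 * k + 1) + Nat.fib (2 * k + 2) := by
        rw [show 2 * (k + 1) + 1 = (2 * k + 1) + 2 by ring, Nat.fib_add_two]
      have e2 : Nat.fib (2 * (k + 1) + 2) = Nat.fib (2 * k + 2) + Nat.fib (2 * k + 3) := by
        rw [show 2 * (k + 1) + 2 = (2 * k + 2) + 2 by ring, Nat.fib_add_two]
      have e3 : Nat.fib (2 * k + 3) = Nat.fib (2 * k + 1) + Nat.fib (2 * k + 2) := by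
        rw [show 2 * k + 3 = (2 * k + 1) + 2 by ring, Nat.fib_add_two]
      rw [e1, e2, pow_succ]
      omega
  rcases Nat.even_or_odd' n with ⟨k, rfl | rfl⟩
  · rw [show 2 * k / 2 = k by omega]
    exact (key k).1
  · rw [show (2 * k + 1) / 2 = k by omega]
    exact (key k).2

/-- the good points of level `t` -/
theorem Asm_level {a : ℕ} (ha : 2 ≤ a) : ∃ A₀ b C : ℕ, 1 ≤ A₀ ∧ 1 ≤ b ∧ 1 ≤ C ∧ A₀ ≤ 2 ^ b ∧
    ∀ t j : ℕ, j < t → Odd j → Nat.Coprime j t →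
      ∃ p : ℤ × ℤ, p ∈ Red a (G a t) ∧ (∃ (σ : ℤ) (y1 y2 : ℤ√(DD a)), Rel a t j p σ y1 y2) ∧
        (∀ i : ℕ, xv a (G a t) ((nx a (G a t))^[i] p) ≤ A₀) ∧
        ∀ i : ℕ, ∃ n : ℕ, 1 ≤ n ∧ n ≤ C * t ∧
          (nx a (G a t))^[n] ((nx a (G a t))^[i] p) = (nx a (G a t))^[i] p := by
  obtain ⟨c, hc, hmin⟩ := min_norm ha
  obtain ⟨A₀, hA₀⟩ := exists_nat_ge (max 1 (2 * MC.sq a / c))
  have hA1 : (1 : ℝ) ≤ A₀ := le_trans (le_max_left _ _) hA₀
  have hA2 : 2 * MC.sq a / c ≤ A₀ := le_trans (le_max_right _ _) hA₀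
  refine ⟨A₀, A₀, 4 * (2 * a) + 3, by exact_mod_cast hA1, by exact_mod_cast hA1, by omega,
    Nat.lt_two_pow_self.le, fun t j hjt hj hcop => ?_⟩
  have ht : 1 ≤ t := by omega
  have hg : 1 ≤ G a t := G_pos ha ht
  obtain ⟨p, y1, y2, hp, hrel⟩ := start ha hj hjt hcop
  refine ⟨p, hp, ⟨1, y1, y2, hrel⟩, fun i => ?_, fun i => ?_⟩
  · obtain ⟨hpi, σ', z1, z2, hri, -, -⟩ := Rel.iter ha ht hp hrel i
    refine le_trans (Rel.bound ha ht hpi hri hc ?_) hA2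
    exact hmin t j z1 ht hcop (Rel.ph_eq ha ht hpi hri).1 (Or.inl hri.2.2.2.1)
  · set q := (nx a (G a t))^[i] p with hq
    have hqR : q ∈ Red a (G a t) := (Asm_iter ha hg hp i).1
    have hX : 0 < X a (2 * t) := X_pos ha _
    obtain ⟨n, hn1, hn2, hn3⟩ := red_period (a := a) (g := G a t) (t := (X a (2 * t)).toNat) ha hg
      (by
        rw [Int.toNat_of_nonneg hX.le, G_cast ha]
        have := pell a (2 * t)
        linarith) hqR
    refine ⟨n, hn1, ?_, ?_⟩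
    · have h1 : 2 ^ (n / 2) ≤ 2 * (X a (2 * t)).toNat := le_trans (Asm_fib n) hn2
      have h2 : (X a (2 * t)).toNat ≤ (2 * a) ^ (2 * t) := by
        have := Asm_X_le ha (2 * t)
        zify
        rw [Int.toNat_of_nonneg hX.le]
        exact this
      have h3 : (2 * a) ^ (2 * t) ≤ 2 ^ (2 * a * (2 * t)) := by
        rw [pow_mul 2 (2 * a) (2 * t)]
        exact Nat.pow_le_pow_left Nat.lt_two_pow_self.le _
      have h4 : 2 ^ (n / 2) ≤ 2 ^ (2 * a * (2 * t) + 1) := by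
        rw [pow_succ]
        omega
      have h5 : n / 2 ≤ 2 * a * (2 * t) + 1 := (Nat.pow_le_pow_iff_right (by norm_num)).1 h4
      have h6 : n ≤ 2 * (2 * a * (2 * t) + 1) + 1 := by omega
      nlinarith
    · have h1 := Asm_iter ha hg hqR n
      rw [hn3] at h1
      exact (xv_inj ha hg h1.1 hqR h1.2.symm)

/-- injectivity -/
theorem Asm_inj {a A₀ b : ℕ} (ha : 2 ≤ a) (hA : 1 ≤ A₀) (hb : 1 ≤ b) (hAb : A₀ ≤ 2 ^ b)
    {t j i t' j' i' : ℕ} (hj : j < t) (hj' : j' < t') (hi : i < (t - 1) / b)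
    (hi' : i' < (t' - 1) / b) {p p' : ℤ × ℤ} (hp : p ∈ Red a (G a t)) (hp' : p' ∈ Red a (G a t'))
    (hr : ∃ (σ : ℤ) (y1 y2 : ℤ√(DD a)), Rel a t j p σ y1 y2)
    (hr' : ∃ (σ : ℤ) (y1 y2 : ℤ√(DD a)), Rel a t' j' p' σ y1 y2)
    (hpp : t = t' → j = j' → p = p')
    (hA1 : ∀ i : ℕ, xv a (G a t) ((nx a (G a t))^[i] p) ≤ A₀)
    (he : xv a (G a t) ((nx a (G a t))^[i] p) = xv a (G a t') ((nx a (G a t'))^[i'] p')) :
    t = t' ∧ j = j' ∧ i = i' := by
  obtain ⟨σ, y1, y2, hr⟩ := hr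
  obtain ⟨σ', z1, z2, hr'⟩ := hr'
  have ht : 1 ≤ t := by omega
  have ht' : 1 ≤ t' := by omega
  obtain ⟨hpi, τ, u1, u2, hri, -, -⟩ := Rel.iter ha ht hp hr i
  obtain ⟨hpi', τ', v1, v2, hri', -, -⟩ := Rel.iter ha ht' hp' hr' i'
  obtain ⟨htt, μ, ν, hu, h1, h2⟩ := eq_unit ha ht ht' hpi hpi' hri hri' he
  subst htt
  have hjj : j = j' := j_eq ha hj hj' hri hri' hu h1 h2
  subst hjj
  have hpe := hpp rfl rfl
  subst hpe
  refine ⟨rfl, rfl, ?_⟩
  have hg : 1 ≤ G a t := G_pos ha ht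
  -- the general contradiction
  have key : ∀ i i' : ℕ, i < i' → i' < (t - 1) / b →
      (nx a (G a t))^[i] p = (nx a (G a t))^[i'] p → False := by
    intro i i' hlt hlt' heq
    obtain ⟨hpi, τ, u1, u2, hri, -, -⟩ := Rel.iter ha ht hp hr i
    have h3 : (nx a (G a t))^[i' - i] ((nx a (G a t))^[i] p) = (nx a (G a t))^[i] p := by
      rw [← Function.iterate_add_apply, Nat.sub_add_cancel hlt.le]
      exact heq.symm
    have h4 := period_lb (M := (A₀ : ℝ)) ha ht hpi hri (by exact_mod_cast hA)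
      (fun k => by
        rw [← Function.iterate_add_apply]
        exact hA1 _) (show 1 ≤ i' - i by omega) h3
    have h5 : (A₀ : ℝ) ^ (i' - i) ≤ (2 : ℝ) ^ (b * (i' - i)) := by
      rw [pow_mul]
      apply pow_le_pow_left₀ (by positivity)
      exact_mod_cast hAb
    have h6 : b * (i' - i) < t - 1 := by
      have h7 : i' + 1 ≤ (t - 1) / b := hlt'
      have h8 : b * ((t - 1) / b) ≤ t - 1 := Nat.mul_div_le _ _
      have h9 : b * (i' + 1) ≤ b * ((t - 1) / b) := Nat.mul_le_mul_left _ h7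
      have h10 : b * (i' - i) ≤ b * i' := Nat.mul_le_mul_left _ (by omega)
      have h11 : b * (i' + 1) = b * i' + b := by ring
      omega
    have h7 : (2 : ℝ) ^ (b * (i' - i)) < (2 : ℝ) ^ (t - 1) :=
      pow_lt_pow_right₀ (by norm_num) h6
    have h8 : (2 : ℝ) ^ (t - 1) ≤ (Y a t : ℝ) := by
      have := two_pow_le_Y ha (t - 1)
      rw [Nat.sub_add_cancel ht] at this
      exact_mod_cast this
    linarith
  have h9 : (nx a (G a t))^[i] p = (nx a (G a t))^[i'] p := xv_inj ha hg hpi hpi' he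
  rcases lt_trichotomy i i' with h | h | h
  · exact (key i i' h hi' h9).elim
  · exact h
  · exact (key i' i h hi h9.symm).elim

end Pool.Agent.Helper65.KG
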