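import Pool.Agent.Helper65.KG.Asm
import Pool.Agent.Helper65.KG.Fs

/-!
Project KG: the final count.
-/

namespace Pool.Agent.Helper65.KG

open Pool.Agent.Helper20 Pool.Agent.Helper20.MC

/-- the admissible `j` -/
def JJ (t : ℕ) : Finset ℕ := (Finset.range t).filter (fun j => Odd j ∧ Nat.Coprime j t)

theorem Asm_count (b : ℕ) (hb : 1 ≤ b) (T : ℕ) (hT : 32 * b ≤ T) :
    (T : ℝ) ^ 3 / (1024 * b) ≤ ∑ t ∈ Finset.Icc 1 T, ((JJ t).card : ℝ) * (((t - 1) / b : ℕ) : ℝ) := by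
  have hb' : (1 : ℝ) ≤ b := by exact_mod_cast hb
  have hT' : (32 : ℝ) * b ≤ T := by exact_mod_cast hT
  have hT4 : 4 ≤ T := by omega
  have h1 := coprime_count T hT4
  have h2 : ∑ t ∈ Finset.Icc 1 (T / 8), ((JJ t).card : ℝ) ≤ (T : ℝ) ^ 2 / 64 := by
    have h3 : ∀ t ∈ Finset.Icc 1 (T / 8), ((JJ t).card : ℝ) ≤ ((T / 8 : ℕ) : ℝ) := by
      intro t ht
      have h4 : (JJ t).card ≤ t := by
        unfold JJ
        exact (Finset.card_filter_le _ _).trans (by simp)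
      have h5 := (Finset.mem_Icc.1 ht).2
      exact_mod_cast h4.trans h5
    refine (Finset.sum_le_sum h3).trans ?_
    rw [Finset.sum_const, Nat.card_Icc, nsmul_eq_mul]
    have h6 : ((T / 8 : ℕ) : ℝ) ≤ (T : ℝ) / 8 := by
      have := Nat.cast_div_le (α := ℝ) (m := T) (n := 8)
      simpa using this
    have h7 : (0 : ℝ) ≤ ((T / 8 : ℕ) : ℝ) := Nat.cast_nonneg _
    rw [Nat.add_sub_cancel]
    nlinarith
  have h3 : ∑ t ∈ Finset.Icc 1 T, ((JJ t).card : ℝ) =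
      ∑ t ∈ Finset.Icc 1 (T / 8), ((JJ t).card : ℝ) +
        ∑ t ∈ Finset.Ioc (T / 8) T, ((JJ t).card : ℝ) := by
    rw [← Finset.sum_union]
    · congr 1
      ext t
      simp only [Finset.mem_Icc, Finset.mem_union, Finset.mem_Ioc]
      omega
    · rw [Finset.disjoint_left]
      intro t h4 h5
      simp only [Finset.mem_Icc, Finset.mem_Ioc] at h4 h5
      omega
  have h4 : (T : ℝ) ^ 2 / 64 ≤ ∑ t ∈ Finset.Ioc (T / 8) T, ((JJ t).card : ℝ) := by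
    have h5 : ∑ t ∈ Finset.Icc 1 T, ((JJ t).card : ℝ) = ∑ t ∈ Finset.Icc 1 T,
      (((Finset.range t).filter (fun j => Odd j ∧ Nat.Coprime j t)).card : ℝ) := rfl
    linarith
  have h5 : (T : ℝ) / (16 * b) ≤ (((T / 8) / b : ℕ) : ℝ) := by
    have h6 : (T : ℝ) < ((((T / 8) / b : ℕ) : ℝ) + 1) * (8 * b) := by
      have h7 : T < (T / 8 / b + 1) * (8 * b) := by
        have h8 : T / 8 / b = T / (8 * b) := Nat.div_div_eq_div_mul _ _ _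
        rw [h8]
        have h9 : 0 < 8 * b := by omega
        exact (Nat.lt_mul_div_succ T h9).trans_eq (mul_comm _ _)
      exact_mod_cast h7
    rw [div_le_iff₀ (by positivity)]
    nlinarith
  calc (T : ℝ) ^ 3 / (1024 * b) = (T : ℝ) ^ 2 / 64 * ((T : ℝ) / (16 * b)) := by
        field_simp
        norm_num
    _ ≤ (∑ t ∈ Finset.Ioc (T / 8) T, ((JJ t).card : ℝ)) * (((T / 8) / b : ℕ) : ℝ) := by
        apply mul_le_mul h4 h5 (by positivity)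
        exact Finset.sum_nonneg (fun _ _ => Nat.cast_nonneg _)
    _ = ∑ t ∈ Finset.Ioc (T / 8) T, ((JJ t).card : ℝ) * (((T / 8) / b : ℕ) : ℝ) :=
        Finset.sum_mul _ _ _
    _ ≤ ∑ t ∈ Finset.Ioc (T / 8) T, ((JJ t).card : ℝ) * (((t - 1) / b : ℕ) : ℝ) := by
        apply Finset.sum_le_sum
        intro t ht
        apply mul_le_mul_of_nonneg_left _ (Nat.cast_nonneg _)
        have h6 := (Finset.mem_Ioc.1 ht).1
        have h7 : T / 8 / b ≤ (t - 1) / b := Nat.div_le_div_right (by omega)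
        exact_mod_cast h7
    _ ≤ ∑ t ∈ Finset.Icc 1 T, ((JJ t).card : ℝ) * (((t - 1) / b : ℕ) : ℝ) := by
        apply Finset.sum_le_sum_of_subset_of_nonneg
        · intro t ht
          have h6 := Finset.mem_Ioc.1 ht
          exact Finset.mem_Icc.2 ⟨by omega, h6.2⟩
        · intro _ _ _
          positivity

/-- many points of period at most `C T` -/
theorem Asm_many {a : ℕ} (ha : 2 ≤ a) : ∃ A₀ b C : ℕ, 1 ≤ b ∧ 1 ≤ C ∧ ∀ T : ℕ, 32 * b ≤ T →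
    ∃ S : Finset ℝ, (T : ℝ) ^ 3 / (1024 * b) ≤ (S.card : ℝ) ∧ ∀ x ∈ S,
      ∃ (g : ℕ) (p : ℤ × ℤ), 1 ≤ g ∧ p ∈ Red a g ∧ x = xv a g p ∧
        (∀ k : ℕ, xv a g ((nx a g)^[k] p) ≤ A₀) ∧
        ∃ n : ℕ, 1 ≤ n ∧ n ≤ C * T ∧ (nx a g)^[n] p = p := by
  classical
  obtain ⟨A₀, b, C, hA, hb, hC, hAb, hlev⟩ := Asm_level ha
  refine ⟨A₀, b, C, hb, hC, fun T hT => ?_⟩
  -- choice of the starting points
  have hch : ∀ u : ℕ × ℕ, ∃ p : ℤ × ℤ, u.2 < u.1 → Odd u.2 → Nat.Coprime u.2 u.1 →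
      p ∈ Red a (G a u.1) ∧ (∃ (σ : ℤ) (y1 y2 : ℤ√(DD a)), Rel a u.1 u.2 p σ y1 y2) ∧
        (∀ i : ℕ, xv a (G a u.1) ((nx a (G a u.1))^[i] p) ≤ A₀) ∧
        ∀ i : ℕ, ∃ n : ℕ, 1 ≤ n ∧ n ≤ C * u.1 ∧
          (nx a (G a u.1))^[n] ((nx a (G a u.1))^[i] p) = (nx a (G a u.1))^[i] p := by
    intro u
    by_cases h : u.2 < u.1 ∧ Odd u.2 ∧ Nat.Coprime u.2 u.1
    · obtain ⟨p, hp⟩ := hlev u.1 u.2 h.1 h.2.1 h.2.2
      exact ⟨p, fun _ _ _ => hp⟩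
    · refine ⟨(0, 0), fun h1 h2 h3 => (h ⟨h1, h2, h3⟩).elim⟩
  choose P hP using hch
  let I : Finset (Σ _ : ℕ, ℕ × ℕ) :=
    (Finset.Icc 1 T).sigma (fun t => JJ t ×ˢ Finset.range ((t - 1) / b))
  let F : (Σ _ : ℕ, ℕ × ℕ) → ℝ := fun v =>
    xv a (G a v.1) ((nx a (G a v.1))^[v.2.2] (P (v.1, v.2.1)))
  have hmem : ∀ v ∈ I, 1 ≤ v.1 ∧ v.1 ≤ T ∧ v.2.1 < v.1 ∧ Odd v.2.1 ∧ Nat.Coprime v.2.1 v.1 ∧
      v.2.2 < (v.1 - 1) / b := by
    rintro ⟨t, j, i⟩ hv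
    simp only [I, Finset.mem_sigma, Finset.mem_Icc, Finset.mem_product, JJ, Finset.mem_filter,
      Finset.mem_range] at hv
    exact ⟨hv.1.1, hv.1.2, hv.2.1.1, hv.2.1.2.1, hv.2.1.2.2, hv.2.2⟩
  have hinj : Set.InjOn F (I : Set (Σ _ : ℕ, ℕ × ℕ)) := by
    rintro ⟨t, j, i⟩ hv ⟨t', j', i'⟩ hv' he
    obtain ⟨h1, -, h2, h3, h4, h5⟩ := hmem _ hv
    obtain ⟨h1', -, h2', h3', h4', h5'⟩ := hmem _ hv'
    obtain ⟨q1, q2, q3, -⟩ := hP (t, j) h2 h3 h4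
    obtain ⟨q1', q2', -, -⟩ := hP (t', j') h2' h3' h4'
    obtain ⟨e1, e2, e3⟩ := Asm_inj ha hA hb hAb h2 h2' h5 h5' q1 q1' q2 q2'
      (by rintro rfl rfl; rfl) q3 he
    subst e1 e2 e3
    rfl
  refine ⟨I.image F, ?_, fun x hx => ?_⟩
  · rw [Finset.card_image_of_injOn hinj]
    have hc : (I.card : ℝ) = ∑ t ∈ Finset.Icc 1 T, ((JJ t).card : ℝ) * (((t - 1) / b : ℕ) : ℝ) := by
      simp only [I, Finset.card_sigma, Finset.card_product, Finset.card_range]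
      push_cast
      rfl
    rw [hc]
    exact Asm_count b hb T hT
  · obtain ⟨⟨t, j, i⟩, hv, rfl⟩ := Finset.mem_image.1 hx
    obtain ⟨h1, hTt, h2, h3, h4, h5⟩ := hmem _ hv
    obtain ⟨q1, q2, q3, q4⟩ := hP (t, j) h2 h3 h4
    have hg : 1 ≤ G a t := G_pos ha h1
    refine ⟨G a t, (nx a (G a t))^[i] (P (t, j)), hg, (Asm_iter ha hg q1 i).1, rfl, fun k => ?_, ?_⟩
    · rw [← Function.iterate_add_apply]
      exact q3 _
    · obtain ⟨n, hn1, hn2, hn3⟩ := q4 i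
      exact ⟨n, hn1, hn2.trans (Nat.mul_le_mul_left _ hTt), hn3⟩

/-- Main theorem of the project. -/
theorem main (d : ℕ) (hd : ¬ IsSquare d) : ∃ A₀ : ℕ, ∃ c : ℝ, 0 < c ∧ ∃ L : ℕ, ∀ l : ℕ, L ≤ l →
    c * (l : ℝ) ^ 3 ≤ (({x : ℝ | (∃ p q : ℚ, x = (p : ℝ) + (q : ℝ) * Real.sqrt (d : ℝ)) ∧
      ∃ n : ℕ, 1 ≤ n ∧ n ≤ l ∧ ∃ a : ℕ → ℕ, Function.Periodic a n ∧
        (∀ k, 1 ≤ a k ∧ a k ≤ A₀) ∧
        ∀ k : ℕ, ⌊(fun y : ℝ => (Int.fract y)⁻¹)^[k] x⌋ = (a k : ℤ)}).ncard : ℝ) := by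
  classical
  obtain ⟨a, m, ha, hm, ham⟩ := Asm_pell hd
  obtain ⟨A₀, b, C, hb, hC, hmany⟩ := Asm_many ha
  have hb' : (1 : ℝ) ≤ b := by exact_mod_cast hb
  have hC' : (1 : ℝ) ≤ C := by exact_mod_cast hC
  refine ⟨A₀, 1 / (8192 * b * C ^ 3), by positivity, 32 * b * C, fun l hl => ?_⟩
  have hT : 32 * b ≤ l / C := by
    rw [Nat.le_div_iff_mul_le (by omega)]
    exact hl
  obtain ⟨S, hS1, hS2⟩ := hmany (l / C) hT
  have hsub : (S : Set ℝ) ⊆ {x : ℝ | (∃ p q : ℚ, x = (p : ℝ) + (q : ℝ) * Real.sqrt (d : ℝ)) ∧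
      ∃ n : ℕ, 1 ≤ n ∧ n ≤ l ∧ ∃ a : ℕ → ℕ, Function.Periodic a n ∧
        (∀ k, 1 ≤ a k ∧ a k ≤ A₀) ∧
        ∀ k : ℕ, ⌊(fun y : ℝ => (Int.fract y)⁻¹)^[k] x⌋ = (a k : ℤ)} := by
    intro x hx
    obtain ⟨g, p, hg, hp, rfl, hbd, n, hn1, hn2, hn3⟩ := hS2 x hx
    have hfl : ∀ k : ℕ, 1 ≤ ⌊xv a g ((nx a g)^[k] p)⌋ := fun k =>
      Int.le_floor.mpr (by push_cast; exact (one_lt_xv (Asm_iter ha hg hp k).1).le)
    refine ⟨⟨(p.1 : ℚ) / p.2, (g : ℚ) * m / p.2, ?_⟩, n, hn1,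
      hn2.trans (Nat.mul_div_le _ _), fun k => ⌊xv a g ((nx a g)^[k] p)⌋.toNat, ?_, fun k => ?_,
      fun k => ?_⟩
    · have hsq : MC.sq a = m * Real.sqrt d := by
        rw [MC.sq, ham, mul_comm (d : ℝ), Real.sqrt_mul (by positivity), Real.sqrt_sq (by positivity)]
      rw [xv, bb, hsq]
      push_cast
      ring
    · intro k
      change ⌊xv a g ((nx a g)^[k + n] p)⌋.toNat = ⌊xv a g ((nx a g)^[k] p)⌋.toNat
      rw [Function.iterate_add_apply, hn3]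
    · have h3 := hfl k
      have h4 : ⌊xv a g ((nx a g)^[k] p)⌋ ≤ (A₀ : ℤ) := by
        have h5 : ⌊xv a g ((nx a g)^[k] p)⌋ ≤ ⌊(A₀ : ℝ)⌋ := Int.floor_le_floor (hbd k)
        simpa using h5
      constructor
      · change 1 ≤ ⌊xv a g ((nx a g)^[k] p)⌋.toNat
        omega
      · change ⌊xv a g ((nx a g)^[k] p)⌋.toNat ≤ A₀
        omega
    · have h2 := Asm_iter ha hg hp k
      have h4 := hfl k
      change ⌊gm^[k] (xv a g p)⌋ = ((⌊xv a g ((nx a g)^[k] p)⌋.toNat : ℕ) : ℤ)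
      rw [h2.2]
      omega
  have hcard : (S.card : ℝ) ≤ (({x : ℝ | (∃ p q : ℚ, x = (p : ℝ) + (q : ℝ) * Real.sqrt (d : ℝ)) ∧
      ∃ n : ℕ, 1 ≤ n ∧ n ≤ l ∧ ∃ a : ℕ → ℕ, Function.Periodic a n ∧
        (∀ k, 1 ≤ a k ∧ a k ≤ A₀) ∧
        ∀ k : ℕ, ⌊(fun y : ℝ => (Int.fract y)⁻¹)^[k] x⌋ = (a k : ℤ)}).ncard : ℝ) := by
    have h1 := Set.ncard_le_ncard hsub (set_finite d A₀ l)
    rw [Set.ncard_coe_finset] at h1
    exact_mod_cast h1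
  refine le_trans ?_ (hS1.trans hcard)
  have h1 : (l : ℝ) / (2 * C) ≤ ((l / C : ℕ) : ℝ) := by
    have h2 : (l : ℝ) < (((l / C : ℕ) : ℝ) + 1) * C := by
      have h3 : l < (l / C + 1) * C :=
        (Nat.lt_mul_div_succ l (by omega)).trans_eq (mul_comm _ _)
      exact_mod_cast h3
    have h4 : (1 : ℝ) ≤ ((l / C : ℕ) : ℝ) := by
      have : 1 ≤ l / C := by omega
      exact_mod_cast this
    rw [div_le_iff₀ (by positivity)]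
    nlinarith
  calc 1 / (8192 * b * C ^ 3) * (l : ℝ) ^ 3 = ((l : ℝ) / (2 * C)) ^ 3 / (1024 * b) := by
        field_simp
        ring
    _ ≤ ((l / C : ℕ) : ℝ) ^ 3 / (1024 * b) := by
        apply div_le_div_of_nonneg_right _ (by positivity)
        exact pow_le_pow_left₀ (by positivity) h1 3

end Pool.Agent.Helper65.KG
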