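import Pool.Agent.Helper65.KG.Defs

/-!
Project CG, module Bd: size estimates.  Let `n = |N x| = |ph x| |ps x|` (`ph_mul_ps`),
`|ps x| ≤ |ph x| ≤ ε^(2j) |ps x|`.  Then `2 √D x.im = ph x - ps x`, so
`4 D x.im² ≤ (2 |ph x|)²` and `|ph x|² ≤ ε^(2j) |ph x| |ps x|`.  With `y = x * star e ^ j`,
`ph y = ph x / ε^j`, `ps y = ps x ε^j` (use `ph_mul`, `ps_mul`, `ph_star`, `ps_star`, `ps_e_pow`,
`ph_e_pow`): `2 √D B_j = ph y - ps y`, `2 A_j = ph y + ps y`, and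
`|ph x| / ε^j ≤ ε^j |ps x|`, so both are at most `2 ε^j |ps x|` in absolute value, and
`|ps x|² ≤ n`.
`direct`: `j = 1`.  If `x.im ≠ 0` then `x.im² ≥ Y_t²`, so `4 a² n ≥ ε² n ≥ D Y_t² = X_t² - 1 ≥
3/4 X_t²` (`X_t ≥ 2`).  If `B_1 x ≠ 0` resp. `A_1 x ≠ 0` it is at least `X_t` in absolute value, so
`4 a² n ≥ X_t²`.  If both vanish then `x = 0` (`B_eq`, `A_eq`, `Y_one`, `X_one`).
-/

namespace Pool.Agent.Helper65.KG

open Pool.Agent.Helper20 Pool.Agent.Helper20.MC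

private theorem Bd_norm {a : ℕ} (ha : 2 ≤ a) (x : ℤ√(DD a)) :
    |(x.norm : ℝ)| = |ph a x| * |ps a x| := by
  rw [← ph_mul_ps ha, abs_mul]

private theorem Bd_eps_pos {a : ℕ} (ha : 2 ≤ a) (j : ℕ) : 0 < eps a ^ j :=
  pow_pos (by linarith [two_le_eps ha]) j

theorem im_bd {a j : ℕ} (ha : 2 ≤ a) {x : ℤ√(DD a)} (h1 : |ps a x| ≤ |ph a x|)
    (h2 : |ph a x| ≤ eps a ^ (2 * j) * |ps a x|) :
    (x.im : ℝ) ^ 2 * (DD a : ℝ) ≤ |(x.norm : ℝ)| * eps a ^ (2 * j) := by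
  rw [Bd_norm ha, ← sq_mul_self ha]
  have h3 : 2 * MC.sq a * (x.im : ℝ) = ph a x - ps a x := by
    unfold ph ps
    ring
  have h4 : (ph a x - ps a x) ^ 2 ≤ (2 * |ph a x|) ^ 2 := by
    rw [← sq_abs]
    refine pow_le_pow_left₀ (abs_nonneg _) ?_ 2
    refine (abs_sub _ _).trans ?_
    linarith
  rw [← h3] at h4
  have h5 : |ph a x| * |ph a x| ≤ |ph a x| * (eps a ^ (2 * j) * |ps a x|) :=
    mul_le_mul_of_nonneg_left h2 (abs_nonneg _)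
  nlinarith

private theorem Bd_ph {a j : ℕ} (ha : 2 ≤ a) (x : ℤ√(DD a)) :
    ph a (x * star (e a) ^ j) * eps a ^ j = ph a x := by
  rw [ph_mul ha, ← star_pow, ph_star, mul_assoc, ps_e_pow ha, mul_one]

private theorem Bd_ps {a j : ℕ} (ha : 2 ≤ a) (x : ℤ√(DD a)) :
    ps a (x * star (e a) ^ j) = ps a x * eps a ^ j := by
  rw [ps_mul ha, ← star_pow, ps_star, ph_e_pow ha]

private theorem Bd_le {a j : ℕ} (ha : 2 ≤ a) {x : ℤ√(DD a)}
    (h2 : |ph a x| ≤ eps a ^ (2 * j) * |ps a x|) :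
    |ph a (x * star (e a) ^ j)| ≤ eps a ^ j * |ps a x| := by
  have h0 := Bd_eps_pos ha j
  have h3 := congrArg (fun z : ℝ => |z|) (Bd_ph (j := j) ha x)
  simp only [abs_mul] at h3
  rw [abs_of_pos h0] at h3
  rw [← h3, two_mul, pow_add, mul_assoc, mul_comm (|ph a (x * star (e a) ^ j)|)] at h2
  exact le_of_mul_le_mul_left h2 h0

private theorem Bd_sq {a j : ℕ} (ha : 2 ≤ a) {x : ℤ√(DD a)} (h1 : |ps a x| ≤ |ph a x|) :
    (eps a ^ j * |ps a x|) ^ 2 ≤ |(x.norm : ℝ)| * eps a ^ (2 * j) := by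
  have h0 := Bd_eps_pos ha j
  rw [Bd_norm ha, two_mul, pow_add]
  have h5 : |ps a x| * |ps a x| ≤ |ph a x| * |ps a x| :=
    mul_le_mul_of_nonneg_right h1 (abs_nonneg _)
  have h6 : 0 ≤ eps a ^ j * eps a ^ j := by positivity
  have h7 := mul_le_mul_of_nonneg_right h5 h6
  calc (eps a ^ j * |ps a x|) ^ 2 = |ps a x| * |ps a x| * (eps a ^ j * eps a ^ j) := by ring
    _ ≤ _ := h7

theorem B_bd {a j : ℕ} (ha : 2 ≤ a) {x : ℤ√(DD a)} (h1 : |ps a x| ≤ |ph a x|)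
    (h2 : |ph a x| ≤ eps a ^ (2 * j) * |ps a x|) :
    (B a j x : ℝ) ^ 2 * (DD a : ℝ) ≤ |(x.norm : ℝ)| * eps a ^ (2 * j) := by
  refine le_trans ?_ (Bd_sq ha h1)
  have h0 := Bd_eps_pos ha j
  rw [← sq_mul_self ha]
  have h3 : 2 * MC.sq a * (B a j x : ℝ) =
      ph a (x * star (e a) ^ j) - ps a (x * star (e a) ^ j) := by
    unfold ph ps B
    ring
  have h4 := Bd_le ha h2
  have h5 : |ps a (x * star (e a) ^ j)| = eps a ^ j * |ps a x| := by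
    rw [Bd_ps ha, abs_mul, abs_of_pos h0, mul_comm]
  have h6 : (ph a (x * star (e a) ^ j) - ps a (x * star (e a) ^ j)) ^ 2 ≤
      (2 * (eps a ^ j * |ps a x|)) ^ 2 := by
    rw [← sq_abs]
    refine pow_le_pow_left₀ (abs_nonneg _) ?_ 2
    refine (abs_sub _ _).trans ?_
    linarith
  rw [← h3] at h6
  nlinarith

theorem A_bd {a j : ℕ} (ha : 2 ≤ a) {x : ℤ√(DD a)} (h1 : |ps a x| ≤ |ph a x|)
    (h2 : |ph a x| ≤ eps a ^ (2 * j) * |ps a x|) :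
    (A a j x : ℝ) ^ 2 ≤ |(x.norm : ℝ)| * eps a ^ (2 * j) := by
  refine le_trans ?_ (Bd_sq ha h1)
  have h0 := Bd_eps_pos ha j
  have h3 : 2 * (A a j x : ℝ) =
      ph a (x * star (e a) ^ j) + ps a (x * star (e a) ^ j) := by
    unfold ph ps A
    ring
  have h4 := Bd_le ha h2
  have h5 : |ps a (x * star (e a) ^ j)| = eps a ^ j * |ps a x| := by
    rw [Bd_ps ha, abs_mul, abs_of_pos h0, mul_comm]
  have h6 : (ph a (x * star (e a) ^ j) + ps a (x * star (e a) ^ j)) ^ 2 ≤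
      (2 * (eps a ^ j * |ps a x|)) ^ 2 := by
    rw [← sq_abs]
    refine pow_le_pow_left₀ (abs_nonneg _) ?_ 2
    refine (abs_add_le _ _).trans ?_
    linarith
  rw [← h3] at h6
  nlinarith

private theorem Bd_dvd_sq {u v : ℤ} (hu : 0 ≤ u) (h : u ∣ v) (hv : v ≠ 0) :
    (u : ℝ) ^ 2 ≤ (v : ℝ) ^ 2 := by
  have h1 : u ≤ |v| := Int.le_of_dvd (abs_pos.2 hv) ((dvd_abs u v).2 h)
  have h2 : u ^ 2 ≤ v ^ 2 := by
    rw [← sq_abs v]
    exact pow_le_pow_left₀ hu h1 2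
  exact_mod_cast h2

theorem direct {a t : ℕ} (ha : 2 ≤ a) (ht : 1 ≤ t) {x : ℤ√(DD a)} (hx : x ≠ 0)
    (hL : LB a t 1 x ∨ LA a t 1 x) (h1 : |ps a x| ≤ |ph a x|)
    (h2 : |ph a x| ≤ eps a ^ (2 * 1) * |ps a x|) :
    (X a t : ℝ) * Y a t ≤ 16 * (a : ℝ) ^ 2 * |(x.norm : ℝ)| := by
  have hD : (3 : ℝ) ≤ (DD a : ℝ) := by exact_mod_cast DD_pos ha
  have hX2 : (2 : ℤ) ≤ X a t := by
    have h3 := two_pow_le_X ha t
    have h4 : (2 : ℤ) ^ 1 ≤ 2 ^ t := pow_le_pow_right₀ (by norm_num) ht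
    linarith
  have hX2' : (2 : ℝ) ≤ (X a t : ℝ) := by exact_mod_cast hX2
  have hY0 : (0 : ℝ) ≤ (Y a t : ℝ) := by exact_mod_cast Y_nonneg ha t
  have hYX : (Y a t : ℝ) ≤ (X a t : ℝ) := by exact_mod_cast (Y_lt_X ha t).le
  have hpell : (X a t : ℝ) ^ 2 - (DD a : ℝ) * (Y a t : ℝ) ^ 2 = 1 := by exact_mod_cast pell a t
  have hn : 0 ≤ |(x.norm : ℝ)| := abs_nonneg _
  have heps : eps a ^ (2 * 1) ≤ 4 * (a : ℝ) ^ 2 := by
    have h3 := eps_le ha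
    have h4 := two_le_eps ha
    calc eps a ^ (2 * 1) ≤ (2 * (a : ℝ)) ^ (2 * 1) := pow_le_pow_left₀ (by linarith) h3 _
      _ = 4 * (a : ℝ) ^ 2 := by ring
  have hne : |(x.norm : ℝ)| * eps a ^ (2 * 1) ≤ 4 * (a : ℝ) ^ 2 * |(x.norm : ℝ)| := by
    have := mul_le_mul_of_nonneg_left heps hn
    linarith
  have hXY : (X a t : ℝ) * Y a t ≤ (X a t : ℝ) ^ 2 := by nlinarith
  by_cases him : x.im = 0
  · have hre : x.re ≠ 0 := by
      intro h0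
      apply hx
      exact Zsqrtd.ext h0 him
    rcases hL with ⟨-, hd⟩ | ⟨-, hd⟩
    · have hB : B a 1 x ≠ 0 := by
        rw [B_eq, him, Y_one]
        simpa using hre
      have h3 := Bd_dvd_sq (by linarith) hd hB
      have h4 := B_bd (j := 1) ha h1 h2
      have h5 : (X a t : ℝ) ^ 2 ≤ (B a 1 x : ℝ) ^ 2 * (DD a : ℝ) := by nlinarith
      nlinarith
    · have hA : A a 1 x ≠ 0 := by
        rw [A_eq, him, X_one]
        have : (a : ℤ) ≠ 0 := by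
          have : (2 : ℤ) ≤ a := by exact_mod_cast ha
          omega
        simpa using ⟨by exact_mod_cast this, hre⟩
      have h3 := Bd_dvd_sq (by linarith) hd hA
      have h4 := A_bd (j := 1) ha h1 h2
      nlinarith
  · have hd : Y a t ∣ x.im := by
      rcases hL with h | h
      · exact h.1
      · exact h.1
    have h3 := Bd_dvd_sq (Y_nonneg ha t) hd him
    have h4 := im_bd (j := 1) ha h1 h2
    have h5 : (Y a t : ℝ) ^ 2 * (DD a : ℝ) ≤ (x.im : ℝ) ^ 2 * (DD a : ℝ) :=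
      mul_le_mul_of_nonneg_right h3 (by linarith)
    have h6 : (4 : ℝ) ≤ (X a t : ℝ) ^ 2 := by nlinarith
    nlinarith

end Pool.Agent.Helper65.KG
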