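import Pool.Agent.Helper65.KG.Cg
import Pool.Agent.Helper65.KG.Bd

/-!
Project KG, module DA: the descent for type A.  t = r + k j, 1 ≤ r < j, k ≥ 1.
Write x.im = Y_t u, A_j x = X_t q.  By A_eq, X_j x.re = X_t q + D Y_j Y_t u.  Identity
(pell): X_j² N x = X_t² q² + 2 D Y_j X_t Y_t u q - D Y_t² u².
Case k = 2 m (mod_X_even): X_j ∣ X_r q + D Y_j Y_r u =: X_j w; z = ⟨w, Y_r u⟩,
A_j z = X_r q; X_j² (N z X_t Y_t - N x X_r Y_r) =
  (X_r Y_t - X_t Y_r) q² X_r X_t + D (X_r Y_t - X_t Y_r) u² Y_r Y_t up to signs of the two terms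
(compute with ring), X_r Y_t - X_t Y_r = Y_(t-r) ≥ 0.
Case k = 2 m + 1 (mod_X_odd): X_j ∣ D Y_j (Y_r q + Y_j X_r u), and D Y_j is prime to X_j
(pell), so Y_r q + Y_j X_r u = X_j v.  z₁ = ⟨X_r u, v⟩: re = X_r u, B_j z₁ = Y_r q,
X_j² N z₁ = X_r² u² - 2 D Y_j X_r Y_r u q - D Y_r² q².  Put z = star (z₁ * star e ^ j):
z.im = -B_j z₁ = -Y_r q, A_j z = re z₁ = X_r u (e_mul_star), |N z| = |N z₁|, and
X_j² (N z₁ X_t Y_t + N x X_r Y_r) = (X_r X_t - D Y_r Y_t) (u² X_r Y_t + q² X_t Y_r),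
X_r X_t - D Y_r Y_t = X_(t-r) > 0 (X_sub).
Estimates (n = |N x|, E = ε^(2j) ≤ 4 X_j² by eps_pow_le_X): u² Y_t² D ≤ n E (im_bd),
q² X_t² ≤ n E (A_bd); Y_(t-r) D Y_r ≤ X_t, Y_(t-r) X_r ≤ Y_t, X_(t-r) X_r ≤ X_t,
X_(t-r) Y_r ≤ Y_t, D Y_r² ≥ 3/4 X_r²: the error is ≤ 4 n X_r Y_r (7/3) / X_r² in both cases.
z ≠ 0 since otherwise u = q = 0, x.im = 0, X_j x.re = 0.
-/

namespace Pool.Agent.Helper65.KG

open Pool.Agent.Helper20 Pool.Agent.Helper20.MC

private theorem DA_fin {r : ℕ} {c n D Xj Xr Yr : ℝ} (hD : 0 < D) (hYr : 0 < Yr)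
    (hXr : 2 ^ r ≤ Xr) (hX2 : 2 ≤ Xr) (hp : Xr ^ 2 - D * Yr ^ 2 = 1) (hn : 0 ≤ n)
    (hc : c = 4 * n * Xj ^ 2) :
    c * (Xr / (D * Yr) + Yr / Xr) ≤ Xj ^ 2 * (n * (Xr * Yr) * (40 / 4 ^ r)) := by
  have hX0 : 0 < Xr := by linarith
  have e : Xr / (D * Yr) + Yr / Xr = Xr * Yr * (1 / (D * Yr ^ 2) + 1 / Xr ^ 2) := by
    field_simp
  have h4 : (0 : ℝ) < 4 ^ r := by positivity
  have hX4 : (4 : ℝ) ^ r ≤ Xr ^ 2 := by
    have h1 : (4 : ℝ) ^ r = (2 ^ r) ^ 2 := by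
      rw [← pow_mul, mul_comm r 2, pow_mul]; norm_num
    rw [h1]
    exact pow_le_pow_left₀ (by positivity) hXr 2
  have hDY : 3 / 4 * Xr ^ 2 ≤ D * Yr ^ 2 := by nlinarith
  have h1 : 1 / (D * Yr ^ 2) ≤ 4 / 3 / 4 ^ r := by
    rw [div_le_div_iff₀ (by positivity) h4]
    linarith
  have h2 : 1 / Xr ^ 2 ≤ 1 / 4 ^ r := one_div_le_one_div_of_le h4 hX4
  have h3 : 4 * (1 / (D * Yr ^ 2) + 1 / Xr ^ 2) ≤ 40 / 4 ^ r := by
    have h5 : (4 : ℝ) * (4 / 3 / 4 ^ r + 1 / 4 ^ r) = 28 / 3 / 4 ^ r := by ring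
    have h6 : (28 : ℝ) / 3 / 4 ^ r ≤ 40 / 4 ^ r := by
      apply div_le_div_of_nonneg_right _ h4.le
      norm_num
    linarith
  rw [e, hc]
  have h7 : 0 ≤ Xj ^ 2 * (n * (Xr * Yr)) := by positivity
  calc 4 * n * Xj ^ 2 * (Xr * Yr * (1 / (D * Yr ^ 2) + 1 / Xr ^ 2))
      = Xj ^ 2 * (n * (Xr * Yr)) * (4 * (1 / (D * Yr ^ 2) + 1 / Xr ^ 2)) := by ring
    _ ≤ Xj ^ 2 * (n * (Xr * Yr)) * (40 / 4 ^ r) := mul_le_mul_of_nonneg_left h3 h7
    _ = Xj ^ 2 * (n * (Xr * Yr) * (40 / 4 ^ r)) := by ring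

private theorem DA_close {Nz Nx s Xj P Q err δ : ℝ} (hs : s = 1 ∨ s = -1) (hXj : 0 < Xj)
    (hP : 0 ≤ P) (hQ : 0 ≤ Q) (herr0 : 0 ≤ err) (hid : Xj ^ 2 * (Nz * P - s * Nx * Q) = err)
    (herr : err ≤ Xj ^ 2 * (|Nx| * Q * δ)) : |Nz| * P ≤ |Nx| * Q * (1 + δ) := by
  have h0 : 0 < Xj ^ 2 := by positivity
  have hs1 : |s| = 1 := by rcases hs with h | h <;> rw [h] <;> norm_num
  have h1 : Xj ^ 2 * (|Nz| * P) = |err + Xj ^ 2 * (s * Nx * Q)| := by
    have : err + Xj ^ 2 * (s * Nx * Q) = Xj ^ 2 * (Nz * P) := by rw [← hid]; ring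
    rw [this, abs_mul, abs_mul, abs_of_pos h0, abs_of_nonneg hP]
  have h2 : |err + Xj ^ 2 * (s * Nx * Q)| ≤ err + Xj ^ 2 * (|Nx| * Q) := by
    refine (abs_add_le _ _).trans ?_
    rw [abs_of_nonneg herr0, abs_mul, abs_mul, abs_mul, hs1, abs_of_pos h0, abs_of_nonneg hQ,
      one_mul]
  have h3 : Xj ^ 2 * (|Nz| * P) ≤ Xj ^ 2 * (|Nx| * Q * (1 + δ)) := by
    rw [h1]
    calc |err + Xj ^ 2 * (s * Nx * Q)| ≤ err + Xj ^ 2 * (|Nx| * Q) := h2
      _ ≤ Xj ^ 2 * (|Nx| * Q * δ) + Xj ^ 2 * (|Nx| * Q) := by linarith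
      _ = Xj ^ 2 * (|Nx| * Q * (1 + δ)) := by ring
  exact le_of_mul_le_mul_left h3 h0

/-- `S A² ≤ ...`: one error term. -/
private theorem DA_term {S w V c H : ℝ} (hV : 0 < V) (hH : 0 < H) (hS : 0 ≤ S) (hc : 0 ≤ c)
    (hw : w * V ^ 2 ≤ c) (hSH : S * H ≤ V) : S * (w * V) ≤ c / H := by
  have h1 : w ≤ c / V ^ 2 := by rw [le_div_iff₀ (by positivity)]; exact hw
  have h2 : S ≤ V / H := by rw [le_div_iff₀ hH]; exact hSH
  calc S * (w * V) ≤ S * (c / V ^ 2 * V) := by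
        apply mul_le_mul_of_nonneg_left _ hS
        exact mul_le_mul_of_nonneg_right h1 hV.le
    _ ≤ V / H * (c / V ^ 2 * V) := by
        apply mul_le_mul_of_nonneg_right h2
        positivity
    _ = c / H := by field_simp

theorem descA {a t j r k : ℕ} (ha : 2 ≤ a) (hr : 1 ≤ r) (hrj : r < j) (hk : 1 ≤ k)
    (ht : t = r + k * j) {x : ℤ√(DD a)} (hx : x ≠ 0) (hL : LA a t j x)
    (h1 : |ps a x| ≤ |ph a x|) (h2 : |ph a x| ≤ eps a ^ (2 * j) * |ps a x|) :
    ∃ z : ℤ√(DD a), z ≠ 0 ∧ LA a r j z ∧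
      |(z.norm : ℝ)| * ((X a t : ℝ) * Y a t) ≤
        |(x.norm : ℝ)| * ((X a r : ℝ) * Y a r) * (1 + 40 / 4 ^ r) := by
  obtain ⟨⟨u, hu⟩, ⟨q, hq⟩⟩ := hL
  -- basic facts
  have hrt : r ≤ t := by rw [ht]; exact Nat.le_add_right _ _
  have ht1 : 1 ≤ t := hr.trans hrt
  have hD3 : (3 : ℝ) ≤ (DD a : ℝ) := by exact_mod_cast DD_pos ha
  have hD0 : (0 : ℝ) < (DD a : ℝ) := by linarith
  have hXj : (0 : ℝ) < X a j := by exact_mod_cast X_pos ha j
  have hXr : (0 : ℝ) < X a r := by exact_mod_cast X_pos ha r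
  have hXt : (0 : ℝ) < X a t := by exact_mod_cast X_pos ha t
  have hYr : (0 : ℝ) < Y a r := by exact_mod_cast Y_pos ha hr
  have hYt : (0 : ℝ) < Y a t := by exact_mod_cast Y_pos ha ht1
  have hXd : (0 : ℝ) < X a (t - r) := by exact_mod_cast X_pos ha (t - r)
  have hYd : (0 : ℝ) ≤ Y a (t - r) := by exact_mod_cast Y_nonneg ha (t - r)
  have hX2r : (2 : ℝ) ^ r ≤ X a r := by exact_mod_cast two_pow_le_X ha r
  have hX2 : (2 : ℝ) ≤ X a r := by
    calc (2 : ℝ) = 2 ^ 1 := by norm_num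
      _ ≤ 2 ^ r := pow_le_pow_right₀ (by norm_num) hr
      _ ≤ X a r := hX2r
  have hpr : (X a r : ℝ) ^ 2 - (DD a : ℝ) * (Y a r : ℝ) ^ 2 = 1 := by exact_mod_cast pell a r
  have hpj : X a j ^ 2 - DD a * Y a j ^ 2 = 1 := pell a j
  have hXadd : (X a t : ℝ) = X a (t - r) * X a r + DD a * (Y a (t - r) * Y a r) := by
    have h := X_add a (t - r) r
    rw [Nat.sub_add_cancel hrt] at h
    exact_mod_cast h
  have hYadd : (Y a t : ℝ) = X a (t - r) * Y a r + Y a (t - r) * X a r := by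
    have h := Y_add a (t - r) r
    rw [Nat.sub_add_cancel hrt] at h
    exact_mod_cast h
  have hXsub := X_sub (a := a) hrt
  have hYsub := Y_sub (a := a) hrt
  -- sizes
  obtain ⟨n, hn⟩ : ∃ n : ℝ, n = |(x.norm : ℝ)| := ⟨_, rfl⟩
  have hn0 : 0 ≤ n := by rw [hn]; exact abs_nonneg _
  obtain ⟨c, hc⟩ : ∃ c : ℝ, c = 4 * n * (X a j : ℝ) ^ 2 := ⟨_, rfl⟩
  have hc0 : 0 ≤ c := by rw [hc]; positivity
  have hE : n * eps a ^ (2 * j) ≤ c := by
    have h3 := eps_pow_le_X ha j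
    have h4 : 0 ≤ eps a ^ j := pow_nonneg (by linarith [two_le_eps ha]) _
    have h5 : eps a ^ (2 * j) ≤ 4 * (X a j : ℝ) ^ 2 := by
      rw [mul_comm 2 j, pow_mul]
      calc (eps a ^ j) ^ 2 ≤ (2 * (X a j : ℝ)) ^ 2 := pow_le_pow_left₀ h4 h3 2
        _ = 4 * (X a j : ℝ) ^ 2 := by ring
    rw [hc]
    calc n * eps a ^ (2 * j) ≤ n * (4 * (X a j : ℝ) ^ 2) := mul_le_mul_of_nonneg_left h5 hn0
      _ = 4 * n * (X a j : ℝ) ^ 2 := by ring
  have hub : (DD a : ℝ) * (u : ℝ) ^ 2 * (Y a t : ℝ) ^ 2 ≤ c := by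
    have h3 := im_bd ha h1 h2
    rw [← hn, hu] at h3
    push_cast at h3
    calc (DD a : ℝ) * (u : ℝ) ^ 2 * (Y a t : ℝ) ^ 2 = ((Y a t : ℝ) * u) ^ 2 * (DD a : ℝ) := by ring
      _ ≤ n * eps a ^ (2 * j) := by
        simpa using h3
      _ ≤ c := hE
  have hqb : (q : ℝ) ^ 2 * (X a t : ℝ) ^ 2 ≤ c := by
    have h3 := A_bd ha h1 h2
    rw [← hn, hq] at h3
    push_cast at h3
    calc (q : ℝ) ^ 2 * (X a t : ℝ) ^ 2 = ((X a t : ℝ) * q) ^ 2 := by ring
      _ ≤ n * eps a ^ (2 * j) := h3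
      _ ≤ c := hE
  have hAx : X a j * x.re = X a t * q + DD a * (Y a j * (Y a t * u)) := by
    have h3 := A_eq a j x
    rw [hq, hu] at h3
    linarith
  have hNx : X a j ^ 2 * x.norm = X a t ^ 2 * q ^ 2 + 2 * DD a * Y a j * X a t * Y a t * u * q
      - DD a * Y a t ^ 2 * u ^ 2 := by
    rw [Zsqrtd.norm_def, hu]
    have h3 : X a j ^ 2 * (x.re * x.re - DD a * (Y a t * u) * (Y a t * u)) =
        (X a j * x.re) ^ 2 - DD a * X a j ^ 2 * (Y a t * u) ^ 2 := by ring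
    rw [h3, hAx]
    linear_combination (-(DD a * (Y a t * u) ^ 2)) * hpj
  have hxne : u = 0 → q = 0 → False := by
    intro hu0 hq0
    apply hx
    rw [hu0, hq0, mul_zero, mul_zero, mul_zero, mul_zero, add_zero] at hAx
    have h3 : x.re = 0 := by
      rcases mul_eq_zero.mp hAx with h | h
      · exact absurd h (X_pos ha j).ne'
      · exact h
    apply Zsqrtd.ext
    · exact h3
    · rw [hu, hu0, mul_zero]; rfl
  have hfin := DA_fin (Xj := (X a j : ℝ)) hD0 hYr hX2r hX2 hpr hn0 hc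
  rcases Nat.even_or_odd' k with ⟨m, hm | hm⟩
  · -- even case
    subst hm
    obtain ⟨s, hs, hsX, hsY⟩ := mod_X_even a j r m
    rw [← ht] at hsX hsY
    have hdvd : X a j ∣ X a r * q + DD a * (Y a j * (Y a r * u)) := by
      have h3 : X a j ∣ X a t * q + DD a * (Y a j * (Y a t * u)) := ⟨x.re, hAx.symm⟩
      have h4 : X a j ∣ s * (X a r * q + DD a * (Y a j * (Y a r * u))) := by
        have h5 := dvd_sub h3 (dvd_add (hsX.mul_right q)
          (hsY.mul_right (DD a * (Y a j * u))))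
        have h6 : X a t * q + DD a * (Y a j * (Y a t * u)) - ((X a t - s * X a r) * q +
            (Y a t - s * Y a r) * (DD a * (Y a j * u))) =
            s * (X a r * q + DD a * (Y a j * (Y a r * u))) := by ring
        rw [h6] at h5
        exact h5
      have h5 := h4.mul_left s
      have h6 : s * (s * (X a r * q + DD a * (Y a j * (Y a r * u)))) =
          X a r * q + DD a * (Y a j * (Y a r * u)) := by
        rcases hs with h | h <;> rw [h] <;> ring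
      rw [h6] at h5
      exact h5
    obtain ⟨w, hw⟩ := hdvd
    have hA : A a j (⟨w, Y a r * u⟩ : ℤ√(DD a)) = X a r * q := by
      rw [A_eq]
      simp only
      linarith
    refine ⟨⟨w, Y a r * u⟩, ?_, ⟨⟨u, rfl⟩, ⟨q, hA⟩⟩, ?_⟩
    · intro hz
      have h3 : Y a r * u = 0 := congrArg Zsqrtd.im hz
      have h4 : X a r * q = 0 := by
        rw [← hA, hz]
        simp [A]
      have h5 : u = 0 := by
        rcases mul_eq_zero.mp h3 with h | h
        · exact absurd h (Y_pos ha hr).ne'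
        · exact h
      have h6 : q = 0 := by
        rcases mul_eq_zero.mp h4 with h | h
        · exact absurd h (X_pos ha r).ne'
        · exact h
      exact hxne h5 h6
    · have hNz : X a j ^ 2 * (⟨w, Y a r * u⟩ : ℤ√(DD a)).norm =
          X a r ^ 2 * q ^ 2 + 2 * DD a * Y a j * X a r * Y a r * u * q
            - DD a * Y a r ^ 2 * u ^ 2 := by
        rw [Zsqrtd.norm_def]
        simp only
        have h3 : X a j ^ 2 * (w * w - DD a * (Y a r * u) * (Y a r * u)) =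
            (X a j * w) ^ 2 - DD a * X a j ^ 2 * (Y a r * u) ^ 2 := by ring
        rw [h3, ← hw]
        linear_combination (-(DD a * (Y a r * u) ^ 2)) * hpj
      obtain ⟨N, hN⟩ : ∃ N : ℤ, N = (⟨w, Y a r * u⟩ : ℤ√(DD a)).norm := ⟨_, rfl⟩
      rw [← hN] at hNz ⊢
      have hidZ : X a j ^ 2 * (N * (X a t * Y a t) - 1 * x.norm * (X a r * Y a r)) =
          Y a (t - r) * (q ^ 2 * X a t) * X a r + Y a (t - r) * (DD a * u ^ 2 * Y a t) * Y a r := by
        rw [hYsub]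
        linear_combination (X a t * Y a t) * hNz - (X a r * Y a r) * hNx
      have hidR : (X a j : ℝ) ^ 2 * ((N : ℝ) * ((X a t : ℝ) * Y a t)
          - 1 * (x.norm : ℝ) * ((X a r : ℝ) * Y a r)) =
          (Y a (t - r) : ℝ) * ((q : ℝ) ^ 2 * X a t) * X a r
            + (Y a (t - r) : ℝ) * ((DD a : ℝ) * (u : ℝ) ^ 2 * Y a t) * Y a r := by
        exact_mod_cast hidZ
      refine DA_close (Or.inl rfl) hXj (by positivity) (by positivity) (by positivity) hidR ?_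
      rw [← hn]
      refine le_trans ?_ hfin
      have e1 : (Y a (t - r) : ℝ) * ((q : ℝ) ^ 2 * X a t) ≤ c / ((DD a : ℝ) * Y a r) := by
        refine DA_term hXt (by positivity) hYd hc0 hqb ?_
        rw [hXadd]
        have : (0 : ℝ) ≤ X a (t - r) * X a r := by positivity
        nlinarith
      have e2 : (Y a (t - r) : ℝ) * ((DD a : ℝ) * (u : ℝ) ^ 2 * Y a t) ≤ c / (X a r : ℝ) := by
        refine DA_term hYt hXr hYd hc0 hub ?_
        rw [hYadd]
        have : (0 : ℝ) ≤ X a (t - r) * Y a r := by positivity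
        linarith
      calc (Y a (t - r) : ℝ) * ((q : ℝ) ^ 2 * X a t) * X a r
            + (Y a (t - r) : ℝ) * ((DD a : ℝ) * (u : ℝ) ^ 2 * Y a t) * Y a r
          ≤ c / ((DD a : ℝ) * Y a r) * X a r + c / (X a r : ℝ) * Y a r :=
            add_le_add (mul_le_mul_of_nonneg_right e1 hXr.le)
              (mul_le_mul_of_nonneg_right e2 hYr.le)
        _ = c * ((X a r : ℝ) / ((DD a : ℝ) * Y a r) + (Y a r : ℝ) / X a r) := by ring
  · -- odd case
    subst hm
    obtain ⟨s, hs, hsX, hsY⟩ := mod_X_odd a j r m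
    rw [← ht] at hsX hsY
    have hcop : IsCoprime (X a j) (DD a * Y a j) :=
      ⟨X a j, -Y a j, by linarith [hpj]⟩
    have hdvd : X a j ∣ Y a r * q + Y a j * (X a r * u) := by
      have h3 : X a j ∣ X a t * q + DD a * (Y a j * (Y a t * u)) := ⟨x.re, hAx.symm⟩
      have h4 : X a j ∣ s * ((DD a * Y a j) * (Y a r * q + Y a j * (X a r * u))) := by
        have h5 := dvd_sub h3 (dvd_add (hsX.mul_right q)
          (hsY.mul_right (DD a * (Y a j * u))))
        have h6 : X a t * q + DD a * (Y a j * (Y a t * u)) -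
            ((X a t - s * (DD a * (Y a j * Y a r))) * q +
            (Y a t - s * (Y a j * X a r)) * (DD a * (Y a j * u))) =
            s * ((DD a * Y a j) * (Y a r * q + Y a j * (X a r * u))) := by ring
        rw [h6] at h5
        exact h5
      have h5 := h4.mul_left s
      have h6 : s * (s * ((DD a * Y a j) * (Y a r * q + Y a j * (X a r * u)))) =
          (DD a * Y a j) * (Y a r * q + Y a j * (X a r * u)) := by
        rcases hs with h | h <;> rw [h] <;> ring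
      rw [h6] at h5
      exact hcop.dvd_of_dvd_mul_left h5
    obtain ⟨v, hv⟩ := hdvd
    obtain ⟨z1, hz1⟩ : ∃ z1 : ℤ√(DD a), z1 = ⟨X a r * u, v⟩ := ⟨_, rfl⟩
    have hz1re : z1.re = X a r * u := by rw [hz1]
    have hz1im : z1.im = v := by rw [hz1]
    have hB : B a j z1 = Y a r * q := by
      rw [B_eq, hz1re, hz1im]
      linarith
    obtain ⟨z, hz⟩ : ∃ z : ℤ√(DD a), z = star (z1 * star (e a) ^ j) := ⟨_, rfl⟩
    have hzim : z.im = -(Y a r * q) := by
      rw [hz, Zsqrtd.im_star]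
      rw [← hB]
      rfl
    have hAz : A a j z = X a r * u := by
      unfold A
      have h3 : z * star (e a) ^ j = star z1 := by
        rw [hz, star_mul, star_pow, star_star]
        calc e a ^ j * star z1 * star (e a) ^ j = (e a ^ j * star (e a) ^ j) * star z1 := by ring
          _ = star z1 := by rw [e_mul_star, one_mul]
      rw [h3, Zsqrtd.re_star, hz1re]
    have hnorm : z.norm = z1.norm := by
      rw [hz, Zsqrtd.norm_conj, Zsqrtd.norm_mul]
      have h3 : (star (e a) ^ j).norm = 1 := by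
        rw [star_e_pow, Zsqrtd.norm_def]
        simp only
        linarith [hpj]
      rw [h3, mul_one]
    refine ⟨z, ?_, ⟨⟨-q, by rw [hzim]; ring⟩, ⟨u, hAz⟩⟩, ?_⟩
    · intro hz0
      have h3 : Y a r * q = 0 := by
        have : z.im = 0 := by rw [hz0]; rfl
        linarith
      have h4 : X a r * u = 0 := by
        rw [← hAz, hz0]
        simp [A]
      have h5 : u = 0 := by
        rcases mul_eq_zero.mp h4 with h | h
        · exact absurd h (X_pos ha r).ne'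
        · exact h
      have h6 : q = 0 := by
        rcases mul_eq_zero.mp h3 with h | h
        · exact absurd h (Y_pos ha hr).ne'
        · exact h
      exact hxne h5 h6
    · rw [hnorm]
      have hNz : X a j ^ 2 * z1.norm =
          X a r ^ 2 * u ^ 2 - 2 * DD a * Y a j * X a r * Y a r * u * q
            - DD a * Y a r ^ 2 * q ^ 2 := by
        rw [Zsqrtd.norm_def, hz1re, hz1im]
        have h3 : X a j ^ 2 * (X a r * u * (X a r * u) - DD a * v * v) =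
            X a j ^ 2 * (X a r * u) ^ 2 - DD a * (X a j * v) ^ 2 := by ring
        rw [h3, ← hv]
        linear_combination ((X a r * u) ^ 2) * hpj
      obtain ⟨N, hN⟩ : ∃ N : ℤ, N = z1.norm := ⟨_, rfl⟩
      rw [← hN] at hNz ⊢
      have hidZ : X a j ^ 2 * (N * (X a t * Y a t) - (-1) * x.norm * (X a r * Y a r)) =
          X a (t - r) * (u ^ 2 * Y a t) * X a r + X a (t - r) * (q ^ 2 * X a t) * Y a r := by
        rw [hXsub]
        linear_combination (X a t * Y a t) * hNz + (X a r * Y a r) * hNx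
      have hidR : (X a j : ℝ) ^ 2 * ((N : ℝ) * ((X a t : ℝ) * Y a t)
          - (-1) * (x.norm : ℝ) * ((X a r : ℝ) * Y a r)) =
          (X a (t - r) : ℝ) * ((u : ℝ) ^ 2 * Y a t) * X a r
            + (X a (t - r) : ℝ) * ((q : ℝ) ^ 2 * X a t) * Y a r := by
        exact_mod_cast hidZ
      refine DA_close (Or.inr rfl) hXj (by positivity) (by positivity) (by positivity) hidR ?_
      rw [← hn]
      refine le_trans ?_ hfin
      have hub' : (u : ℝ) ^ 2 * (Y a t : ℝ) ^ 2 ≤ c / (DD a : ℝ) := by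
        rw [le_div_iff₀ hD0]
        linarith
      have e1 : (X a (t - r) : ℝ) * ((u : ℝ) ^ 2 * Y a t) ≤ c / (DD a : ℝ) / (Y a r : ℝ) := by
        refine DA_term hYt hYr hXd.le (by positivity) hub' ?_
        rw [hYadd]
        have : (0 : ℝ) ≤ Y a (t - r) * X a r := by positivity
        linarith
      have e2 : (X a (t - r) : ℝ) * ((q : ℝ) ^ 2 * X a t) ≤ c / (X a r : ℝ) := by
        refine DA_term hXt hXr hXd.le hc0 hqb ?_
        rw [hXadd]
        have : (0 : ℝ) ≤ (DD a : ℝ) * (Y a (t - r) * Y a r) := by positivity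
        linarith
      calc (X a (t - r) : ℝ) * ((u : ℝ) ^ 2 * Y a t) * X a r
            + (X a (t - r) : ℝ) * ((q : ℝ) ^ 2 * X a t) * Y a r
          ≤ c / (DD a : ℝ) / (Y a r : ℝ) * X a r + c / (X a r : ℝ) * Y a r :=
            add_le_add (mul_le_mul_of_nonneg_right e1 hXr.le)
              (mul_le_mul_of_nonneg_right e2 hYr.le)
        _ = c * ((X a r : ℝ) / ((DD a : ℝ) * Y a r) + (Y a r : ℝ) / X a r) := by
            field_simp

end Pool.Agent.Helper65.KG
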