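import Pool.Agent.Helper65.KG.Cg
import Pool.Agent.Helper65.KG.Bd

/-!
Project KG, module DB: the descent for type B.  `t = r + k j`, `1 ≤ r < j`, `k ≥ 1`.
Write `x.im = Y_t u`, `B_j x = X_t q`.  By `B_eq`, `X_j Y_t u - X_t q = Y_j x.re` is divisible by
`Y_j`; by `mod_Y` it is `≡ X_j^k (X_j Y_r u - X_r q)` mod `Y_j`, and `X_j` is prime to `Y_j`, so
`X_j Y_r u - X_r q = Y_j w`.  Put `z = ⟨w, Y_r u⟩`: `z.im = Y_r u`, `B_j z = X_r q`, `z ≠ 0` (else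
`u = q = 0`, `x.im = 0`, `Y_j x.re = 0`).  Identities (`pell`):
`Y_j² (N z X_t Y_t - N x X_r Y_r) = (X_r Y_t - X_t Y_r) (q² X_r X_t - u² Y_r Y_t)` and
`X_r Y_t - X_t Y_r = Y_(t-r) ≥ 0` (`Y_sub`).
-/

namespace Pool.Agent.Helper65.KG

open Pool.Agent.Helper20 Pool.Agent.Helper20.MC

/-- The algebraic part: the point `z`. -/
theorem DB_point {a t j r k : ℕ} (ha : 2 ≤ a) (hr : 1 ≤ r) (hrj : r < j)
    (ht : t = r + k * j) {x : ℤ√(DD a)} (hx : x ≠ 0) (hL : LB a t j x) :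
    ∃ (z : ℤ√(DD a)) (u q : ℤ), z ≠ 0 ∧ LB a r j z ∧ x.im = Y a t * u ∧ B a j x = X a t * q ∧
      Y a j ^ 2 * (z.norm * (X a t * Y a t) - x.norm * (X a r * Y a r)) =
        Y a (t - r) * (q ^ 2 * X a r * X a t - u ^ 2 * Y a r * Y a t) := by
  obtain ⟨⟨u, hu⟩, ⟨q, hq⟩⟩ := hL
  obtain ⟨h1, h2⟩ := mod_Y a j r k
  rw [← ht] at h1 h2
  have hB := B_eq a j x
  rw [hq, hu] at hB
  -- `Y_j re = X_j Y_t u - X_t q`
  have hre : Y a j * x.re = X a j * (Y a t * u) - X a t * q := by linarith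
  have hd1 : Y a j ∣ X a j ^ k * (X a j * Y a r * u - X a r * q) := by
    have e1 : X a j ^ k * (X a j * Y a r * u - X a r * q) =
        Y a j * x.re - (X a j * u) * (Y a t - X a j ^ k * Y a r) +
          q * (X a t - X a j ^ k * X a r) := by
      rw [hre]; ring
    rw [e1]
    exact dvd_add (dvd_sub (dvd_mul_right _ _) (dvd_mul_of_dvd_right h2 _))
      (dvd_mul_of_dvd_right h1 _)
  have hcop : IsCoprime (Y a j) (X a j ^ k) := ((XY_coprime a j).symm).pow_right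
  obtain ⟨w, hw⟩ := hcop.dvd_of_dvd_mul_left hd1
  have hYj : 0 < Y a j := Y_pos ha (by omega)
  have hYr : 0 < Y a r := Y_pos ha hr
  have hXr : 0 < X a r := X_pos ha r
  have hBz : B a j (⟨w, Y a r * u⟩ : ℤ√(DD a)) = X a r * q := by
    rw [B_eq]
    show X a j * (Y a r * u) - Y a j * w = X a r * q
    linarith
  have hΔ : Y a (t - r) = Y a t * X a r - X a t * Y a r := Y_sub (by omega)
  refine ⟨⟨w, Y a r * u⟩, u, q, ?_, ⟨⟨u, rfl⟩, ⟨q, hBz⟩⟩, hu, hq, ?_⟩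
  · intro h0
    have hw0 : w = 0 := by simpa using congrArg Zsqrtd.re h0
    have hu0 : Y a r * u = 0 := by simpa using congrArg Zsqrtd.im h0
    have hu1 : u = 0 := (mul_eq_zero.1 hu0).resolve_left hYr.ne'
    have hq1 : q = 0 := by
      rw [hw0, hu1] at hw
      have : X a r * q = 0 := by linarith
      exact (mul_eq_zero.1 this).resolve_left hXr.ne'
    apply hx
    apply Zsqrtd.ext
    · rw [hu1, hq1] at hre
      have : Y a j * x.re = 0 := by rw [hre]; ring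
      simpa using (mul_eq_zero.1 this).resolve_left hYj.ne'
    · rw [hu, hu1]; simp
  · rw [Zsqrtd.norm_def, Zsqrtd.norm_def, hΔ]
    have hp := pell a j
    have hz1 : Y a j * w = X a j * Y a r * u - X a r * q := hw.symm
    have e1 : Y a j ^ 2 * (w * w - DD a * (Y a r * u) * (Y a r * u)) =
        Y a r ^ 2 * u ^ 2 - 2 * X a j * X a r * Y a r * u * q + X a r ^ 2 * q ^ 2 := by
      have : Y a j ^ 2 * (w * w - DD a * (Y a r * u) * (Y a r * u)) =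
          (Y a j * w) ^ 2 - DD a * Y a j ^ 2 * (Y a r * u) ^ 2 := by ring
      rw [this, hz1]
      linear_combination (Y a r ^ 2 * u ^ 2) * hp
    have e2 : Y a j ^ 2 * (x.re * x.re - DD a * x.im * x.im) =
        Y a t ^ 2 * u ^ 2 - 2 * X a j * X a t * Y a t * u * q + X a t ^ 2 * q ^ 2 := by
      have : Y a j ^ 2 * (x.re * x.re - DD a * x.im * x.im) =
          (Y a j * x.re) ^ 2 - DD a * Y a j ^ 2 * x.im ^ 2 := by ring
      rw [this, hre, hu]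
      linear_combination (Y a t ^ 2 * u ^ 2) * hp
    have e3 : Y a j ^ 2 * ((w * w - DD a * (Y a r * u) * (Y a r * u)) * (X a t * Y a t) -
        (x.re * x.re - DD a * x.im * x.im) * (X a r * Y a r)) =
        (Y a j ^ 2 * (w * w - DD a * (Y a r * u) * (Y a r * u))) * (X a t * Y a t) -
        (Y a j ^ 2 * (x.re * x.re - DD a * x.im * x.im)) * (X a r * Y a r) := by ring
    show Y a j ^ 2 * ((w * w - DD a * (Y a r * u) * (Y a r * u)) * (X a t * Y a t) -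
        (x.re * x.re - DD a * x.im * x.im) * (X a r * Y a r)) = _
    rw [e3, e1, e2]
    ring

/-- The real inequality. -/
theorem DB_real {n M Nx Nz Xt Yt Xr Yr Yj D Δ u q F : ℝ} (hXt : 0 < Xt) (hYt : 0 < Yt)
    (hXr : 0 < Xr) (hYr : 0 < Yr) (hYj : 0 < Yj) (hΔ : 0 ≤ Δ) (hF : 0 < F)
    (hn : |Nx| = n) (hM : |Nz| = M)
    (hu : u ^ 2 * Yt ^ 2 ≤ 16 * n * Yj ^ 2) (hq : q ^ 2 * Xt ^ 2 ≤ 16 * n * Yj ^ 2)
    (h1 : Δ * (D * Yr) ≤ Xt) (h2 : Δ * Xr ≤ Yt) (h3 : 3 / 4 * F ≤ D * Yr ^ 2) (h4 : F ≤ Xr ^ 2)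
    (hid : Yj ^ 2 * (Nz * (Xt * Yt) - Nx * (Xr * Yr)) =
      Δ * (q ^ 2 * Xr * Xt - u ^ 2 * Yr * Yt)) :
    M * (Xt * Yt) ≤ n * (Xr * Yr) * (1 + 40 / F) := by
  have hn0 : 0 ≤ n := hn ▸ abs_nonneg _
  set P := Δ * (q ^ 2 * Xr * Xt) with hP
  set Q := Δ * (u ^ 2 * Yr * Yt) with hQ
  have hP0 : 0 ≤ P := by positivity
  have hQ0 : 0 ≤ Q := by positivity
  have hP1 : P * (D * Yr ^ 2) ≤ 16 * n * Yj ^ 2 * (Xr * Yr) := by
    calc P * (D * Yr ^ 2) = (q ^ 2 * Xr * Xt * Yr) * (Δ * (D * Yr)) := by rw [hP]; ring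
      _ ≤ (q ^ 2 * Xr * Xt * Yr) * Xt := by
        apply mul_le_mul_of_nonneg_left h1; positivity
      _ = (q ^ 2 * Xt ^ 2) * (Xr * Yr) := by ring
      _ ≤ (16 * n * Yj ^ 2) * (Xr * Yr) := by
        apply mul_le_mul_of_nonneg_right hq; positivity
  have hP2 : P * (3 / 4 * F) ≤ 16 * n * Yj ^ 2 * (Xr * Yr) :=
    le_trans (mul_le_mul_of_nonneg_left h3 hP0) hP1
  have hQ1 : Q * Xr ^ 2 ≤ 16 * n * Yj ^ 2 * (Xr * Yr) := by
    calc Q * Xr ^ 2 = (u ^ 2 * Yr * Yt * Xr) * (Δ * Xr) := by rw [hQ]; ring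
      _ ≤ (u ^ 2 * Yr * Yt * Xr) * Yt := by
        apply mul_le_mul_of_nonneg_left h2; positivity
      _ = (u ^ 2 * Yt ^ 2) * (Xr * Yr) := by ring
      _ ≤ (16 * n * Yj ^ 2) * (Xr * Yr) := by
        apply mul_le_mul_of_nonneg_right hu; positivity
  have hQ2 : Q * F ≤ 16 * n * Yj ^ 2 * (Xr * Yr) :=
    le_trans (mul_le_mul_of_nonneg_left h4 hQ0) hQ1
  set W := n * Yj ^ 2 * (Xr * Yr) with hW
  have hW0 : 0 ≤ W := by positivity
  have hPQ : (P + Q) * F ≤ 40 * W := by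
    have e1 : 16 * n * Yj ^ 2 * (Xr * Yr) = 16 * W := by rw [hW]; ring
    rw [e1] at hP2 hQ2
    nlinarith
  have hPQ' : P + Q ≤ W * (40 / F) := by
    rw [mul_div_assoc', le_div_iff₀ hF]
    linarith
  -- `Y_j² |N z| X_t Y_t ≤ W + P + Q`
  have hmain : Yj ^ 2 * (M * (Xt * Yt)) ≤ W + (P + Q) := by
    have e1 : Yj ^ 2 * (Nz * (Xt * Yt)) = Yj ^ 2 * (Nx * (Xr * Yr)) + (P - Q) := by
      rw [hP, hQ]; linarith
    have e2 : Yj ^ 2 * (M * (Xt * Yt)) = |Yj ^ 2 * (Nz * (Xt * Yt))| := by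
      rw [abs_mul, abs_mul, hM, abs_of_pos (by positivity : (0 : ℝ) < Yj ^ 2),
        abs_of_pos (by positivity : (0 : ℝ) < Xt * Yt)]
    have e3 : |Yj ^ 2 * (Nx * (Xr * Yr))| = W := by
      rw [abs_mul, abs_mul, hn, abs_of_pos (by positivity : (0 : ℝ) < Yj ^ 2),
        abs_of_pos (by positivity : (0 : ℝ) < Xr * Yr), hW]
      ring
    rw [e2, e1]
    refine (abs_add_le _ _).trans ?_
    rw [e3]
    have : |P - Q| ≤ P + Q := by
      rw [abs_le]; constructor <;> linarith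
    linarith
  have hY2 : 0 < Yj ^ 2 := by positivity
  refine le_of_mul_le_mul_left ?_ hY2
  calc Yj ^ 2 * (M * (Xt * Yt)) ≤ W + (P + Q) := hmain
    _ ≤ W + W * (40 / F) := by linarith
    _ = Yj ^ 2 * (n * (Xr * Yr) * (1 + 40 / F)) := by rw [hW]; ring

theorem descB {a t j r k : ℕ} (ha : 2 ≤ a) (hr : 1 ≤ r) (hrj : r < j) (hk : 1 ≤ k)
    (ht : t = r + k * j) {x : ℤ√(DD a)} (hx : x ≠ 0) (hL : LB a t j x)
    (h1 : |ps a x| ≤ |ph a x|) (h2 : |ph a x| ≤ eps a ^ (2 * j) * |ps a x|) :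
    ∃ z : ℤ√(DD a), z ≠ 0 ∧ LB a r j z ∧
      |(z.norm : ℝ)| * ((X a t : ℝ) * Y a t) ≤
        |(x.norm : ℝ)| * ((X a r : ℝ) * Y a r) * (1 + 40 / 4 ^ r) := by
  obtain ⟨z, u, q, hz, hLz, hu, hq, hid⟩ := DB_point ha hr hrj ht hx hL
  refine ⟨z, hz, hLz, ?_⟩
  have hD : (3 : ℝ) ≤ (DD a : ℝ) := by exact_mod_cast DD_pos ha
  have hXt : (0 : ℝ) < X a t := by exact_mod_cast X_pos ha t
  have hXr : (0 : ℝ) < X a r := by exact_mod_cast X_pos ha r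
  have hYt : (0 : ℝ) < Y a t := by exact_mod_cast Y_pos ha (by omega)
  have hYr : (0 : ℝ) < Y a r := by exact_mod_cast Y_pos ha hr
  have hYj : (0 : ℝ) < Y a j := by exact_mod_cast Y_pos ha (by omega)
  have hΔ0 : (0 : ℝ) ≤ Y a (t - r) := by exact_mod_cast Y_nonneg ha _
  have hX0 : (0 : ℝ) ≤ X a (t - r) := by exact_mod_cast (X_pos ha (t - r)).le
  have htr : (t - r) + r = t := by omega
  have hX := X_add a (t - r) r
  have hY := Y_add a (t - r) r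
  rw [htr] at hX hY
  have hX' : (X a t : ℝ) = X a (t - r) * X a r + DD a * (Y a (t - r) * Y a r) := by
    exact_mod_cast hX
  have hY' : (Y a t : ℝ) = X a (t - r) * Y a r + Y a (t - r) * X a r := by exact_mod_cast hY
  have hpr : (X a r : ℝ) ^ 2 - DD a * (Y a r : ℝ) ^ 2 = 1 := by exact_mod_cast pell a r
  have h2r : (2 : ℝ) ^ r ≤ X a r := by exact_mod_cast two_pow_le_X ha r
  have h4 : (4 : ℝ) ^ r ≤ (X a r : ℝ) ^ 2 := by
    have e : (4 : ℝ) ^ r = (2 ^ r) ^ 2 := by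
      rw [← pow_mul, mul_comm, pow_mul]; norm_num
    rw [e]
    exact pow_le_pow_left₀ (by positivity) h2r 2
  have h4' : (4 : ℝ) ≤ 4 ^ r := by
    calc (4 : ℝ) = 4 ^ 1 := (pow_one _).symm
      _ ≤ 4 ^ r := pow_le_pow_right₀ (by norm_num) hr
  have hE : eps a ^ (2 * j) ≤ 16 * (DD a : ℝ) * (Y a j : ℝ) ^ 2 := by
    have e1 := eps_pow_le_Y (n := j) ha (by omega)
    have e0 : 0 ≤ eps a ^ j := pow_nonneg (by linarith [two_le_eps ha]) j
    have e2 := pow_le_pow_left₀ e0 e1 2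
    rw [← pow_mul, mul_comm j 2] at e2
    have e3 := sq_mul_self ha
    calc eps a ^ (2 * j) ≤ (4 * MC.sq a * (Y a j : ℝ)) ^ 2 := e2
      _ = 16 * (MC.sq a * MC.sq a) * (Y a j : ℝ) ^ 2 := by ring
      _ = _ := by rw [e3]
  have hn0 : 0 ≤ |(x.norm : ℝ)| := abs_nonneg _
  have hub : (u : ℝ) ^ 2 * (Y a t : ℝ) ^ 2 ≤ 16 * |(x.norm : ℝ)| * (Y a j : ℝ) ^ 2 := by
    have e1 := im_bd ha h1 h2
    rw [hu, Int.cast_mul] at e1
    have e2 : |(x.norm : ℝ)| * eps a ^ (2 * j) ≤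
        |(x.norm : ℝ)| * (16 * (DD a : ℝ) * (Y a j : ℝ) ^ 2) :=
      mul_le_mul_of_nonneg_left hE hn0
    have e3 : ((u : ℝ) ^ 2 * (Y a t : ℝ) ^ 2) * (DD a : ℝ) ≤
        (16 * |(x.norm : ℝ)| * (Y a j : ℝ) ^ 2) * (DD a : ℝ) := by
      calc ((u : ℝ) ^ 2 * (Y a t : ℝ) ^ 2) * (DD a : ℝ)
          = ((Y a t : ℝ) * (u : ℝ)) ^ 2 * (DD a : ℝ) := by ring
        _ ≤ _ := e1.trans e2
        _ = _ := by ring
    exact le_of_mul_le_mul_right e3 (by linarith)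
  have hqb : (q : ℝ) ^ 2 * (X a t : ℝ) ^ 2 ≤ 16 * |(x.norm : ℝ)| * (Y a j : ℝ) ^ 2 := by
    have e1 := B_bd ha h1 h2
    rw [hq, Int.cast_mul] at e1
    have e2 : |(x.norm : ℝ)| * eps a ^ (2 * j) ≤
        |(x.norm : ℝ)| * (16 * (DD a : ℝ) * (Y a j : ℝ) ^ 2) :=
      mul_le_mul_of_nonneg_left hE hn0
    have e3 : ((q : ℝ) ^ 2 * (X a t : ℝ) ^ 2) * (DD a : ℝ) ≤
        (16 * |(x.norm : ℝ)| * (Y a j : ℝ) ^ 2) * (DD a : ℝ) := by
      calc ((q : ℝ) ^ 2 * (X a t : ℝ) ^ 2) * (DD a : ℝ)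
          = ((X a t : ℝ) * (q : ℝ)) ^ 2 * (DD a : ℝ) := by ring
        _ ≤ _ := e1.trans e2
        _ = _ := by ring
    exact le_of_mul_le_mul_right e3 (by linarith)
  refine DB_real (D := (DD a : ℝ)) (Δ := (Y a (t - r) : ℝ)) (u := (u : ℝ)) (q := (q : ℝ))
    hXt hYt hXr hYr hYj hΔ0 (by positivity) rfl rfl hub hqb ?_ ?_ ?_ h4 ?_
  · have : 0 ≤ (X a (t - r) : ℝ) * X a r := by positivity
    rw [hX']
    linarith
  · have : 0 ≤ (X a (t - r) : ℝ) * Y a r := by positivity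
    rw [hY']
    linarith
  · linarith
  · exact_mod_cast hid

end Pool.Agent.Helper65.KG
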