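import Mathlib
import Pool.Agent.Helper20.MC.Defs

/-!
Project KG (MP_277ac5_nt): cubic growth of the number of purely periodic continued fractions with
bounded quotients in a fixed real quadratic field.  Definitions and Pell facts.

D = a² - 1, R = ℤ[√D], e = a + √D, e ^ n = X n + Y n √D,
B j x = im (x * star e ^ j), A j x = re (x * star e ^ j).
-/

namespace Pool.Agent.Helper65.KG

open Pool.Agent.Helper20 Pool.Agent.Helper20.MC

/-- `e = a + √D`. -/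
def e (a : ℕ) : ℤ√(DD a) := ⟨a, 1⟩

/-- Real part of `e ^ n`. -/
def X (a n : ℕ) : ℤ := (e a ^ n).re

/-- Imaginary part of `e ^ n`. -/
def Y (a n : ℕ) : ℤ := (e a ^ n).im

/-- `B_j (x)`. -/
def B (a j : ℕ) (x : ℤ√(DD a)) : ℤ := (x * star (e a) ^ j).im

/-- `A_j (x)`. -/
def A (a j : ℕ) (x : ℤ√(DD a)) : ℤ := (x * star (e a) ^ j).re

/-- Lattice of type B. -/
def LB (a t j : ℕ) (x : ℤ√(DD a)) : Prop := Y a t ∣ x.im ∧ X a t ∣ B a j x

/-- Lattice of type A. -/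
def LA (a t j : ℕ) (x : ℤ√(DD a)) : Prop := Y a t ∣ x.im ∧ X a t ∣ A a j x

/-- The level: `G = Y (2 t) = 2 X t Y t` as a natural number. -/
def G (a t : ℕ) : ℕ := (Y a (2 * t)).toNat

/-- The number of the pair p (with G √D) is y2 / y1 for a basis y1, y2 of the lattice LB a t j. -/
def Rel (a t j : ℕ) (p : ℤ × ℤ) (σ : ℤ) (y1 y2 : ℤ√(DD a)) : Prop :=
  (σ = 1 ∨ σ = -1) ∧ p.2 = 2 * σ * y1.norm ∧
    (⟨p.1, Y a (2 * t)⟩ : ℤ√(DD a)) = ((2 * σ : ℤ) : ℤ√(DD a)) * (y2 * star y1) ∧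
    LB a t j y1 ∧ LB a t j y2 ∧
    ∀ x : ℤ√(DD a), LB a t j x → ∃ m n : ℤ, x = (m : ℤ√(DD a)) * y1 + (n : ℤ√(DD a)) * y2

/-! ### Pell facts -/

theorem X_zero (a : ℕ) : X a 0 = 1 := by simp [X]

theorem Y_zero (a : ℕ) : Y a 0 = 0 := by simp [Y]

theorem X_one (a : ℕ) : X a 1 = a := by simp [X, e]

theorem Y_one (a : ℕ) : Y a 1 = 1 := by simp [Y, e]

theorem e_pow (a n : ℕ) : e a ^ n = ⟨X a n, Y a n⟩ := by
  apply Zsqrtd.ext <;> simp [X, Y]

theorem X_add (a m n : ℕ) : X a (m + n) = X a m * X a n + DD a * (Y a m * Y a n) := by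
  unfold X Y
  rw [pow_add, Zsqrtd.re_mul]
  ring

theorem Y_add (a m n : ℕ) : Y a (m + n) = X a m * Y a n + Y a m * X a n := by
  unfold X Y
  rw [pow_add, Zsqrtd.im_mul]

theorem X_succ (a n : ℕ) : X a (n + 1) = a * X a n + DD a * Y a n := by
  rw [X_add, X_one, Y_one]
  ring

theorem Y_succ (a n : ℕ) : Y a (n + 1) = a * Y a n + X a n := by
  rw [Y_add, X_one, Y_one]
  ring

theorem pell (a n : ℕ) : X a n ^ 2 - DD a * Y a n ^ 2 = 1 := by
  induction n with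
  | zero => simp [X_zero, Y_zero]
  | succ n ih =>
    rw [X_succ, Y_succ]
    have h : ((a : ℤ) * X a n + DD a * Y a n) ^ 2 - DD a * (a * Y a n + X a n) ^ 2 =
        ((a : ℤ) ^ 2 - DD a) * (X a n ^ 2 - DD a * Y a n ^ 2) := by ring
    rw [h, ih]
    simp [DD]

theorem DD_pos {a : ℕ} (ha : 2 ≤ a) : 3 ≤ DD a := by
  have h : (2 : ℤ) ≤ a := by exact_mod_cast ha
  simp only [DD]
  nlinarith

theorem XY_nonneg {a : ℕ} (ha : 2 ≤ a) (n : ℕ) : 0 < X a n ∧ 0 ≤ Y a n := by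
  have h3 := DD_pos ha
  have h : (2 : ℤ) ≤ a := by exact_mod_cast ha
  induction n with
  | zero => simp [X_zero, Y_zero]
  | succ n ih =>
    obtain ⟨h1, h2⟩ := ih
    rw [X_succ, Y_succ]
    constructor
    · have : 0 ≤ DD a * Y a n := mul_nonneg (by linarith) h2
      have : 0 < (a : ℤ) * X a n := mul_pos (by linarith) h1
      linarith
    · have : 0 ≤ (a : ℤ) * Y a n := mul_nonneg (by linarith) h2
      linarith

theorem X_pos {a : ℕ} (ha : 2 ≤ a) (n : ℕ) : 0 < X a n := (XY_nonneg ha n).1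

theorem Y_nonneg {a : ℕ} (ha : 2 ≤ a) (n : ℕ) : 0 ≤ Y a n := (XY_nonneg ha n).2

theorem X_lt_succ {a : ℕ} (ha : 2 ≤ a) (n : ℕ) : 2 * X a n ≤ X a (n + 1) := by
  have h3 := DD_pos ha
  have h : (2 : ℤ) ≤ a := by exact_mod_cast ha
  have h1 := X_pos ha n
  have h2 := Y_nonneg ha n
  rw [X_succ]
  nlinarith [mul_nonneg (by linarith : (0 : ℤ) ≤ DD a) h2]

theorem Y_lt_succ {a : ℕ} (ha : 2 ≤ a) (n : ℕ) : 2 * Y a n < Y a (n + 1) := by
  have h : (2 : ℤ) ≤ a := by exact_mod_cast ha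
  have h1 := X_pos ha n
  have h2 := Y_nonneg ha n
  rw [Y_succ]
  nlinarith

theorem X_strictMono {a : ℕ} (ha : 2 ≤ a) : StrictMono (X a) :=
  strictMono_nat_of_lt_succ (fun n => by
    have := X_lt_succ ha n
    have := X_pos ha n
    linarith)

theorem Y_strictMono {a : ℕ} (ha : 2 ≤ a) : StrictMono (Y a) :=
  strictMono_nat_of_lt_succ (fun n => by
    have := Y_lt_succ ha n
    have := Y_nonneg ha n
    linarith)

theorem Y_pos {a n : ℕ} (ha : 2 ≤ a) (hn : 1 ≤ n) : 0 < Y a n := by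
  have h := Y_strictMono ha (show 0 < n by omega)
  rwa [Y_zero] at h

theorem two_pow_le_X {a : ℕ} (ha : 2 ≤ a) (n : ℕ) : (2 : ℤ) ^ n ≤ X a n := by
  induction n with
  | zero => simp [X_zero]
  | succ n ih =>
    have := X_lt_succ ha n
    rw [pow_succ]
    linarith

theorem two_pow_le_Y {a : ℕ} (ha : 2 ≤ a) (n : ℕ) : (2 : ℤ) ^ n ≤ Y a (n + 1) := by
  induction n with
  | zero => simp [Y_one]
  | succ n ih =>
    have := Y_lt_succ ha (n + 1)
    rw [pow_succ]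
    linarith

theorem Y_lt_X {a : ℕ} (ha : 2 ≤ a) (n : ℕ) : Y a n < X a n := by
  have h3 := DD_pos ha
  have h1 := X_pos ha n
  have h2 := Y_nonneg ha n
  have h4 := pell a n
  by_contra hc
  push Not at hc
  nlinarith [mul_le_mul hc hc h1.le h2, mul_nonneg h2 h2]

theorem XY_coprime (a n : ℕ) : IsCoprime (X a n) (Y a n) :=
  ⟨X a n, -(DD a * Y a n), by have := pell a n; linarith⟩

theorem X_two_mul (a n : ℕ) : X a (2 * n) = 2 * X a n ^ 2 - 1 := by
  rw [two_mul, X_add]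
  have := pell a n
  linarith

theorem Y_two_mul (a n : ℕ) : Y a (2 * n) = 2 * (X a n * Y a n) := by
  rw [two_mul, Y_add]
  ring

theorem X_sub {a m n : ℕ} (h : n ≤ m) :
    X a (m - n) = X a m * X a n - DD a * (Y a m * Y a n) := by
  obtain ⟨k, rfl⟩ := Nat.exists_eq_add_of_le h
  have h1 := pell a n
  rw [Nat.add_sub_cancel_left, X_add, Y_add]
  have h2 : X a k = X a k * (X a n ^ 2 - DD a * Y a n ^ 2) := by rw [h1, mul_one]
  linear_combination h2

theorem Y_sub {a m n : ℕ} (h : n ≤ m) :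
    Y a (m - n) = Y a m * X a n - X a m * Y a n := by
  obtain ⟨k, rfl⟩ := Nat.exists_eq_add_of_le h
  have h1 := pell a n
  rw [Nat.add_sub_cancel_left, X_add, Y_add]
  have h2 : Y a k = Y a k * (X a n ^ 2 - DD a * Y a n ^ 2) := by rw [h1, mul_one]
  linear_combination h2

theorem star_e_pow (a j : ℕ) : star (e a) ^ j = ⟨X a j, -Y a j⟩ := by
  rw [← star_pow, e_pow]
  rfl

theorem e_mul_star (a n : ℕ) : e a ^ n * star (e a) ^ n = 1 := by
  rw [e_pow, star_e_pow]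
  have := pell a n
  apply Zsqrtd.ext
  · simp only [Zsqrtd.re_mul, Zsqrtd.re_one]
    linarith
  · simp only [Zsqrtd.im_mul, Zsqrtd.im_one]
    ring

theorem B_eq (a j : ℕ) (x : ℤ√(DD a)) : B a j x = X a j * x.im - Y a j * x.re := by
  unfold B
  rw [star_e_pow, Zsqrtd.im_mul]
  ring

theorem A_eq (a j : ℕ) (x : ℤ√(DD a)) : A a j x = X a j * x.re - DD a * (Y a j * x.im) := by
  unfold A
  rw [star_e_pow, Zsqrtd.re_mul]
  ring

theorem G_cast {a : ℕ} (ha : 2 ≤ a) (t : ℕ) : (G a t : ℤ) = Y a (2 * t) :=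
  Int.toNat_of_nonneg (Y_nonneg ha _)

theorem G_pos {a t : ℕ} (ha : 2 ≤ a) (ht : 1 ≤ t) : 1 ≤ G a t := by
  have h := Y_pos ha (show 1 ≤ 2 * t by omega)
  rw [← G_cast ha t] at h
  exact_mod_cast h

/-! ### Real embeddings -/

theorem sq_pos {a : ℕ} (ha : 2 ≤ a) : 0 < MC.sq a := by
  unfold MC.sq
  apply Real.sqrt_pos.2
  have h : (2 : ℝ) ≤ a := by exact_mod_cast ha
  nlinarith

theorem sq_mul_self {a : ℕ} (ha : 2 ≤ a) : MC.sq a * MC.sq a = (DD a : ℝ) := by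
  have h : (2 : ℝ) ≤ a := by exact_mod_cast ha
  unfold MC.sq
  rw [Real.mul_self_sqrt (by nlinarith)]
  simp [DD]

theorem ph_mul {a : ℕ} (ha : 2 ≤ a) (x y : ℤ√(DD a)) : ph a (x * y) = ph a x * ph a y := by
  have h := sq_mul_self ha
  unfold ph
  rw [Zsqrtd.re_mul, Zsqrtd.im_mul]
  push_cast at h ⊢
  linear_combination (-((x.im : ℝ) * y.im)) * h

theorem ps_mul {a : ℕ} (ha : 2 ≤ a) (x y : ℤ√(DD a)) : ps a (x * y) = ps a x * ps a y := by
  have h := sq_mul_self ha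
  unfold ps
  rw [Zsqrtd.re_mul, Zsqrtd.im_mul]
  push_cast at h ⊢
  linear_combination (-((x.im : ℝ) * y.im)) * h

theorem ph_star (a : ℕ) (x : ℤ√(DD a)) : ph a (star x) = ps a x := by
  simp [ph, ps, sub_eq_add_neg]

theorem ps_star (a : ℕ) (x : ℤ√(DD a)) : ps a (star x) = ph a x := by
  simp [ph, ps]

theorem ph_mul_ps {a : ℕ} (ha : 2 ≤ a) (x : ℤ√(DD a)) : ph a x * ps a x = (x.norm : ℝ) := by
  have h := sq_mul_self ha
  unfold ph ps
  rw [Zsqrtd.norm_def]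
  push_cast at h ⊢
  linear_combination (-((x.im : ℝ) ^ 2)) * h

theorem ph_one (a : ℕ) : ph a 1 = 1 := by simp [ph]

theorem ps_one (a : ℕ) : ps a 1 = 1 := by simp [ps]

theorem ph_pow {a : ℕ} (ha : 2 ≤ a) (x : ℤ√(DD a)) (n : ℕ) : ph a (x ^ n) = ph a x ^ n := by
  induction n with
  | zero => simp [ph_one]
  | succ n ih => rw [pow_succ, ph_mul ha, ih, pow_succ]

theorem ps_pow {a : ℕ} (ha : 2 ≤ a) (x : ℤ√(DD a)) (n : ℕ) : ps a (x ^ n) = ps a x ^ n := by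
  induction n with
  | zero => simp [ps_one]
  | succ n ih => rw [pow_succ, ps_mul ha, ih, pow_succ]

theorem ph_e (a : ℕ) : ph a (e a) = eps a := by simp [ph, e, eps]

theorem ph_e_pow {a : ℕ} (ha : 2 ≤ a) (n : ℕ) : ph a (e a ^ n) = eps a ^ n := by
  rw [ph_pow ha, ph_e]



theorem eps_mul_ps {a : ℕ} (ha : 2 ≤ a) : eps a * ps a (e a) = 1 := by
  rw [← ph_e, ph_mul_ps ha]
  simp [Zsqrtd.norm_def, e, DD]
  ring

theorem two_le_eps {a : ℕ} (ha : 2 ≤ a) : 3 ≤ eps a := by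
  have h1 := sq_pos ha
  have h2 := sq_mul_self ha
  have h : (2 : ℝ) ≤ a := by exact_mod_cast ha
  have h3 : (3 : ℝ) ≤ (DD a : ℝ) := by exact_mod_cast DD_pos ha
  unfold eps
  nlinarith

theorem eps_le {a : ℕ} (ha : 2 ≤ a) : eps a ≤ 2 * a := by
  have h1 := sq_pos ha
  have h2 := sq_mul_self ha
  have h : (2 : ℝ) ≤ a := by exact_mod_cast ha
  have h3 : (DD a : ℝ) ≤ a ^ 2 := by simp [DD]
  unfold eps
  nlinarith

theorem ps_e_pow {a : ℕ} (ha : 2 ≤ a) (n : ℕ) : ps a (e a ^ n) * eps a ^ n = 1 := by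
  rw [ps_pow ha, ← mul_pow, mul_comm, eps_mul_ps ha, one_pow]

/-- `ε ^ n ≤ 2 X n`. -/
theorem eps_pow_le_X {a : ℕ} (ha : 2 ≤ a) (n : ℕ) : eps a ^ n ≤ 2 * (X a n : ℝ) := by
  have h1 := ps_e_pow ha n
  have h0 : 0 < eps a ^ n := pow_pos (by linarith [two_le_eps ha]) n
  have h2 : 0 < ps a (e a ^ n) := by
    by_contra hc
    push Not at hc
    nlinarith
  have h3 : ph a (e a ^ n) + ps a (e a ^ n) = 2 * (X a n : ℝ) := by
    unfold ph ps X
    ring
  rw [ph_e_pow ha] at h3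
  linarith

/-- `ε ^ n ≤ 4 √D Y n` for `n ≥ 1`. -/
theorem eps_pow_le_Y {a n : ℕ} (ha : 2 ≤ a) (hn : 1 ≤ n) : eps a ^ n ≤ 4 * MC.sq a * (Y a n : ℝ) := by
  have h1 := ps_e_pow ha n
  have h0 : 3 ≤ eps a ^ n := by
    have h3 := two_le_eps ha
    calc (3 : ℝ) ≤ eps a := h3
      _ = eps a ^ 1 := (pow_one _).symm
      _ ≤ eps a ^ n := pow_le_pow_right₀ (by linarith) hn
  have h2 : ps a (e a ^ n) ≤ 1 := by
    by_contra hc
    push Not at hc
    nlinarith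
  have h3 : ph a (e a ^ n) - ps a (e a ^ n) = 2 * MC.sq a * (Y a n : ℝ) := by
    unfold ph ps Y
    ring
  rw [ph_e_pow ha] at h3
  linarith

theorem ph_inj {a : ℕ} (ha : 2 ≤ a) {x y : ℤ√(DD a)} (h : ph a x = ph a y) : x = y := by
  have hirr : Irrational (MC.sq a) := by
    have h1 : (a : ℝ) ^ 2 - 1 = ((a ^ 2 - 1 : ℕ) : ℝ) := by
      rw [Nat.cast_sub (Nat.one_le_pow _ _ (by omega))]
      simp
    unfold MC.sq
    rw [h1, irrational_sqrt_natCast_iff]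
    rintro ⟨b, hb⟩
    have h2 : a ^ 2 = b * b + 1 := by
      have h3 : 1 ≤ a ^ 2 := Nat.one_le_pow _ _ (by omega)
      omega
    have h4 : b < a := by
      by_contra hcon
      push Not at hcon
      nlinarith
    nlinarith
  have him : x.im = y.im := by
    by_contra hne
    have h1 : (x.im : ℝ) - y.im ≠ 0 := by
      intro h0
      apply hne
      have : (x.im : ℝ) = y.im := by linarith
      exact_mod_cast this
    have h2 : MC.sq a = (((y.re - x.re : ℤ) : ℚ) / ((x.im - y.im : ℤ) : ℚ) : ℚ) := by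
      push_cast
      rw [eq_div_iff h1]
      unfold ph at h
      linarith
    exact hirr ⟨_, h2.symm⟩
  apply Zsqrtd.ext _ him
  unfold ph at h
  rw [him] at h
  have : (x.re : ℝ) = y.re := by linarith
  exact_mod_cast this

theorem ph_ne {a : ℕ} (ha : 2 ≤ a) {x : ℤ√(DD a)} (hx : x ≠ 0) : ph a x ≠ 0 := by
  intro h
  apply hx
  apply ph_inj ha
  rw [h]
  simp [ph]

theorem ps_ne {a : ℕ} (ha : 2 ≤ a) {x : ℤ√(DD a)} (hx : x ≠ 0) : ps a x ≠ 0 := by
  rw [← ph_star]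
  apply ph_ne ha
  intro h
  apply hx
  rw [← star_star x, h, star_zero]

end Pool.Agent.Helper65.KG
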