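import Pool.Agent.Helper65.KG.Defs

/-!
Project KG, module Rd: normalisation.  Let C t j x be LB a t j x ∨ LA a t j x.
(c1) C t j x → C t j (x * e ^ t) and → C t j (x * star e ^ t) (type B goes to type A and
conversely): for y = x * star e ^ j, im (y * e ^ t) = y.re Y_t + y.im X_t,
re (y * e ^ t) = y.re X_t + D y.im Y_t; also Y_t ∣ im.
(c2) C t (j + t) x ↔ C t j x (same computation: star e ^ (j + t) = star e ^ j * star e ^ t; for
the converse multiply back, or use that X_t is prime to Y_t and to D Y_t).  So we may assume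
j < t (replace j by j % t), and j % t ≥ 1 since t ≥ 2 and j is prime to t.
(c3) choose m : ℤ with ε^(2 t m) |ps x| ≤ |ph x| < ε^(2 t (m+1)) |ps x| (exists_mem_Ico_zpow
or induction) and multiply by star e ^ (t m) resp. e ^ (t |m|): now
|ps x| ≤ |ph x| ≤ ε^(2t) |ps x|.
(c4) if |ph x| ≤ ε^(2j) |ps x| we are done.  Otherwise put x' = star (x * star e ^ t),
j' = t - j: Y_t ∣ im; x' * star e ^ (t-j) = star (x * star e ^ t * e ^ (t-j)) =
star (x * star e ^ j) (e_mul_star), so B_(t-j) x' = - B_j x, A_(t-j) x' = A_j x;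
|ph x'| = ε^t |ps x|, |ps x'| = |ph x| / ε^t.
-/

namespace Pool.Agent.Helper65.KG

open Pool.Agent.Helper20 Pool.Agent.Helper20.MC

/-- union of the two types -/
def Rd_C (a t j : ℕ) (x : ℤ√(DD a)) : Prop := LB a t j x ∨ LA a t j x

theorem Rd_mul {a t j : ℕ} {x w : ℤ√(DD a)} (h1 : X a t ∣ w.re) (h2 : Y a t ∣ w.im)
    (h : Rd_C a t j x) : Rd_C a t j (x * w) := by
  have key : x * w * star (e a) ^ j = (x * star (e a) ^ j) * w := by ring
  have him : Y a t ∣ x.im → Y a t ∣ (x * w).im := by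
    intro hx
    rw [Zsqrtd.im_mul]
    exact dvd_add (Dvd.dvd.mul_left h2 _) (Dvd.dvd.mul_right hx _)
  rcases h with ⟨hx, hB⟩ | ⟨hx, hA⟩
  · refine Or.inr ⟨him hx, ?_⟩
    unfold A
    unfold B at hB
    rw [key, Zsqrtd.re_mul]
    exact dvd_add (Dvd.dvd.mul_left h1 _) (Dvd.dvd.mul_right (Dvd.dvd.mul_left hB _) _)
  · refine Or.inl ⟨him hx, ?_⟩
    unfold B
    unfold A at hA
    rw [key, Zsqrtd.im_mul]
    exact dvd_add (Dvd.dvd.mul_right hA _) (Dvd.dvd.mul_left h1 _)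

theorem Rd_mul_pow {a t j : ℕ} {x w : ℤ√(DD a)} (h1 : X a t ∣ w.re) (h2 : Y a t ∣ w.im)
    (h : Rd_C a t j x) (n : ℕ) : Rd_C a t j (x * w ^ n) := by
  induction n with
  | zero => simpa using h
  | succ n ih =>
    rw [pow_succ, ← mul_assoc]
    exact Rd_mul h1 h2 ih

theorem Rd_sub {a t j : ℕ} {x : ℤ√(DD a)} (h : Rd_C a t (j + t) x) : Rd_C a t j x := by
  have key : x * star (e a) ^ j = (x * star (e a) ^ (j + t)) * e a ^ t := by
    rw [pow_add]
    linear_combination (-(x * star (e a) ^ j)) * e_mul_star a t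
  rcases h with ⟨hx, hB⟩ | ⟨hx, hA⟩
  · refine Or.inr ⟨hx, ?_⟩
    unfold A
    unfold B at hB
    rw [key, Zsqrtd.re_mul]
    exact dvd_add (Dvd.dvd.mul_left (dvd_refl _) _)
      (Dvd.dvd.mul_right (Dvd.dvd.mul_left hB _) _)
  · refine Or.inl ⟨hx, ?_⟩
    unfold B
    unfold A at hA
    rw [key, Zsqrtd.im_mul]
    exact dvd_add (Dvd.dvd.mul_right hA _) (Dvd.dvd.mul_left (dvd_refl _) _)

theorem Rd_mod {a t : ℕ} {x : ℤ√(DD a)} (r q : ℕ) (h : Rd_C a t (r + t * q) x) :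
    Rd_C a t r x := by
  induction q with
  | zero => simpa using h
  | succ q ih =>
    apply ih
    apply Rd_sub
    rwa [mul_add, mul_one, ← add_assoc] at h

theorem Rd_norm_e (a n : ℕ) : (e a ^ n).norm = 1 := by
  rw [e_pow, Zsqrtd.norm_def]
  have := pell a n
  linarith

theorem Rd_norm_se (a n : ℕ) : (star (e a) ^ n).norm = 1 := by
  rw [← star_pow, Zsqrtd.norm_conj]
  exact Rd_norm_e a n

/-- the units `e ^ (- t n)` -/
theorem Rd_unit {a t : ℕ} (ha : 2 ≤ a) (n : ℤ) :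
    ∃ v : ℤ√(DD a), (∀ j x, Rd_C a t j x → Rd_C a t j (x * v)) ∧ v.norm = 1 ∧
      ph a v = (eps a ^ t) ^ (-n) ∧ ps a v = (eps a ^ t) ^ n := by
  have hse : X a t ∣ (star (e a) ^ t).re ∧ Y a t ∣ (star (e a) ^ t).im := by
    rw [star_e_pow]
    exact ⟨dvd_refl _, (dvd_neg.2 (dvd_refl _))⟩
  have hps : ps a (e a ^ t) = (eps a ^ t)⁻¹ := eq_inv_of_mul_eq_one_left (ps_e_pow ha t)
  obtain ⟨m, rfl | rfl⟩ := n.eq_nat_or_neg
  · refine ⟨(star (e a) ^ t) ^ m, fun j x h => Rd_mul_pow hse.1 hse.2 h m, ?_, ?_, ?_⟩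
    · rw [← pow_mul]
      exact Rd_norm_se a _
    · rw [ph_pow ha, ← star_pow, ph_star, hps, inv_pow, zpow_neg, zpow_natCast]
    · rw [ps_pow ha, ← star_pow, ps_star, ph_e_pow ha, zpow_natCast]
  · refine ⟨(e a ^ t) ^ m, fun j x h => Rd_mul_pow (dvd_refl _) (dvd_refl _) h m, ?_, ?_, ?_⟩
    · rw [← pow_mul]
      exact Rd_norm_e a _
    · rw [ph_pow ha, ph_e_pow ha, neg_neg, zpow_natCast]
    · rw [ps_pow ha, hps, inv_pow, zpow_neg, zpow_natCast]

theorem Rd_range {a t j : ℕ} (ha : 2 ≤ a) (ht : 1 ≤ t) {x : ℤ√(DD a)} (hx : x ≠ 0)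
    (hL : Rd_C a t j x) :
    ∃ x' : ℤ√(DD a), x' ≠ 0 ∧ |x'.norm| = |x.norm| ∧ Rd_C a t j x' ∧
      |ps a x'| ≤ |ph a x'| ∧ |ph a x'| ≤ eps a ^ (2 * t) * |ps a x'| := by
  have hp : 0 < |ph a x| := abs_pos.2 (ph_ne ha hx)
  have hq : 0 < |ps a x| := abs_pos.2 (ps_ne ha hx)
  have he : 1 < eps a := by linarith [two_le_eps ha]
  have hE : 1 < eps a ^ (2 * t) := one_lt_pow₀ he (by omega)
  have het : 0 < eps a ^ t := pow_pos (by linarith) t
  obtain ⟨n, hn1, hn2⟩ := exists_mem_Ico_zpow (div_pos hp hq) hE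
  obtain ⟨v, hv1, hv2, hv3, hv4⟩ := Rd_unit (t := t) ha n
  have hF : 0 < (eps a ^ t) ^ n := zpow_pos het n
  set F : ℝ := (eps a ^ t) ^ n with hFdef
  have hEn : (eps a ^ (2 * t)) ^ n = F * F := by
    rw [hFdef, ← mul_zpow]
    congr 1
    ring
  have hE1 : (eps a ^ (2 * t)) ^ (n + 1) = F * F * eps a ^ (2 * t) := by
    rw [zpow_add_one₀ (by linarith), hEn]
  rw [hEn, le_div_iff₀ hq] at hn1
  rw [hE1, div_lt_iff₀ hq] at hn2
  have hph : |ph a (x * v)| = |ph a x| * F⁻¹ := by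
    rw [ph_mul ha, abs_mul, hv3, zpow_neg, abs_of_pos (inv_pos.2 hF)]
  have hps : |ps a (x * v)| = |ps a x| * F := by
    rw [ps_mul ha, abs_mul, hv4, abs_of_pos hF]
  refine ⟨x * v, ?_, ?_, hv1 j x hL, ?_, ?_⟩
  · intro h
    rw [h] at hps
    have h0 : ps a (0 : ℤ√(DD a)) = 0 := by simp [ps]
    rw [h0, abs_zero] at hps
    have := mul_pos hq hF
    linarith
  · rw [Zsqrtd.norm_mul, hv2, mul_one]
  · rw [hph, hps, ← div_eq_mul_inv, le_div_iff₀ hF]
    linarith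
  · rw [hph, hps, ← div_eq_mul_inv, div_le_iff₀ hF]
    linarith

theorem reduce {a t j : ℕ} (ha : 2 ≤ a) (ht : 2 ≤ t) (hc : Nat.Coprime j t) {x : ℤ√(DD a)}
    (hx : x ≠ 0) (hL : LB a t j x ∨ LA a t j x) :
    ∃ (j' : ℕ) (x' : ℤ√(DD a)), 1 ≤ j' ∧ j' < t ∧ Nat.Coprime j' t ∧ x' ≠ 0 ∧
      |x'.norm| = |x.norm| ∧ (LB a t j' x' ∨ LA a t j' x') ∧
      |ps a x'| ≤ |ph a x'| ∧ |ph a x'| ≤ eps a ^ (2 * j') * |ps a x'| := by
  have hr : Rd_C a t (j % t) x := by
    apply Rd_mod (j % t) (j / t)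
    rw [Nat.mod_add_div]
    exact hL
  have hrt : j % t < t := Nat.mod_lt _ (by omega)
  have hrc : Nat.Coprime (j % t) t := by
    unfold Nat.Coprime at hc ⊢
    rw [← Nat.gcd_rec t j, Nat.gcd_comm]
    exact hc
  have hr1 : 1 ≤ j % t := by
    by_contra h
    have h0 : j % t = 0 := by omega
    rw [h0, Nat.coprime_zero_left] at hrc
    omega
  obtain ⟨x1, hx1, hn1, hC1, hlow, hup⟩ := Rd_range ha (by omega) hx hr
  set r := j % t with hrdef
  by_cases hcase : |ph a x1| ≤ eps a ^ (2 * r) * |ps a x1|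
  · exact ⟨r, x1, hr1, hrt, hrc, hx1, hn1, hC1, hlow, hcase⟩
  · push Not at hcase
    have het : 0 < eps a ^ t := pow_pos (by linarith [two_le_eps ha]) t
    have hps : ps a (e a ^ t) = (eps a ^ t)⁻¹ := eq_inv_of_mul_eq_one_left (ps_e_pow ha t)
    set x2 : ℤ√(DD a) := star (x1 * star (e a) ^ t) with hx2
    have hph2 : |ph a x2| = |ps a x1| * eps a ^ t := by
      rw [hx2, ph_star, ps_mul ha, ← star_pow, ps_star, ph_e_pow ha, abs_mul, abs_of_pos het]
    have hps2 : |ps a x2| = |ph a x1| * (eps a ^ t)⁻¹ := by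
      rw [hx2, ps_star, ph_mul ha, ← star_pow, ph_star, hps, abs_mul, abs_of_pos (inv_pos.2 het)]
    have hkey : x2 * star (e a) ^ (t - r) = star (x1 * star (e a) ^ r) := by
      have h1 : star (e a) ^ t = star (e a) ^ r * star (e a) ^ (t - r) := by
        rw [← pow_add]
        congr 1
        omega
      have h2 : star (star (e a) ^ t) = e a ^ r * e a ^ (t - r) := by
        rw [h1, star_mul', star_pow, star_pow, star_star]
      rw [hx2, star_mul', h2, star_mul', star_pow, star_star]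
      linear_combination (star x1 * e a ^ r) * e_mul_star a (t - r)
    have hA2 : A a (t - r) x2 = A a r x1 := by
      unfold A
      rw [hkey]
      rfl
    have hB2 : B a (t - r) x2 = - B a r x1 := by
      unfold B
      rw [hkey]
      rfl
    have him2 : Y a t ∣ x2.im := by
      have h3 : Y a t ∣ x1.im := by
        rcases hC1 with h | h
        · exact h.1
        · exact h.1
      have h4 : x2.im = - (x1.re * (-Y a t) + x1.im * X a t) := by
        rw [hx2, star_e_pow, Zsqrtd.im_star, Zsqrtd.im_mul]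
      rw [h4]
      exact dvd_neg.2 (dvd_add (Dvd.dvd.mul_left (dvd_neg.2 (dvd_refl _)) _)
        (Dvd.dvd.mul_right h3 _))
    refine ⟨t - r, x2, by omega, by omega, ?_, ?_, ?_, ?_, ?_, ?_⟩
    · exact (Nat.coprime_self_sub_left hrt.le).2 hrc
    · intro h
      rw [h] at hph2
      have h0 : ph a (0 : ℤ√(DD a)) = 0 := by simp [ph]
      rw [h0, abs_zero] at hph2
      have := mul_pos (abs_pos.2 (ps_ne ha hx1)) het
      linarith
    · rw [hx2, Zsqrtd.norm_conj, Zsqrtd.norm_mul, Rd_norm_se, mul_one, hn1]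
    · rcases hC1 with h | h
      · refine Or.inl ⟨him2, ?_⟩
        rw [hB2]
        exact dvd_neg.2 h.2
      · refine Or.inr ⟨him2, ?_⟩
        rw [hA2]
        exact h.2
    · rw [hph2, hps2, ← div_eq_mul_inv, div_le_iff₀ het]
      have h5 : eps a ^ (2 * t) = eps a ^ t * eps a ^ t := by ring
      rw [h5] at hup
      linarith
    · have h5 : eps a ^ t * eps a ^ t = eps a ^ (2 * (t - r)) * eps a ^ (2 * r) := by
        rw [← pow_add, ← pow_add]
        congr 1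
        omega
      rw [hph2, hps2, ← div_eq_mul_inv, ← mul_div_assoc, le_div_iff₀ het, mul_assoc, h5]
      have h6 : 0 < eps a ^ (2 * (t - r)) := pow_pos (by linarith [two_le_eps ha]) _
      calc |ps a x1| * (eps a ^ (2 * (t - r)) * eps a ^ (2 * r))
          = eps a ^ (2 * (t - r)) * (eps a ^ (2 * r) * |ps a x1|) := by ring
        _ ≤ eps a ^ (2 * (t - r)) * |ph a x1| := mul_le_mul_of_nonneg_left hcase.le h6.le

end Pool.Agent.Helper65.KG
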