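import Pool.Agent.Helper65.KG.DB
import Pool.Agent.Helper65.KG.DA
import Pool.Agent.Helper65.KG.Rd

/-!
Project KG, module MN: the minimal norm.  cc t = (1 / (16 a²)) / ∏_{i < t} (1 + 40 / 4^i).
Strong induction on t: for all j prime to t, x ≠ 0, LB a t j x ∨ LA a t j x:
cc t * (X_t Y_t) ≤ |N x|.  t = 1: X_1 Y_1 = a, |N x| ≥ 1 (ph_ne, ps_ne, ph_mul_ps).
t ≥ 2: reduce; if j' = 1 use direct; otherwise r = t % j', k = t / j', 1 ≤ r < j'
(j' prime to t, j' ≥ 2), 1 ≤ k, r prime to j' hence Nat.Coprime j' r; descB/descA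
and the induction hypothesis for r: cc r (X_r Y_r) (X_t Y_t) ≤ |N z| X_t Y_t ≤
|N x| X_r Y_r (1 + 40/4^r), and cc r / (1 + 40/4^r) ≥ cc t because r + 1 ≤ t.
Finally ∏_{i<t} (1 + 40/4^i) ≤ exp (∑ 40/4^i) ≤ exp 60.
-/

namespace Pool.Agent.Helper65.KG

open Pool.Agent.Helper20 Pool.Agent.Helper20.MC

/-- the product `∏_{i < t} (1 + 40 / 4 ^ i)` -/
noncomputable def MN_P (t : ℕ) : ℝ := ∏ i ∈ Finset.range t, (1 + 40 / (4 : ℝ) ^ i)

theorem MN_P_succ (t : ℕ) : MN_P (t + 1) = MN_P t * (1 + 40 / (4 : ℝ) ^ t) := by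
  unfold MN_P
  rw [Finset.prod_range_succ]

theorem MN_P_pos (t : ℕ) : 0 < MN_P t := by
  unfold MN_P
  exact Finset.prod_pos fun i _ => by positivity

theorem MN_P_mono {s t : ℕ} (h : s ≤ t) : MN_P s ≤ MN_P t := by
  induction t, h using Nat.le_induction with
  | base => exact le_rfl
  | succ n _ ih =>
    rw [MN_P_succ]
    have h1 : (0 : ℝ) ≤ 40 / (4 : ℝ) ^ n := by positivity
    have h2 := MN_P_pos n
    nlinarith

theorem MN_P_zero : MN_P 0 = 1 := by simp [MN_P]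

theorem MN_one_le_P (t : ℕ) : 1 ≤ MN_P t := by
  rw [← MN_P_zero]
  exact MN_P_mono (Nat.zero_le t)

theorem MN_sum (t : ℕ) : ∑ i ∈ Finset.range t, (40 / (4 : ℝ) ^ i) ≤ 60 - 60 / 4 ^ t := by
  induction t with
  | zero => simp
  | succ n ih =>
    rw [Finset.sum_range_succ]
    have h1 : (60 : ℝ) / 4 ^ (n + 1) = (60 / 4 ^ n) / 4 := by rw [pow_succ]; field_simp
    have h2 : (40 : ℝ) / 4 ^ n = (60 / 4 ^ n) * (2 / 3) := by ring
    have h3 : (0 : ℝ) < 60 / 4 ^ n := by positivity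
    rw [h1, h2]
    linarith

theorem MN_P_le (t : ℕ) : MN_P t ≤ Real.exp 60 := by
  have h1 : MN_P t ≤ Real.exp (∑ i ∈ Finset.range t, (40 / (4 : ℝ) ^ i)) := by
    unfold MN_P
    rw [Real.exp_sum]
    apply Finset.prod_le_prod
    · intro i _
      positivity
    · intro i _
      have := Real.add_one_le_exp (40 / (4 : ℝ) ^ i)
      linarith
  refine h1.trans (Real.exp_le_exp.2 ?_)
  have h2 := MN_sum t
  have h3 : (0 : ℝ) < 60 / 4 ^ t := by positivity
  linarith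

theorem MN_norm_pos {a : ℕ} (ha : 2 ≤ a) {x : ℤ√(DD a)} (hx : x ≠ 0) : 1 ≤ |(x.norm : ℝ)| := by
  have h1 : (x.norm : ℝ) ≠ 0 := by
    rw [← ph_mul_ps ha]
    exact mul_ne_zero (ph_ne ha hx) (ps_ne ha hx)
  have h2 : x.norm ≠ 0 := by exact_mod_cast h1
  have h3 : 1 ≤ |x.norm| := Int.one_le_abs h2
  have h4 : ((1 : ℤ) : ℝ) ≤ ((|x.norm| : ℤ) : ℝ) := by exact_mod_cast h3
  simpa using h4

theorem MN_main {a : ℕ} (ha : 2 ≤ a) : ∀ (t : ℕ), 1 ≤ t → ∀ (j : ℕ) (x : ℤ√(DD a)),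
    Nat.Coprime j t → x ≠ 0 → (LB a t j x ∨ LA a t j x) →
    (X a t : ℝ) * Y a t ≤ 16 * (a : ℝ) ^ 2 * MN_P t * |(x.norm : ℝ)| := by
  intro t
  induction t using Nat.strong_induction_on with
  | _ t ih =>
  intro ht j x hc hx hL
  have haR : (2 : ℝ) ≤ (a : ℝ) := by exact_mod_cast ha
  rcases Nat.lt_or_ge t 2 with h2 | h2
  · have ht1 : t = 1 := by omega
    subst ht1
    have h3 := MN_norm_pos ha hx
    have h4 := MN_one_le_P 1
    rw [X_one, Y_one]
    push_cast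
    have h5 : (a : ℝ) ≤ 16 * (a : ℝ) ^ 2 := by nlinarith
    have h6 : (1 : ℝ) ≤ MN_P 1 * |(x.norm : ℝ)| := by nlinarith
    have h7 : 0 ≤ 16 * (a : ℝ) ^ 2 := by positivity
    nlinarith
  · obtain ⟨j', x', hj1, hjt, hjc, hx', hN, hL', hlo, hup⟩ := reduce ha h2 hc hx hL
    have hNR : |(x'.norm : ℝ)| = |(x.norm : ℝ)| := by exact_mod_cast congrArg (fun z : ℤ => (z : ℝ)) hN
    rw [← hNR]
    have hn0 := MN_norm_pos ha hx'
    rcases Nat.lt_or_ge j' 2 with hj2 | hj2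
    · have hj : j' = 1 := by omega
      subst hj
      have h3 := direct ha ht hx' hL' hlo hup
      have h4 := MN_one_le_P t
      have h5 : 0 ≤ 16 * (a : ℝ) ^ 2 * |(x'.norm : ℝ)| := by positivity
      nlinarith
    · have htk : t = t % j' + t / j' * j' := by
        rw [mul_comm]
        exact (Nat.mod_add_div t j').symm
      have hr2 : t % j' < j' := Nat.mod_lt _ (by omega)
      have hrc : Nat.Coprime j' (t % j') := by
        unfold Nat.Coprime at hjc ⊢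
        rw [Nat.gcd_comm, ← Nat.gcd_rec j' t]
        exact hjc
      have hr1 : 1 ≤ t % j' := by
        by_contra h
        have h0 : t % j' = 0 := by omega
        rw [h0, Nat.coprime_zero_right] at hrc
        omega
      have hk : 1 ≤ t / j' := (Nat.one_le_div_iff (by omega)).2 hjt.le
      obtain ⟨z, hz, hzL, hzN⟩ : ∃ z : ℤ√(DD a), z ≠ 0 ∧ (LB a (t % j') j' z ∨ LA a (t % j') j' z) ∧
          |(z.norm : ℝ)| * ((X a t : ℝ) * Y a t) ≤
            |(x'.norm : ℝ)| * ((X a (t % j') : ℝ) * Y a (t % j')) * (1 + 40 / 4 ^ (t % j')) := by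
        rcases hL' with h | h
        · obtain ⟨z, h1, h3, h4⟩ := descB ha hr1 hr2 hk htk hx' h hlo hup
          exact ⟨z, h1, Or.inl h3, h4⟩
        · obtain ⟨z, h1, h3, h4⟩ := descA ha hr1 hr2 hk htk hx' h hlo hup
          exact ⟨z, h1, Or.inr h3, h4⟩
      have hIH := ih (t % j') (by omega) hr1 j' z hrc hz hzL
      have hzn := MN_norm_pos ha hz
      have hP1 : MN_P (t % j') * (1 + 40 / 4 ^ (t % j')) ≤ MN_P t := by
        rw [← MN_P_succ]
        exact MN_P_mono (by omega)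
      have hq : (0 : ℝ) ≤ 1 + 40 / 4 ^ (t % j') := by positivity
      have hz0 : 0 < |(z.norm : ℝ)| := by linarith
      generalize |(z.norm : ℝ)| = nz at *
      generalize |(x'.norm : ℝ)| = nx at *
      generalize (X a t : ℝ) * Y a t = U at *
      generalize (X a (t % j') : ℝ) * Y a (t % j') = V at *
      generalize (1 + 40 / (4 : ℝ) ^ (t % j')) = q at *
      generalize MN_P (t % j') = p at *
      generalize MN_P t = p' at *
      have h1 : nz * U ≤ nx * (16 * (a : ℝ) ^ 2 * p * nz) * q := by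
        refine hzN.trans ?_
        apply mul_le_mul_of_nonneg_right _ hq
        exact mul_le_mul_of_nonneg_left hIH (by linarith)
      have h3 : nz * U ≤ nz * (16 * (a : ℝ) ^ 2 * p' * nx) := by
        refine h1.trans ?_
        have h4 : nx * (16 * (a : ℝ) ^ 2 * p * nz) * q = (nz * (16 * (a : ℝ) ^ 2) * nx) * (p * q) := by
          ring
        have h5 : nz * (16 * (a : ℝ) ^ 2 * p' * nx) = (nz * (16 * (a : ℝ) ^ 2) * nx) * p' := by ring
        rw [h4, h5]
        apply mul_le_mul_of_nonneg_left hP1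
        have : (0 : ℝ) ≤ nx := by linarith
        positivity
      exact le_of_mul_le_mul_left h3 hz0

theorem min_norm {a : ℕ} (ha : 2 ≤ a) : ∃ c : ℝ, 0 < c ∧ ∀ (t j : ℕ) (x : ℤ√(DD a)), 1 ≤ t →
    Nat.Coprime j t → x ≠ 0 → (LB a t j x ∨ LA a t j x) →
    c * ((X a t : ℝ) * Y a t) ≤ |(x.norm : ℝ)| := by
  have haR : (2 : ℝ) ≤ (a : ℝ) := by exact_mod_cast ha
  have hc : 0 < 16 * (a : ℝ) ^ 2 * Real.exp 60 := by positivity
  refine ⟨(16 * (a : ℝ) ^ 2 * Real.exp 60)⁻¹, inv_pos.2 hc, ?_⟩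
  intro t j x ht hcop hx hL
  have h1 := MN_main ha t ht j x hcop hx hL
  rw [inv_mul_le_iff₀ hc]
  refine h1.trans ?_
  apply mul_le_mul_of_nonneg_right _ (abs_nonneg _)
  apply mul_le_mul_of_nonneg_left (MN_P_le t) (by positivity)

end Pool.Agent.Helper65.KG
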