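import Pool.Agent.Helper65.KG.Defs
import Pool.Agent.Helper20.MC.CF1

/-!
Project KG, module Rl: following the continued fraction inside the lattice.
nx a g p = (a₀ Q - P, (D g² - (a₀ Q - P)²) / Q) with a₀ = ⌊xv⌋.  Rel says Q = 2 σ N(y1),
P + g √D = 2 σ y2 star y1 (g = Y (2t); G_cast).
-/

namespace Pool.Agent.Helper65.KG

open Pool.Agent.Helper20 Pool.Agent.Helper20.MC

private theorem Rl_coord {a t : ℕ} {p : ℤ × ℤ} {σ : ℤ} {y1 y2 : ℤ√(DD a)}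
    (hQ : p.2 = 2 * σ * y1.norm)
    (hy : (⟨p.1, Y a (2 * t)⟩ : ℤ√(DD a)) = ((2 * σ : ℤ) : ℤ√(DD a)) * (y2 * star y1)) :
    p.2 = 2 * σ * (y1.re * y1.re - DD a * y1.im * y1.im) ∧
    p.1 = 2 * σ * (y2.re * y1.re - DD a * (y2.im * y1.im)) ∧
    Y a (2 * t) = 2 * σ * (y2.im * y1.re - y2.re * y1.im) := by
  refine ⟨?_, ?_, ?_⟩
  · rw [hQ, Zsqrtd.norm_def]
  · have h := congrArg Zsqrtd.re hy
    rw [Zsqrtd.re_mul, Zsqrtd.re_mul, Zsqrtd.im_mul, Zsqrtd.re_intCast, Zsqrtd.im_intCast,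
      Zsqrtd.re_star, Zsqrtd.im_star] at h
    linear_combination h
  · have h := congrArg Zsqrtd.im hy
    rw [Zsqrtd.im_mul, Zsqrtd.re_mul, Zsqrtd.im_mul, Zsqrtd.re_intCast, Zsqrtd.im_intCast,
      Zsqrtd.re_star, Zsqrtd.im_star] at h
    linear_combination h

private theorem Rl_LB {a t j : ℕ} {y1 y2 : ℤ√(DD a)} (h1 : LB a t j y1) (h2 : LB a t j y2)
    (m : ℤ) : LB a t j (y2 - (m : ℤ√(DD a)) * y1) := by
  obtain ⟨a1, b1⟩ := h1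
  obtain ⟨a2, b2⟩ := h2
  have e1 : (y2 - (m : ℤ√(DD a)) * y1).im = y2.im - m * y1.im := by
    rw [Zsqrtd.im_sub, Zsqrtd.im_mul, Zsqrtd.re_intCast, Zsqrtd.im_intCast]
    ring
  have e2 : (y2 - (m : ℤ√(DD a)) * y1).re = y2.re - m * y1.re := by
    rw [Zsqrtd.re_sub, Zsqrtd.re_mul, Zsqrtd.re_intCast, Zsqrtd.im_intCast]
    ring
  refine ⟨?_, ?_⟩
  · rw [e1]
    exact dvd_sub a2 (Dvd.dvd.mul_left a1 m)
  · rw [B_eq] at b1 b2 ⊢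
    rw [e1, e2]
    have e3 : X a j * (y2.im - m * y1.im) - Y a j * (y2.re - m * y1.re) =
        (X a j * y2.im - Y a j * y2.re) - m * (X a j * y1.im - Y a j * y1.re) := by ring
    rw [e3]
    exact dvd_sub b2 (Dvd.dvd.mul_left b1 m)

theorem Rel.next {a t j : ℕ} (ha : 2 ≤ a) (ht : 1 ≤ t) {p : ℤ × ℤ} {σ : ℤ} {y1 y2 : ℤ√(DD a)}
    (hp : p ∈ Red a (G a t)) (h : Rel a t j p σ y1 y2) :
    Rel a t j (nx a (G a t) p) (-σ) (y2 - ((⌊xv a (G a t) p⌋ : ℤ) : ℤ√(DD a)) * y1) y1 := by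
  obtain ⟨hσ, hQ, hy, hL1, hL2, hs⟩ := h
  obtain ⟨c1, c2, c3⟩ := Rl_coord hQ hy
  have hQpos : 0 < p.2 := hp.1
  have n1 : (nx a (G a t) p).1 = ⌊xv a (G a t) p⌋ * p.2 - p.1 := rfl
  have n2 : (nx a (G a t) p).2 =
    (DD a * (G a t : ℤ) ^ 2 - (⌊xv a (G a t) p⌋ * p.2 - p.1) ^ 2) / p.2 := rfl
  generalize ⌊xv a (G a t) p⌋ = m at n1 n2 ⊢
  have e1 : (y2 - (m : ℤ√(DD a)) * y1).im = y2.im - m * y1.im := by
    rw [Zsqrtd.im_sub, Zsqrtd.im_mul, Zsqrtd.re_intCast, Zsqrtd.im_intCast]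
    ring
  have e2 : (y2 - (m : ℤ√(DD a)) * y1).re = y2.re - m * y1.re := by
    rw [Zsqrtd.re_sub, Zsqrtd.re_mul, Zsqrtd.re_intCast, Zsqrtd.im_intCast]
    ring
  refine ⟨?_, ?_, ?_, Rl_LB hL1 hL2 m, hL1, ?_⟩
  · rcases hσ with rfl | rfl
    · exact Or.inr rfl
    · exact Or.inl (by norm_num)
  · rw [n2]
    apply Int.ediv_eq_of_eq_mul_right hQpos.ne'
    rw [G_cast ha, c3, Zsqrtd.norm_def, e1, e2]
    have c2' := c2
    rw [c1, c2]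
    ring
  · apply Zsqrtd.ext
    · rw [n1, Zsqrtd.re_mul, Zsqrtd.re_mul, Zsqrtd.im_mul, Zsqrtd.re_intCast, Zsqrtd.im_intCast,
        Zsqrtd.re_star, Zsqrtd.im_star, e1, e2, c1, c2]
      ring
    · rw [Zsqrtd.im_mul, Zsqrtd.re_mul, Zsqrtd.im_mul, Zsqrtd.re_intCast, Zsqrtd.im_intCast,
        Zsqrtd.re_star, Zsqrtd.im_star, e1, e2]
      show Y a (2 * t) = _
      rw [c3]
      ring
  · intro x hx
    obtain ⟨u, v, huv⟩ := hs x hx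
    refine ⟨v, u + v * m, ?_⟩
    rw [huv]
    push_cast
    ring

theorem Rel.ph_eq {a t j : ℕ} (ha : 2 ≤ a) (ht : 1 ≤ t) {p : ℤ × ℤ} {σ : ℤ} {y1 y2 : ℤ√(DD a)}
    (hp : p ∈ Red a (G a t)) (h : Rel a t j p σ y1 y2) :
    y1 ≠ 0 ∧ ph a y2 = xv a (G a t) p * ph a y1 := by
  obtain ⟨hσ, hQ, hy, hL1, hL2, hs⟩ := h
  have hQpos : 0 < p.2 := hp.1
  have hQr : (0:ℝ) < (p.2 : ℝ) := by exact_mod_cast hQpos
  refine ⟨?_, ?_⟩
  · rintro rfl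
    rw [Zsqrtd.norm_zero, mul_zero] at hQ
    omega
  · have h1 := congrArg (ph a) hy
    rw [ph_mul ha, ph_mul ha, ph_star] at h1
    have h2 : ph a (⟨p.1, Y a (2 * t)⟩ : ℤ√(DD a)) = (p.1 : ℝ) + bb a (G a t) := by
      unfold ph bb
      have h3 : ((G a t : ℕ) : ℝ) = ((Y a (2 * t) : ℤ) : ℝ) := by
        rw [← G_cast ha t]
        push_cast
        rfl
      rw [h3]
    have h4 : ph a (((2 * σ : ℤ)) : ℤ√(DD a)) = 2 * (σ : ℝ) := by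
      unfold ph
      rw [Zsqrtd.re_intCast, Zsqrtd.im_intCast]
      push_cast
      ring
    rw [h2, h4] at h1
    have h5 := ph_mul_ps ha y1
    have h6 : (p.2 : ℝ) = 2 * σ * (y1.norm : ℝ) := by
      rw [hQ]
      push_cast
      ring
    unfold xv
    rw [h1, div_mul_eq_mul_div, eq_div_iff hQr.ne', h6, ← h5]
    ring

theorem Rel.bound {a t j : ℕ} (ha : 2 ≤ a) (ht : 1 ≤ t) {p : ℤ × ℤ} {σ : ℤ} {y1 y2 : ℤ√(DD a)}
    (hp : p ∈ Red a (G a t)) (h : Rel a t j p σ y1 y2) {c : ℝ} (hc : 0 < c)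
    (hn : c * ((X a t : ℝ) * Y a t) ≤ |(y1.norm : ℝ)|) :
    xv a (G a t) p ≤ 2 * MC.sq a / c := by
  obtain ⟨hσ, hQ, hy, hL1, hL2, hs⟩ := h
  obtain ⟨h1, -, h2, h3, h4⟩ := hp
  have hQr : (0:ℝ) < (p.2 : ℝ) := by exact_mod_cast h1
  have hXr : (0:ℝ) < X a t := by exact_mod_cast X_pos ha t
  have hYr : (0:ℝ) < Y a t := by exact_mod_cast Y_pos ha ht
  have hs := sq_pos ha
  have h6 : (p.2 : ℝ) = 2 * σ * (y1.norm : ℝ) := by
    rw [hQ]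
    push_cast
    ring
  have h7 : (p.2 : ℝ) = 2 * |(y1.norm : ℝ)| := by
    rw [← abs_of_pos hQr, h6, abs_mul, abs_mul]
    rcases hσ with rfl | rfl <;> norm_num
  have h8 : bb a (G a t) = 2 * ((X a t : ℝ) * Y a t) * MC.sq a := by
    unfold bb
    have h3 : ((G a t : ℕ) : ℝ) = ((Y a (2 * t) : ℤ) : ℝ) := by
      rw [← G_cast ha t]
      push_cast
      rfl
    rw [h3, Y_two_mul]
    push_cast
    ring
  unfold xv
  rw [div_le_div_iff₀ hQr hc]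
  have h9 : ((p.1 : ℝ) + bb a (G a t)) * c ≤ 2 * bb a (G a t) * c :=
    mul_le_mul_of_nonneg_right (by linarith) hc.le
  have h10 : 2 * bb a (G a t) * c = 4 * MC.sq a * (c * ((X a t : ℝ) * Y a t)) := by
    rw [h8]
    ring
  have h11 : 4 * MC.sq a * (c * ((X a t : ℝ) * Y a t)) ≤ 4 * MC.sq a * |(y1.norm : ℝ)| :=
    mul_le_mul_of_nonneg_left hn (by positivity)
  rw [h7]
  linarith

private theorem Rl_iter {a t j : ℕ} (ha : 2 ≤ a) (ht : 1 ≤ t) {p : ℤ × ℤ} {σ : ℤ}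
    {y1 y2 : ℤ√(DD a)} (hp : p ∈ Red a (G a t)) (h : Rel a t j p σ y1 y2) (n : ℕ) :
    (nx a (G a t))^[n] p ∈ Red a (G a t) ∧
    ∃ (σ' : ℤ) (z1 z2 : ℤ√(DD a)), Rel a t j ((nx a (G a t))^[n] p) σ' z1 z2 ∧
      |ph a z1| ≤ |ph a y1| ∧
      (1 ≤ n → |ph a z1| < |ph a y1|) ∧
      ∀ M : ℝ, 1 ≤ M → (∀ i : ℕ, xv a (G a t) ((nx a (G a t))^[i] p) ≤ M) →
        |ph a y1| ≤ M ^ n * |ph a z1| := by
  induction n with
  | zero =>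
    exact ⟨hp, σ, y1, y2, h, le_rfl, fun h => absurd h (by omega), fun M _ _ => by simp⟩
  | succ n ih =>
    obtain ⟨hr, σ', z1, z2, hR, hle, -, hM⟩ := ih
    have hg := G_pos ha ht
    rw [Function.iterate_succ_apply']
    have hr' := nx_mem ha hg hr
    have hR' := hR.next ha ht hr
    obtain ⟨hne, hph⟩ := hR'.ph_eq ha ht hr'
    have h1 := one_lt_xv hr'
    have h2 : 0 < |ph a (z2 - ((⌊xv a (G a t) ((nx a (G a t))^[n] p)⌋ : ℤ) : ℤ√(DD a)) * z1)| :=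
      abs_pos.2 (ph_ne ha hne)
    have h3 : |ph a z1| = xv a (G a t) (nx a (G a t) ((nx a (G a t))^[n] p)) *
        |ph a (z2 - ((⌊xv a (G a t) ((nx a (G a t))^[n] p)⌋ : ℤ) : ℤ√(DD a)) * z1)| := by
      rw [hph, abs_mul, abs_of_pos (by linarith)]
    have h4 : |ph a (z2 - ((⌊xv a (G a t) ((nx a (G a t))^[n] p)⌋ : ℤ) : ℤ√(DD a)) * z1)| <
        |ph a z1| := by
      rw [h3]
      nlinarith
    refine ⟨hr', -σ', _, z1, hR', (h4.trans_le hle).le, fun _ => h4.trans_le hle, ?_⟩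
    intro M hM1 hx
    have h5 := hM M hM1 hx
    have h6 := hx (n + 1)
    rw [Function.iterate_succ_apply'] at h6
    have h7 : |ph a z1| ≤
        M * |ph a (z2 - ((⌊xv a (G a t) ((nx a (G a t))^[n] p)⌋ : ℤ) : ℤ√(DD a)) * z1)| := by
      rw [h3]
      exact mul_le_mul_of_nonneg_right h6 h2.le
    have h8 : (0:ℝ) ≤ M ^ n := pow_nonneg (by linarith) n
    calc |ph a y1| ≤ M ^ n * |ph a z1| := h5
      _ ≤ M ^ n * (M * |ph a (z2 -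
          ((⌊xv a (G a t) ((nx a (G a t))^[n] p)⌋ : ℤ) : ℤ√(DD a)) * z1)|) :=
        mul_le_mul_of_nonneg_left h7 h8
      _ = _ := by rw [pow_succ]; ring

theorem Rel.iter {a t j : ℕ} (ha : 2 ≤ a) (ht : 1 ≤ t) {p : ℤ × ℤ} {σ : ℤ} {y1 y2 : ℤ√(DD a)}
    (hp : p ∈ Red a (G a t)) (h : Rel a t j p σ y1 y2) (n : ℕ) :
    (nx a (G a t))^[n] p ∈ Red a (G a t) ∧
    ∃ (σ' : ℤ) (z1 z2 : ℤ√(DD a)), Rel a t j ((nx a (G a t))^[n] p) σ' z1 z2 ∧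
      (1 ≤ n → |ph a z1| < |ph a y1|) ∧
      ∀ M : ℝ, 1 ≤ M → (∀ i : ℕ, xv a (G a t) ((nx a (G a t))^[i] p) ≤ M) →
        |ph a y1| ≤ M ^ n * |ph a z1| := by
  obtain ⟨h1, σ', z1, z2, h2, -, h3, h4⟩ := Rl_iter ha ht hp h n
  exact ⟨h1, σ', z1, z2, h2, h3, h4⟩

end Pool.Agent.Helper65.KG
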