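import Pool.Agent.Helper65.KG.Rl

/-!
Project KG, module Un: equal points differ by a unit.  By Rel.ph_eq,
ph (y2 z1) = ξ ph y1 ph z1 = ph (z2 y1), so y2 z1 = z2 y1 (ph_inj).
The elements X_t and Y_t e^j lie in LB a t j (B_j (Y_t e^j) = im (Y_t) = 0, e_mul_star), so
z1 X_t = z1 (m y1 + n y2) = y1 (m z1 + n z2) and z1 Y_t e^j ∈ y1 R, multiply by star e ^ j:
z1 Y_t ∈ y1 R; X_t, Y_t coprime (XY_coprime): z1 = μ y1.  By symmetry y1 = ν z1;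
y1 ≠ 0 (R is a domain: use ph_ne, ph_mul or the instance) gives μ ν = 1; and
z2 y1 = y2 z1 = μ y2 y1 gives z2 = μ y2.
t = t': ⟨P', Y(2t')⟩ = 2 σ' z2 star z1 = 2 σ' N(μ) y2 star y1, N(μ) = ± 1, so
Y (2 t') = ± Y (2 t), both positive, and Y is strictly monotone.
-/

namespace Pool.Agent.Helper65.KG

open Pool.Agent.Helper20 Pool.Agent.Helper20.MC

private theorem Un_cancel {a : ℕ} (ha : 2 ≤ a) {x w y : ℤ√(DD a)} (hy : y ≠ 0)
    (h : x * y = w * y) : x = w := by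
  apply ph_inj ha
  have h1 : ph a x * ph a y = ph a w * ph a y := by
    rw [← ph_mul ha, ← ph_mul ha, h]
  exact mul_right_cancel₀ (ph_ne ha hy) h1

private theorem Un_div {a t j : ℕ} {p : ℤ × ℤ} {σ : ℤ} {y1 y2 z1 z2 : ℤ√(DD a)}
    (h : Rel a t j p σ y1 y2) (hy : y2 * z1 = z2 * y1) : ∃ μ : ℤ√(DD a), z1 = μ * y1 := by
  obtain ⟨_, _, _, _, _, hsp⟩ := h
  have h1 : LB a t j ((X a t : ℤ) : ℤ√(DD a)) := by
    refine ⟨by simp, ?_⟩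
    rw [B_eq]
    simp
  have h2 : LB a t j (((Y a t : ℤ) : ℤ√(DD a)) * e a ^ j) := by
    refine ⟨?_, ?_⟩
    · rw [Zsqrtd.im_mul]
      simp
    · unfold B
      rw [mul_assoc, e_mul_star, mul_one]
      simp
  obtain ⟨m, n, h1'⟩ := hsp _ h1
  obtain ⟨m', n', h2'⟩ := hsp _ h2
  obtain ⟨u, v, huv⟩ := XY_coprime a t
  have huv' : (u : ℤ√(DD a)) * ((X a t : ℤ) : ℤ√(DD a)) + (v : ℤ√(DD a)) * ((Y a t : ℤ) : ℤ√(DD a)) = 1 := by
    exact_mod_cast congrArg (fun z : ℤ => (z : ℤ√(DD a))) huv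
  have hes := e_mul_star a j
  refine ⟨(u : ℤ√(DD a)) * ((m : ℤ√(DD a)) * z1 + (n : ℤ√(DD a)) * z2) +
    (v : ℤ√(DD a)) * ((m' : ℤ√(DD a)) * z1 + (n' : ℤ√(DD a)) * z2) * star (e a) ^ j, ?_⟩
  linear_combination (-z1) * huv' + z1 * (u : ℤ√(DD a)) * h1' +
    (-(z1 * (v : ℤ√(DD a)) * ((Y a t : ℤ) : ℤ√(DD a)))) * hes +
    z1 * (v : ℤ√(DD a)) * star (e a) ^ j * h2' +
    ((u : ℤ√(DD a)) * (n : ℤ√(DD a)) + (v : ℤ√(DD a)) * (n' : ℤ√(DD a)) * star (e a) ^ j) * hy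

theorem eq_unit {a t j t' j' : ℕ} (ha : 2 ≤ a) (ht : 1 ≤ t) (ht' : 1 ≤ t') {p p' : ℤ × ℤ}
    (hp : p ∈ Red a (G a t)) (hp' : p' ∈ Red a (G a t')) {σ σ' : ℤ}
    {y1 y2 z1 z2 : ℤ√(DD a)} (h : Rel a t j p σ y1 y2) (h' : Rel a t' j' p' σ' z1 z2)
    (he : xv a (G a t) p = xv a (G a t') p') :
    t = t' ∧ ∃ μ ν : ℤ√(DD a), μ * ν = 1 ∧ z1 = μ * y1 ∧ z2 = μ * y2 := by
  obtain ⟨hy0, hy⟩ := Rel.ph_eq ha ht hp h
  obtain ⟨hz0, hz⟩ := Rel.ph_eq ha ht' hp' h'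
  have hyz : y2 * z1 = z2 * y1 := by
    apply ph_inj ha
    rw [ph_mul ha, ph_mul ha, hy, hz, he]
    ring
  obtain ⟨μ, hμ⟩ := Un_div h hyz
  obtain ⟨ν, hν⟩ := Un_div h' hyz.symm
  have hμν : μ * ν = 1 := by
    apply Un_cancel ha hy0
    rw [one_mul]
    calc μ * ν * y1 = ν * (μ * y1) := by ring
      _ = ν * z1 := by rw [← hμ]
      _ = y1 := hν.symm
  have hz2 : z2 = μ * y2 := by
    apply Un_cancel ha hy0
    rw [← hyz, hμ]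
    ring
  refine ⟨?_, μ, ν, hμν, hμ, hz2⟩
  obtain ⟨hs, _, hP, _, _, _⟩ := h
  obtain ⟨hs', _, hP', _, _, _⟩ := h'
  have hn : μ.norm = 1 ∨ μ.norm = -1 := by
    have h1 : μ.norm * ν.norm = 1 := by
      rw [← Zsqrtd.norm_mul, hμν, Zsqrtd.norm_one]
    exact Int.eq_one_or_neg_one_of_mul_eq_one h1
  have hP2 : (⟨p'.1, Y a (2 * t')⟩ : ℤ√(DD a)) =
      ((σ' * μ.norm * σ : ℤ) : ℤ√(DD a)) * ⟨p.1, Y a (2 * t)⟩ := by
    have hσ : ((σ : ℤ) : ℤ√(DD a)) * ((σ : ℤ) : ℤ√(DD a)) = 1 := by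
      rcases hs with rfl | rfl <;> simp
    have hnm : ((μ.norm : ℤ) : ℤ√(DD a)) = μ * star μ := Zsqrtd.norm_eq_mul_conj μ
    rw [hP, hP', hz2, hμ, star_mul]
    push_cast
    rw [hnm]
    linear_combination (-(2 * (σ' : ℤ√(DD a)) * μ * star μ * y2 * star y1)) * hσ
  have him := congrArg Zsqrtd.im hP2
  rw [Zsqrtd.im_mul] at him
  simp only [Zsqrtd.re_intCast, Zsqrtd.im_intCast, zero_mul, add_zero] at him
  have hp1 : 0 < Y a (2 * t) := Y_pos ha (by omega)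
  have hp2 : 0 < Y a (2 * t') := Y_pos ha (by omega)
  have hY : Y a (2 * t') = Y a (2 * t) := by
    rcases hs with rfl | rfl <;> rcases hs' with rfl | rfl <;> rcases hn with hn | hn <;>
      rw [hn] at him <;> linarith
  have := (Y_strictMono ha).injective hY
  omega

end Pool.Agent.Helper65.KG
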